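import Pool.Agent.Helper28.CS3.Types

/-!
# Every edge of a Dynkin diagram is the last edge of a leaf chain
-/

namespace H28T

open Equiv

set_option linter.unusedSectionVars false

variable {ι M N : Type*} [Fintype ι] [AddCommGroup M] [Module ℚ M]
  [AddCommGroup N] [Module ℚ N] {P : RootPairing ι ℚ M N}
variable (b : P.Base) [P.IsRootSystem] [P.IsCrystallographic] [P.IsReduced]

/-- off-diagonal pairings are integers `≤ 0` -/
theorem pairing_int_nonpos (i j : b.support) (h : i ≠ j) :
    ∃ k : ℕ, P.pairing i j = -(k : ℚ) := by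
  have h0 : P.pairingIn ℤ i j ≤ 0 := b.pairingIn_le_zero_of_ne
    (by rwa [ne_eq, ← Subtype.ext_iff]) i.property j.property
  refine ⟨(-P.pairingIn ℤ i j).toNat, ?_⟩
  have h1 : (((-P.pairingIn ℤ i j).toNat : ℤ) : ℚ) = ((-P.pairingIn ℤ i j : ℤ) : ℚ) := by
    rw [Int.toNat_of_nonneg (by omega)]
  have h2 : ((P.pairingIn ℤ i j : ℤ) : ℚ) = P.pairing i j := by
    have := P.algebraMap_pairingIn ℤ i j
    simpa using this
  rw [← h2]
  push_cast at h1
  have h3 : (((-P.pairingIn ℤ i j).toNat : ℕ) : ℚ) = -(P.pairingIn ℤ i j : ℚ) := by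
    rw [← h1]
  rw [h3, neg_neg]

theorem pairing_nonpos (i j : b.support) (h : i ≠ j) : P.pairing i j ≤ 0 := by
  obtain ⟨k, hk⟩ := pairing_int_nonpos b i j h
  rw [hk]
  have : (0 : ℚ) ≤ k := Nat.cast_nonneg k
  linarith

theorem pairing_le_neg_one (i j : b.support) (h : i ≠ j) (h' : P.pairing i j ≠ 0) :
    P.pairing i j ≤ -1 := by
  obtain ⟨k, hk⟩ := pairing_int_nonpos b i j h
  rw [hk] at h' ⊢
  have hk0 : k ≠ 0 := by
    rintro rfl
    simp at h'
  have : (1 : ℚ) ≤ k := by exact_mod_cast Nat.one_le_iff_ne_zero.mpr hk0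
  linarith

/-- the Coxeter weight `4 cos²` -/
def cw (i j : b.support) : ℚ := P.pairing i j * P.pairing j i

theorem cw_nonneg (i j : b.support) (h : i ≠ j) : 0 ≤ cw b i j :=
  mul_nonneg_of_nonpos_of_nonpos (pairing_nonpos b i j h) (pairing_nonpos b j i h.symm)

theorem adj_symm (i j : b.support) (h : P.pairing i j ≠ 0) : P.pairing j i ≠ 0 := by
  rwa [ne_eq, P.pairing_eq_zero_iff] at h

theorem one_le_cw (i j : b.support) (h : i ≠ j) (h' : P.pairing i j ≠ 0) : 1 ≤ cw b i j := by
  have h1 := pairing_le_neg_one b i j h h'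
  have h2 := pairing_le_neg_one b j i h.symm (adj_symm b i j h')
  unfold cw
  nlinarith

theorem cw_int (i j : b.support) (h : i ≠ j) : ∃ k : ℕ, cw b i j = k := by
  obtain ⟨k, hk⟩ := pairing_int_nonpos b i j h
  obtain ⟨l, hl⟩ := pairing_int_nonpos b j i h.symm
  exact ⟨k * l, by rw [cw, hk, hl]; push_cast; ring⟩

theorem of_cw_one (i j : b.support) (h : i ≠ j) (h' : cw b i j = 1) :
    P.pairing i j = -1 ∧ P.pairing j i = -1 := by
  obtain ⟨k, hk⟩ := pairing_int_nonpos b i j h
  obtain ⟨l, hl⟩ := pairing_int_nonpos b j i h.symm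
  rw [cw, hk, hl, neg_mul_neg] at h'
  have h1 : k * l = 1 := by exact_mod_cast h'
  have h2 := Nat.eq_one_of_mul_eq_one_right h1
  have h3 := Nat.eq_one_of_mul_eq_one_left h1
  rw [hk, hl]
  subst h2 h3
  simp

/-- A combination of simple roots which is nonpositive on all simple coroots, with nonnegative
coefficients, is trivial. -/
theorem eq_zero_of_nonpos (c : b.support → ℚ) (hc : ∀ e, 0 ≤ c e)
    (h : ∀ j : b.support, ∑ e, c e * P.pairing e j ≤ 0) : ∀ e, c e = 0 := by
  set x : M := ∑ e, c e • P.root (e : ι) with hx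
  have h1 : ∀ j : b.support, P.RootForm (P.root j) (P.root j) * P.toLinearMap x (P.coroot j)
      = 2 * P.RootForm (P.root j) x := by
    intro j
    have h2 := P.rootForm_self_smul_coroot (j : ι)
    have h3 := congrArg (P.toLinearMap x) h2
    rw [map_smul, map_nsmul, P.toLinearMap_apply_apply_Polarization] at h3
    simpa [nsmul_eq_mul] using h3
  have h4 : ∀ j : b.support, P.toLinearMap x (P.coroot j) = ∑ e, c e * P.pairing e j := by
    intro j
    rw [hx, map_sum, LinearMap.sum_apply]
    refine Finset.sum_congr rfl fun e _ => ?_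
    rw [map_smul, LinearMap.smul_apply, smul_eq_mul, P.root_coroot_eq_pairing]
  have h5 : P.RootForm x x ≤ 0 := by
    have h6 : P.RootForm x x = ∑ j, c j * P.RootForm (P.root (j : ι)) x := by
      have h7 : P.RootForm x = ∑ j : b.support, c j • P.RootForm (P.root (j : ι)) := by
        rw [hx, map_sum]
        exact Finset.sum_congr rfl fun e _ => map_smul _ _ _
      calc P.RootForm x x = (∑ j : b.support, c j • P.RootForm (P.root (j : ι))) x := by rw [← h7]
        _ = _ := by
          rw [LinearMap.sum_apply]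
          exact Finset.sum_congr rfl fun e _ => by rw [LinearMap.smul_apply, smul_eq_mul]
    rw [h6]
    refine Finset.sum_nonpos fun j _ => mul_nonpos_of_nonneg_of_nonpos (hc j) ?_
    have h7 := h1 j
    have h8 : 0 ≤ P.RootForm (P.root (j : ι)) (P.root j) := P.zero_le_rootForm _
    have h9 := h j
    rw [← h4] at h9
    nlinarith [mul_nonneg h8 (neg_nonneg.mpr h9)]
  have h6 : x = 0 := by
    apply P.rootForm_anisotropic x
    exact le_antisymm h5 (P.zero_le_rootForm x)
  intro e
  have hli : LinearIndependent ℚ (fun e : b.support => P.root (e : ι)) := b.linearIndepOn_root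
  exact Fintype.linearIndependent_iff.mp hli c (by rw [← hx, h6]) e

open Classical in
/-- **The criterion.**  There is no nonempty set `S` of nodes such that each `s ∈ S` has a
neighbour `e₀ ∈ S` and, besides `s`, `e₀`, another neighbour in `S` or Coxeter weight at least `2`
in total. -/
theorem no_bad_set (S : Finset b.support) (hS : S.Nonempty)
    (h : ∀ s ∈ S, ∃ e₀ ∈ S, e₀ ≠ s ∧ P.pairing s e₀ ≠ 0 ∧
      ((∃ e₁ ∈ S, e₁ ≠ s ∧ e₁ ≠ e₀ ∧ P.pairing s e₁ ≠ 0) ∨
        2 ≤ ∑ e ∈ Finset.univ.filter fun e => e ≠ s ∧ e ≠ e₀, cw b s e)) : False := by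
  set c : b.support → ℚ := fun e => if e ∈ S then 1 else -(∑ s ∈ S, P.pairing s e) / 2 with hcdef
  have hin : ∀ e ∈ S, c e = 1 := fun e he => by simp [hcdef, he]
  have hout : ∀ e, e ∉ S → c e = -(∑ s ∈ S, P.pairing s e) / 2 := fun e he => by
    simp [hcdef, he]
  have hle : ∀ s ∈ S, ∀ e, e ∉ S → -P.pairing s e / 2 ≤ c e := by
    intro s hs e he
    rw [hout e he]
    have h1 : ∑ s ∈ S, P.pairing s e ≤ P.pairing s e := by
      rw [← Finset.add_sum_erase S _ hs]
      have : ∑ x ∈ S.erase s, P.pairing x e ≤ 0 := Finset.sum_nonpos fun x hx =>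
        pairing_nonpos b x e fun hxe => he (hxe ▸ Finset.mem_of_mem_erase hx)
      linarith
    linarith
  have hc : ∀ e, 0 ≤ c e := by
    intro e
    by_cases he : e ∈ S
    · rw [hin e he]
      norm_num
    · rw [hout e he]
      have : ∑ x ∈ S, P.pairing x e ≤ 0 := Finset.sum_nonpos fun x hx =>
        pairing_nonpos b x e fun hxe => he (hxe ▸ hx)
      linarith
  have hterm : ∀ j e, e ≠ j → c e * P.pairing e j ≤ 0 := fun j e hej =>
    mul_nonpos_of_nonneg_of_nonpos (hc e) (pairing_nonpos b e j hej)
  have key : ∀ j : b.support, ∑ e, c e * P.pairing e j ≤ 0 := by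
    intro j
    by_cases hj : j ∈ S
    · obtain ⟨e₀, he₀, hne, hadj, hor⟩ := h j hj
      have hadj' : P.pairing e₀ j ≤ -1 := pairing_le_neg_one b e₀ j hne (adj_symm b j e₀ hadj)
      have hsplit : ∑ e, c e * P.pairing e j = 2 + P.pairing e₀ j +
          ∑ e ∈ Finset.univ.filter fun e => e ≠ j ∧ e ≠ e₀, c e * P.pairing e j := by
        have h1 : (Finset.univ : Finset b.support) = insert j (insert e₀
            (Finset.univ.filter fun e => e ≠ j ∧ e ≠ e₀)) := by
          ext e
          simp only [Finset.mem_univ, Finset.mem_insert, Finset.mem_filter, true_and, true_iff]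
          tauto
        conv_lhs => rw [h1]
        rw [Finset.sum_insert (by simp [hne.symm]), Finset.sum_insert (by simp), hin j hj,
          hin e₀ he₀, P.pairing_same]
        ring
      rw [hsplit]
      have hrest : ∑ e ∈ Finset.univ.filter fun e => e ≠ j ∧ e ≠ e₀, c e * P.pairing e j
          ≤ -1 := by
        by_cases hex : ∃ e₁ ∈ S, e₁ ≠ j ∧ e₁ ≠ e₀ ∧ P.pairing j e₁ ≠ 0
        · obtain ⟨e₁, he₁, h1, h2, h3⟩ := hex
          have hmem : e₁ ∈ Finset.univ.filter fun e => e ≠ j ∧ e ≠ e₀ := by simp [h1, h2]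
          rw [← Finset.add_sum_erase _ _ hmem, hin e₁ he₁, one_mul]
          have h4 := pairing_le_neg_one b e₁ j h1 (adj_symm b j e₁ h3)
          have h5 : ∑ x ∈ (Finset.univ.filter fun e => e ≠ j ∧ e ≠ e₀).erase e₁,
              c x * P.pairing x j ≤ 0 := Finset.sum_nonpos fun x hx => by
            apply hterm j x
            have := Finset.mem_of_mem_erase hx
            simp only [Finset.mem_filter, Finset.mem_univ, true_and] at this
            exact this.1
          linarith
        · have h2 : 2 ≤ ∑ e ∈ Finset.univ.filter fun e => e ≠ j ∧ e ≠ e₀, cw b j e := by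
            rcases hor with h2 | h2
            · exact absurd h2 hex
            · exact h2
          push Not at hex
          have h3 : ∑ e ∈ Finset.univ.filter fun e => e ≠ j ∧ e ≠ e₀, c e * P.pairing e j
              ≤ ∑ e ∈ Finset.univ.filter fun e => e ≠ j ∧ e ≠ e₀, -(cw b j e) / 2 := by
            refine Finset.sum_le_sum fun e he => ?_
            simp only [Finset.mem_filter, Finset.mem_univ, true_and] at he
            by_cases heS : e ∈ S
            · have h4 := hex e heS he.1 he.2
              have h5 : P.pairing e j = 0 := (P.pairing_eq_zero_iff).mp h4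
              rw [cw, h4, h5]
              simp
            · have h4 := hle j hj e heS
              have h5 := pairing_nonpos b e j he.1
              unfold cw
              nlinarith
          have h4 : ∑ e ∈ Finset.univ.filter fun e => e ≠ j ∧ e ≠ e₀, -(cw b j e) / 2 =
              -(∑ e ∈ Finset.univ.filter fun e => e ≠ j ∧ e ≠ e₀, cw b j e) / 2 := by
            rw [← Finset.sum_neg_distrib, Finset.sum_div]
          linarith
      linarith
    · have h1 : ∑ e, c e * P.pairing e j = c j * 2 + (∑ s ∈ S, P.pairing s j) +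
          ∑ e ∈ Finset.univ.filter fun e => e ≠ j ∧ e ∉ S, c e * P.pairing e j := by
        have h2 : (Finset.univ : Finset b.support) = insert j (S ∪
            (Finset.univ.filter fun e => e ≠ j ∧ e ∉ S)) := by
          ext e
          simp only [Finset.mem_univ, Finset.mem_insert, Finset.mem_filter, Finset.mem_union,
            true_and, true_iff]
          tauto
        conv_lhs => rw [h2]
        rw [Finset.sum_insert (by simp [hj]), Finset.sum_union, P.pairing_same,
          Finset.sum_congr rfl fun e he => by rw [hin e he, one_mul]]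
        · ring
        · rw [Finset.disjoint_left]
          intro e he
          simp [he]
      have h2 : ∑ e ∈ Finset.univ.filter fun e => e ≠ j ∧ e ∉ S, c e * P.pairing e j ≤ 0 :=
        Finset.sum_nonpos fun x hx => by
          simp only [Finset.mem_filter, Finset.mem_univ, true_and] at hx
          exact hterm j x hx.1
      rw [h1, hout j hj]
      linarith
  have h0 := eq_zero_of_nonpos b c hc key
  obtain ⟨s, hs⟩ := hS
  have := h0 s
  rw [hin s hs] at this
  exact one_ne_zero this

open Classical in
/-- the next node of a walk which comes from `u` and is at `v` -/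
noncomputable def nx (u v : b.support) : b.support :=
  if h : ∃ e, e ≠ v ∧ e ≠ u ∧ P.pairing v e ≠ 0 then h.choose else v

/-- the walk (as pairs of consecutive nodes) -/
noncomputable def gw (q p : b.support) : ℕ → b.support × b.support
  | 0 => (q, p)
  | k + 1 => ((gw q p k).2, nx b (gw q p k).1 (gw q p k).2)

/-- the nodes of the walk -/
noncomputable def gn (q p : b.support) (k : ℕ) : b.support := (gw b q p k).1

theorem gn_zero (q p : b.support) : gn b q p 0 = q := rfl

theorem gn_one (q p : b.support) : gn b q p 1 = p := rfl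

theorem gn_add_two (q p : b.support) (k : ℕ) :
    gn b q p (k + 2) = nx b (gn b q p k) (gn b q p (k + 1)) := rfl

open Classical in
/-- the total Coxeter weight at `v`, without `u` -/
noncomputable def tw (u v : b.support) : ℚ :=
  ∑ e ∈ Finset.univ.filter fun e => e ≠ v ∧ e ≠ u, cw b v e

theorem tw_int (u v : b.support) : ∃ k : ℕ, tw b u v = k := by
  classical
  have h : ∀ e : b.support, ∃ k : ℕ, e ≠ v → cw b v e = k := by
    intro e
    by_cases he : e = v
    · exact ⟨0, fun h => absurd he h⟩
    · obtain ⟨k, hk⟩ := cw_int b v e fun h => he h.symm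
      exact ⟨k, fun _ => hk⟩
  choose k hk using h
  refine ⟨∑ e ∈ Finset.univ.filter fun e => e ≠ v ∧ e ≠ u, k e, ?_⟩
  rw [tw, Nat.cast_sum]
  refine Finset.sum_congr (by ext; simp) fun e he => ?_
  simp only [Finset.mem_filter, Finset.mem_univ, true_and] at he
  exact hk e he.1

theorem cw_eq_zero (v e : b.support) (h : e ≠ v) (h' : cw b v e = 0) : P.pairing v e = 0 := by
  by_contra h2
  have := one_le_cw b v e h.symm h2
  rw [h'] at this
  norm_num at this

theorem leaf_spec (u v : b.support) (h : tw b u v = 0) (j : b.support) (h1 : j ≠ v)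
    (h2 : j ≠ u) : P.pairing v j = 0 := by
  classical
  apply cw_eq_zero b v j h1
  refine (Finset.sum_eq_zero_iff_of_nonneg fun e he => ?_).mp h j (by simp [h1, h2])
  simp only [Finset.mem_filter, Finset.mem_univ, true_and] at he
  exact cw_nonneg b v e he.1.symm

theorem forced_spec (u v : b.support) (h : tw b u v = 1) :
    nx b u v ≠ v ∧ nx b u v ≠ u ∧ cw b v (nx b u v) = 1 ∧
      ∀ j, j ≠ v → j ≠ u → j ≠ nx b u v → P.pairing v j = 0 := by
  classical
  have hex : ∃ e, e ≠ v ∧ e ≠ u ∧ P.pairing v e ≠ 0 := by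
    by_contra hex
    push Not at hex
    have : tw b u v = 0 := Finset.sum_eq_zero fun e he => by
      simp only [Finset.mem_filter, Finset.mem_univ, true_and] at he
      rw [cw, hex e he.1 he.2, zero_mul]
    rw [this] at h
    exact zero_ne_one h
  have hnx : nx b u v = hex.choose := by
    rw [nx, dif_pos hex]
  have hs := hex.choose_spec
  rw [← hnx] at hs
  obtain ⟨h1, h2, h3⟩ := hs
  have hmem : nx b u v ∈ Finset.univ.filter fun e => e ≠ v ∧ e ≠ u := by simp [h1, h2]
  have h4 : cw b v (nx b u v) +
      ∑ e ∈ (Finset.univ.filter fun e => e ≠ v ∧ e ≠ u).erase (nx b u v), cw b v e = 1 := by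
    rw [Finset.add_sum_erase _ _ hmem, ← h, tw]
  have h5 := one_le_cw b v (nx b u v) h1.symm h3
  have hnn : ∀ e ∈ (Finset.univ.filter fun e => e ≠ v ∧ e ≠ u).erase (nx b u v),
      0 ≤ cw b v e := by
    intro e he
    have := Finset.mem_of_mem_erase he
    simp only [Finset.mem_filter, Finset.mem_univ, true_and] at this
    exact cw_nonneg b v e this.1.symm
  have h6 := Finset.sum_nonneg hnn
  have h7 : ∑ e ∈ (Finset.univ.filter fun e => e ≠ v ∧ e ≠ u).erase (nx b u v), cw b v e = 0 := by
    linarith
  refine ⟨h1, h2, by linarith, fun j hj1 hj2 hj3 => cw_eq_zero b v j hj1 ?_⟩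
  exact (Finset.sum_eq_zero_iff_of_nonneg hnn).mp h7 j (by simp [hj1, hj2, hj3])

theorem adj_of_cw_one (v e : b.support) (h : cw b v e = 1) : P.pairing v e ≠ 0 := by
  intro h'
  rw [cw, h', zero_mul] at h
  exact zero_ne_one h

section walk

variable {b} {q p : b.support} (hqp : q ≠ p) (hadj : P.pairing q p ≠ 0)
include hqp hadj

omit hqp hadj in
/-- facts at a forced node -/
theorem forced_gn {K : ℕ} (hF : ∀ i < K, tw b (gn b q p i) (gn b q p (i + 1)) = 1) (i : ℕ)
    (hi : i < K) : gn b q p (i + 2) ≠ gn b q p (i + 1) ∧ gn b q p (i + 2) ≠ gn b q p i ∧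
      cw b (gn b q p (i + 1)) (gn b q p (i + 2)) = 1 ∧
      ∀ j, j ≠ gn b q p (i + 1) → j ≠ gn b q p i → j ≠ gn b q p (i + 2) →
        P.pairing (gn b q p (i + 1)) j = 0 := by
  rw [gn_add_two]
  exact forced_spec b _ _ (hF i hi)

omit hqp in
theorem adj_gn {K : ℕ} (hF : ∀ i < K, tw b (gn b q p i) (gn b q p (i + 1)) = 1) (i : ℕ)
    (hi : i ≤ K) : P.pairing (gn b q p i) (gn b q p (i + 1)) ≠ 0 := by
  rcases i with _ | i
  · rw [gn_zero, gn_one]
    exact hadj
  · exact adj_of_cw_one b _ _ (forced_gn hF i (by omega)).2.2.1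

theorem inj_gn {K : ℕ} (hF : ∀ i < K, tw b (gn b q p i) (gn b q p (i + 1)) = 1) :
    ∀ i ≤ K + 1, ∀ j < i, gn b q p j ≠ gn b q p i := by
  classical
  intro i
  induction i using Nat.strong_induction_on with
  | _ i ih =>
    intro hi j hj heq
    have hinj : ∀ s < i, ∀ t < i, gn b q p s = gn b q p t → s = t := by
      intro s hs t ht hst
      rcases lt_trichotomy s t with h | h | h
      · exact absurd hst (ih t ht (by omega) s h)
      · exact h
      · exact absurd hst.symm (ih s hs (by omega) t h)
    rcases i with _ | _ | i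
    · omega
    · have : j = 0 := by omega
      subst this
      rw [gn_zero, gn_one] at heq
      exact hqp heq
    · obtain ⟨h1, h2, h3, -⟩ := forced_gn hF i (by omega)
      have h4 : P.pairing (gn b q p (i + 1)) (gn b q p (i + 2)) ≠ 0 := adj_of_cw_one b _ _ h3
      have h5 : P.pairing (gn b q p (i + 2)) (gn b q p (i + 1)) ≠ 0 := adj_symm b _ _ h4
      rcases j with _ | j
      · -- the cycle
        have hi1 : i ≠ 0 := by
          rintro rfl
          exact h2 heq.symm
        refine no_bad_set b ((Finset.range (i + 2)).image (gn b q p))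
          ⟨gn b q p 0, Finset.mem_image_of_mem _ (by simp)⟩ fun s hs => ?_
        obtain ⟨t, ht, rfl⟩ := Finset.mem_image.mp hs
        rw [Finset.mem_range] at ht
        rcases t with _ | t
        · refine ⟨gn b q p 1, Finset.mem_image_of_mem _ (by simp), ?_, ?_, Or.inl
            ⟨gn b q p (i + 1), Finset.mem_image_of_mem _ (by simp), ?_, ?_, ?_⟩⟩
          · intro h
            have := hinj 1 (by omega) 0 (by omega) h
            omega
          · exact adj_gn hadj hF 0 (by omega)
          · intro h
            have := hinj (i + 1) (by omega) 0 (by omega) h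
            omega
          · intro h
            have := hinj (i + 1) (by omega) 1 (by omega) h
            omega
          · rw [heq]
            exact h5
        · obtain ⟨g1, g2, g3, -⟩ := forced_gn hF t (by omega)
          refine ⟨gn b q p t, Finset.mem_image_of_mem _ (by simp; omega), ?_, ?_, Or.inl
            ⟨gn b q p (t + 2), ?_, g1, g2, adj_of_cw_one b _ _ g3⟩⟩
          · intro h
            have := hinj t (by omega) (t + 1) (by omega) h
            omega
          · exact adj_symm b _ _ (adj_gn hadj hF t (by omega))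
          · by_cases hti : t + 2 < i + 2
            · exact Finset.mem_image_of_mem _ (by simp; omega)
            · have : t = i := by omega
              subst this
              rw [← heq]
              exact Finset.mem_image_of_mem _ (by simp)
      · obtain ⟨g1, g2, g3, g4⟩ := forced_gn hF j (by omega)
        by_cases hji : j = i
        · subst hji
          exact h1 heq.symm
        · rw [← heq] at h5
          apply h5
          apply g4
          · intro h
            have := hinj (i + 1) (by omega) (j + 1) (by omega) h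
            omega
          · intro h
            have := hinj (i + 1) (by omega) j (by omega) h
            omega
          · intro h
            have := hinj (i + 1) (by omega) (j + 2) (by omega) h
            have h6 : i = j + 1 := by omega
            subst h6
            exact h2 heq.symm

theorem exists_stop : ∃ K : ℕ, (∀ i < K, tw b (gn b q p i) (gn b q p (i + 1)) = 1) ∧
    (tw b (gn b q p K) (gn b q p (K + 1)) = 0 ∨ 2 ≤ tw b (gn b q p K) (gn b q p (K + 1))) := by
  classical
  have hex : ∃ K : ℕ, tw b (gn b q p K) (gn b q p (K + 1)) ≠ 1 := by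
    by_contra hall
    push Not at hall
    apply not_injective_infinite_finite (gn b q p)
    intro s t hst
    rcases lt_trichotomy s t with h | h | h
    · exact absurd hst (inj_gn hqp hadj (K := t) (fun i _ => hall i) t (by omega) s h)
    · exact h
    · exact absurd hst.symm (inj_gn hqp hadj (K := s) (fun i _ => hall i) s (by omega) t h)
  refine ⟨Nat.find hex, fun i hi => ?_, ?_⟩
  · have := Nat.find_min hex hi
    push Not at this
    exact this
  · have h1 := Nat.find_spec hex
    obtain ⟨k, hk⟩ := tw_int b (gn b q p (Nat.find hex)) (gn b q p (Nat.find hex + 1))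
    rw [hk] at h1 ⊢
    rcases k with _ | _ | k
    · left
      simp
    · exact absurd (by norm_num) h1
    · right
      push_cast
      have : (0 : ℚ) ≤ k := Nat.cast_nonneg k
      linarith

theorem leaf_or_bad :
    (∃ (f : ℕ → b.support) (m : ℕ), LeafChain b f (m + 2) ∧ f m = p ∧ f (m + 1) = q) ∨
      ∃ S : Finset b.support, p ∈ S ∧ ∀ s ∈ S, ∃ e₀, (e₀ ∈ S ∨ e₀ = q) ∧ e₀ ≠ s ∧
        P.pairing s e₀ ≠ 0 ∧ ((∃ e₁ ∈ S, e₁ ≠ s ∧ e₁ ≠ e₀ ∧ P.pairing s e₁ ≠ 0) ∨
          2 ≤ tw b e₀ s) := by
  classical
  obtain ⟨K, hF, hK⟩ := exists_stop hqp hadj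
  have hinj0 := inj_gn hqp hadj hF
  have hinj : ∀ s ≤ K + 1, ∀ t ≤ K + 1, gn b q p s = gn b q p t → s = t := by
    intro s hs t ht hst
    rcases lt_trichotomy s t with h | h | h
    · exact absurd hst (hinj0 t ht s h)
    · exact h
    · exact absurd hst.symm (hinj0 s hs t h)
  rcases hK with hK | hK
  · left
    refine ⟨fun t => gn b q p (K + 1 - t), K, ⟨?_, ?_, ?_, ?_⟩, ?_, ?_⟩
    · intro s hs t ht h
      have := hinj _ (by omega) _ (by omega) h
      omega
    · intro t ht
      have h1 : K + 1 - t = (K - t) + 1 := by omega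
      have h2 : K + 1 - (t + 1) = K - t := by omega
      simp only [h1, h2]
      have h3 := adj_symm b _ _ (adj_gn hadj hF (K - t) (by omega))
      have h4 : gn b q p (K - t + 1) ≠ gn b q p (K - t) := by
        intro h
        have := hinj _ (by omega) _ (by omega) h
        omega
      have := pairing_le_neg_one b _ _ h4 h3
      linarith
    · intro t ht
      have h1 : K + 1 - t = (K - t - 1) + 2 := by omega
      have h2 : K + 1 - (t + 1) = (K - t - 1) + 1 := by omega
      simp only [h1, h2]
      obtain ⟨g1, g2, g3, -⟩ := forced_gn hF (K - t - 1) (by omega)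
      exact (of_cw_one b _ _ g1.symm g3).symm
    · intro t ht j hj1 hj2 hj3
      rcases t with _ | t
      · exact leaf_spec b _ _ hK j hj1 hj2
      · have h1 : K + 1 - (t + 1) = (K - t - 1) + 1 := by omega
        have h2 : K + 1 - (t + 1 + 1) = K - t - 1 := by omega
        have h3 : K + 1 - t = (K - t - 1) + 2 := by omega
        have hj4 := hj3 t rfl
        simp only [h1, h2, h3] at hj1 hj2 hj4 ⊢
        obtain ⟨-, -, -, g4⟩ := forced_gn hF (K - t - 1) (by omega)
        exact g4 j hj1 hj2 hj4
    · have h1 : K + 1 - K = 1 := by omega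
      simp only [h1]
      exact gn_one b q p
    · have h1 : K + 1 - (K + 1) = 0 := by omega
      simp only [h1]
      exact gn_zero b q p
  · right
    refine ⟨(Finset.Icc 1 (K + 1)).image (gn b q p), ?_, fun s hs => ?_⟩
    · rw [← gn_one b q p]
      exact Finset.mem_image_of_mem _ (by simp)
    · obtain ⟨t, ht, rfl⟩ := Finset.mem_image.mp hs
      rw [Finset.mem_Icc] at ht
      obtain ⟨t, rfl⟩ : ∃ t', t = t' + 1 := ⟨t - 1, by omega⟩
      refine ⟨gn b q p t, ?_, ?_, adj_symm b _ _ (adj_gn hadj hF t (by omega)), ?_⟩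
      · rcases t with _ | t
        · right
          exact gn_zero b q p
        · left
          exact Finset.mem_image_of_mem _ (by simp; omega)
      · intro h
        have := hinj _ (by omega) _ (by omega) h
        omega
      · by_cases htK : t < K
        · left
          obtain ⟨g1, g2, g3, -⟩ := forced_gn hF t htK
          exact ⟨gn b q p (t + 2), Finset.mem_image_of_mem _ (by simp; omega), g1, g2,
            adj_of_cw_one b _ _ g3⟩
        · right
          have : t = K := by omega
          rw [this]
          exact hK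

end walk

/-- **Every edge of a Dynkin diagram is the last edge of a leaf chain.** -/
theorem tame_all (p q : b.support) (hpq : p ≠ q) (h : P.pairing p q ≠ 0) :
    ∃ (f : ℕ → b.support) (m : ℕ), LeafChain b f (m + 2) ∧
      ((f m = p ∧ f (m + 1) = q) ∨ (f m = q ∧ f (m + 1) = p)) := by
  classical
  rcases leaf_or_bad hpq.symm (adj_symm b p q h) with ⟨f, m, h1, h2, h3⟩ | ⟨S, hS, hS'⟩
  · exact ⟨f, m, h1, Or.inl ⟨h2, h3⟩⟩
  rcases leaf_or_bad hpq h with ⟨f, m, h1, h2, h3⟩ | ⟨T, hT, hT'⟩
  · exact ⟨f, m, h1, Or.inr ⟨h2, h3⟩⟩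
  exfalso
  refine no_bad_set b (S ∪ T) ⟨p, Finset.mem_union_left _ hS⟩ fun s hs => ?_
  rcases Finset.mem_union.mp hs with hs | hs
  · obtain ⟨e₀, h1, h2, h3, h4⟩ := hS' s hs
    refine ⟨e₀, ?_, h2, h3, ?_⟩
    · rcases h1 with h1 | rfl
      · exact Finset.mem_union_left _ h1
      · exact Finset.mem_union_right _ hT
    · rcases h4 with ⟨e₁, h5, h6⟩ | h4
      · exact Or.inl ⟨e₁, Finset.mem_union_left _ h5, h6⟩
      · exact Or.inr h4
  · obtain ⟨e₀, h1, h2, h3, h4⟩ := hT' s hs
    refine ⟨e₀, ?_, h2, h3, ?_⟩
    · rcases h1 with h1 | rfl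
      · exact Finset.mem_union_right _ h1
      · exact Finset.mem_union_left _ hS
    · rcases h4 with ⟨e₁, h5, h6⟩ | h4
      · exact Or.inl ⟨e₁, Finset.mem_union_right _ h5, h6⟩
      · exact Or.inr h4

end H28T
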