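import Pool.Agent.Helper28.CS3.Main
import Pool.Agent.Helper28.CS3.TameAll

/-!
# Elements of length at most two, every type (pieces LT)
-/

namespace H28T

open MvPolynomial Equiv

set_option linter.unusedSectionVars false

variable {ι M N : Type*} [Fintype ι] [AddCommGroup M] [Module ℚ M]
  [AddCommGroup N] [Module ℚ N] {P : RootPairing ι ℚ M N}
variable (b : P.Base) [P.IsRootSystem] [P.IsCrystallographic] [P.IsReduced]

/-- Every edge of the Dynkin diagram is the last edge of a leaf chain. -/
def Tame : Prop := ∀ p q : b.support, p ≠ q → P.pairing p q ≠ 0 →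
  ∃ (f : ℕ → b.support) (m : ℕ), LeafChain b f (m + 2) ∧
    ((f m = p ∧ f (m + 1) = q) ∨ (f m = q ∧ f (m + 1) = p))

/-- LT1. `1` represents `[Y(1)]`. (`isSchub_of_word` with `l₀ = []`; or directly.) -/
theorem isSchub_one : IsSchub b (1 : WG P) (1 : Pol b) := by
  have h := isSchub_of_word b [] (1 : Pol b) (isHomogeneous_one _ _) (by simp [dd])
    (fun l hl hne => by
      have h1 : l = [] := List.length_eq_zero_iff.mp hl
      rw [h1] at hne
      exact absurd rfl hne)
  exact h

/-- LT2a. `∂_i ω_j = 1` if `i = j`, `0` otherwise. (`dd1_unique`, `sact`.) -/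
theorem dd1_X (i j : b.support) [Decidable (j = i)] :
    dd1 b i (X j : Pol b) = if j = i then 1 else 0 := by
  apply dd1_unique
  by_cases h : j = i
  · simp [sact, h]
  · simp [sact, h]

/-- LT2b. `ω_i` represents `[Y(s_i)]`. (`isSchub_of_word` with `l₀ = [i]`.) -/
theorem isSchub_X (i : b.support) : IsSchub b (rf P (i : ι)) (X i : Pol b) := by
  classical
  have hw : wp b [i] = rf P (i : ι) := by simp only [wp, one_mul]
  rw [← hw]
  refine isSchub_of_word b [i] (X i) (isHomogeneous_X ℚ i) ?_ ?_
  · simp only [dd]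
    rw [dd1_X, if_pos rfl, map_one]
  · intro l hl hne
    obtain ⟨k, rfl⟩ := List.length_eq_one_iff.mp hl
    have hk : ¬ i = k := fun h => hne (by rw [h])
    simp only [dd]
    rw [dd1_X, if_neg hk, map_zero]

/-- LT3. `ω_i ω_j` represents `[Y(s_i s_j)]` if `s_i`, `s_j` are orthogonal.
(`isSchub_of_word` with `l₀ = [j, i]`: `∂_i(ω_i ω_j) = ω_j`, `∂_j(ω_i ω_j) = ω_i`, the other
`∂_k` kill it; the only words with nonzero constant term are `[j, i]`, `[i, j]`, with the same
product by `rf_comm`.) -/
theorem isSchub_X_mul_X (i j : b.support) (hij : i ≠ j) (h : P.pairing i j = 0) :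
    IsSchub b (rf P (i : ι) * rf P (j : ι)) (X i * X j : Pol b) := by
  classical
  have hw : wp b [j, i] = rf P (i : ι) * rf P (j : ι) := by simp only [wp, one_mul]
  have hsX : ∀ k l : b.support, k ≠ l → sact b l (X k : Pol b) = X k := fun k l hkl => by
    simp [sact, hkl]
  have h1 : dd1 b i (X i * X j : Pol b) = X j := by
    rw [dd1_mul, dd1_X, dd1_X, if_pos rfl, if_neg (Ne.symm hij)]
    ring
  have h2 : dd1 b j (X i * X j : Pol b) = X i := by
    rw [dd1_mul, dd1_X, dd1_X, if_pos rfl, if_neg hij, hsX i j hij]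
    ring
  have h3 : ∀ k, k ≠ i → k ≠ j → dd1 b k (X i * X j : Pol b) = 0 := fun k hki hkj => by
    rw [dd1_mul, dd1_X, dd1_X, if_neg (Ne.symm hki), if_neg (Ne.symm hkj)]
    ring
  rw [← hw]
  refine isSchub_of_word b [j, i] (X i * X j)
    ((isHomogeneous_X ℚ i).mul (isHomogeneous_X ℚ j)) ?_ ?_
  · simp only [dd]
    rw [h2, dd1_X, if_pos rfl, map_one]
  · intro l hl hne
    obtain ⟨k, m, rfl⟩ := List.length_eq_two.mp hl
    simp only [dd]
    by_cases hki : k = i
    · rw [hki, h1, dd1_X]
      by_cases hm : j = m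
      · refine absurd ?_ hne
        rw [hw, hki, ← hm]
        simp only [wp, one_mul]
        exact (rf_comm _ _ h).symm
      · rw [if_neg hm, map_zero]
    · by_cases hkj : k = j
      · rw [hkj, h2, dd1_X]
        by_cases hm : i = m
        · exact absurd (by rw [hkj, ← hm]) hne
        · rw [if_neg hm, map_zero]
      · rw [h3 k hki hkj, dd1_zero, map_zero]

/-- LT4. `ω_i ∈ PP`. (`NN_Lop`, `cf_nonneg`; `X i = lin (Pi.single i 1)`, `act_X`, `Xop`.) -/
theorem PP_X (i : b.support) : PP b (X i : Pol b) := by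
  classical
  intro x
  have hX : (X i : Pol b) = lin b (Pi.single i 1) := by
    unfold lin
    rw [Finset.sum_eq_single i]
    · rw [Pi.single_eq_same, C_1, one_mul]
    · intro k _ hk
      rw [Pi.single_eq_of_ne hk, C_0, zero_mul]
    · intro h
      exact absurd (Finset.mem_univ i) h
  rw [hX, act_lin]
  refine NN_Lop b _ x fun β hβ _ => ?_
  unfold ev
  refine Finset.sum_nonneg fun j _ => mul_nonneg ?_ (cf_nonneg b β hβ j)
  by_cases hj : j = i
  · subst hj
    rw [Pi.single_eq_same]
    exact zero_le_one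
  · rw [Pi.single_eq_of_ne hj]

/-- LT5. **Length at most two.**
Proof: let `l` be a reduced word of `v` (`exists_word`).  Length 0: `v = 1`, LT1.  Length 1:
`v = s_i`, LT2, LT4.  Length 2: `l = [k, j]`, `v = s_j s_k`, `j ≠ k` (otherwise `v = 1` has
length 0).  If `pairing j k = 0`: LT3, `PP.mul`.  Otherwise `Tame` gives a leaf chain `f` of length
`m + 2` with `{f m, f (m+1)} = {j, k}`: if `k = f m` then `v = wp (hookL f m 1 0)`; if
`k = f (m+1)` then `v = wp (hookL f (m+1) 0 1)` (`csmPos_leafChain`; unfold `hookL`). -/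
theorem csmPos_of_inv_le_two [Fintype (WG P)] (hT : Tame b) (C : WG P → Coh b)
    (hC : IsCSM b C) (v : WG P) (hv : inv b v ≤ 2) : CSMPos b C v := by
  obtain ⟨l, hl, hlen⟩ := exists_word b v
  match l, hl, hlen with
  | [], hl, _ =>
    have h1 : v = 1 := hl.symm
    subst h1
    exact csmPos_of_PP b C hC _ _ (isSchub_one b) PP.one
  | [i], hl, _ =>
    have h1 : v = rf P (i : ι) := by
      rw [← hl]
      simp only [wp, one_mul]
    subst h1
    exact csmPos_of_PP b C hC _ _ (isSchub_X b i) (PP_X b i)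
  | [k, j], hl, hlen =>
    have h1 : v = rf P (j : ι) * rf P (k : ι) := by
      rw [← hl]
      simp only [wp, one_mul]
    have hjk : j ≠ k := by
      rintro rfl
      rw [rf_mul_self] at h1
      rw [h1, inv_one] at hlen
      simp at hlen
    by_cases hp : P.pairing (j : ι) (k : ι) = 0
    · rw [h1]
      exact csmPos_of_PP b C hC _ _ (isSchub_X_mul_X b j k hjk hp) (PP.mul (PP_X b j) (PP_X b k))
    · obtain ⟨f, m, hf, ⟨hj, hk⟩ | ⟨hk, hj⟩⟩ := hT j k hjk hp
      · have h2 := csmPos_leafChain b C hC f (m + 1) 0 1 hf (by omega)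
        have h3 : wp b (hookL b f (m + 1) 0 1) = rf P (j : ι) * rf P (k : ι) := by
          rw [← hj, ← hk]
          simp [hookL, wp]
        rw [h1, ← h3]
        exact h2
      · have h2 := csmPos_leafChain b C hC f m 1 0 hf (by omega)
        have h3 : wp b (hookL b f m 1 0) = rf P (j : ι) * rf P (k : ι) := by
          rw [← hj, ← hk]
          simp [hookL, wp, List.range_succ]
        rw [h1, ← h3]
        exact h2
  | _ :: _ :: _ :: _, _, hlen =>
    simp only [List.length_cons] at hlen
    omega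

/-- All root systems are tame, so length two is settled in all types. -/
theorem csmPos_le_two [Fintype (WG P)] (C : WG P → Coh b) (hC : IsCSM b C) (v : WG P)
    (hv : inv b v ≤ 2) : CSMPos b C v :=
  csmPos_of_inv_le_two b (fun p q hpq h => tame_all b p q hpq h) C hC v hv

end H28T
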