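import Pool.Agent.Helper28.CS3.Types

/-!
# Special Schubert classes in type D (pieces TD)

Nodes `0, ..., n-1`; `0 - 1 - ... - (n-3)` is a path and `n-3` is joined to `n-2` and `n-1`.
With `y_t = x_{t+1}` (orthonormal coordinates) the walk `f = 0, 1, ..., n-2` has the weights
`μ_t = y_t` for `t ≤ n - 1`; `s_i` (`i ≤ n-2`) exchanges `y_i` and `y_{i+1}`, and `s_{n-1}` maps
`y_{n-2} ↦ -y_{n-1}`, `y_{n-1} ↦ -y_{n-2}`.
-/

namespace H28T

open MvPolynomial Equiv

set_option linter.unusedSectionVars false

variable {ι M N : Type*} [Fintype ι] [AddCommGroup M] [Module ℚ M]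
  [AddCommGroup N] [Module ℚ N] {P : RootPairing ι ℚ M N}
variable (b : P.Base) [P.IsRootSystem] [P.IsCrystallographic] [P.IsReduced]
variable {n : ℕ} (hn : 3 ≤ n) (e : Fin n ≃ b.support)

/-- the entries of the Cartan matrix for natural number indices -/
def dEnt (n i j : ℕ) : ℤ :=
  if i = j then 2
  else if (i + 1 = j ∧ j + 3 ≤ n) ∨ (j + 1 = i ∧ i + 3 ≤ n) then -1
  else if (i + 3 = n ∧ (j + 2 = n ∨ j + 1 = n)) ∨ (j + 3 = n ∧ (i + 2 = n ∨ i + 1 = n)) then -1
  else 0

variable {b} {e} (he : IsD b e)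
include he

/-- TD1a. -/
theorem pairing_nd (i j : ℕ) (hi : i < n) (hj : j < n) :
    P.pairing (nd b hn e i) (nd b hn e j) = (dEnt n i j : ℚ) := by
  have h1 : min i (n - 1) = i := by omega
  have h2 : min j (n - 1) = j := by omega
  have h := he ⟨min i (n - 1), by omega⟩ ⟨min j (n - 1), by omega⟩
  unfold nd
  rw [h]
  simp only [CartanMatrix.D, Matrix.of_apply, Fin.mk.injEq, h1, h2, dEnt]
  congr 1
  split_ifs <;> first | rfl | omega

omit he in
/-- TD1b. -/
theorem nd_inj (i j : ℕ) (hi : i < n) (hj : j < n) (h : nd b hn e i = nd b hn e j) : i = j := by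
  have h3 := congrArg Fin.val (e.injective h)
  simp only at h3
  omega

omit he in
/-- TD1c. every node is `nd i` with `i < n` -/
theorem exists_nd (j : b.support) : ∃ i < n, j = nd b hn e i := by
  refine ⟨(e.symm j).val, (e.symm j).isLt, ?_⟩
  have h1 : (⟨min (e.symm j).val (n - 1), by omega⟩ : Fin n) = e.symm j := by
    ext
    have := (e.symm j).isLt
    simp only
    omega
  unfold nd
  rw [h1, Equiv.apply_symm_apply]

/-- TD2. **The weights of the walk.**  For `t ≤ n - 3`: `ω_t - ω_{t-1}`.  For `t = n - 2`: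
`ω_{n-2} + ω_{n-1} - ω_{n-3}`.  For `t = n - 1`: `ω_{n-1} - ω_{n-2}`.
(Induction on `t`; `wt (t+1) j = wt t j - wt t (nd t) * dEnt t j`.) -/
theorem wt_nd (t k : ℕ) (ht : t < n) (hk : k < n) :
    wt b (nd b hn e) t (nd b hn e k) =
      if t + 3 ≤ n then (if k = t then 1 else 0) - (if k + 1 = t then 1 else 0)
      else if t + 2 = n then (if t ≤ k then 1 else 0) - (if k + 1 = t then 1 else 0)
      else (if k = t then 1 else 0) - (if k + 1 = t then 1 else 0) := by
  induction t generalizing k with
  | zero =>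
    have h0 : wt b (nd b hn e) 0 (nd b hn e k) = if k = 0 then 1 else 0 := by
      by_cases hk0 : k = 0
      · subst hk0
        simp [wt]
      · have h1 : nd b hn e k ≠ nd b hn e 0 := fun h => hk0 (nd_inj hn k 0 hk (by omega) h)
        simp [wt, h1, hk0]
    rw [h0, if_pos (show 0 + 3 ≤ n by omega)]
    simp
  | succ t ih =>
    have h1 := ih t (by omega) (by omega)
    have h2 := ih k (by omega) hk
    have h3 : wt b (nd b hn e) (t + 1) (nd b hn e k) =
        wt b (nd b hn e) t (nd b hn e k) - wt b (nd b hn e) t (nd b hn e t) *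
          P.pairing (nd b hn e t) (nd b hn e k) := rfl
    rw [h3, pairing_nd hn he t k (by omega) hk, h1, h2]
    simp only [dEnt]
    clear h1 h2 h3 ih
    by_cases c1 : t + 3 ≤ n
    · by_cases c2 : t + 1 + 3 ≤ n
      · simp only [if_pos c1, if_pos c2]
        split_ifs <;> first | omega | norm_num
      · have c3 : t + 1 + 2 = n := by omega
        simp only [if_pos c1, if_neg c2, if_pos c3]
        split_ifs <;> first | omega | norm_num
    · have c2 : ¬ t + 1 + 3 ≤ n := by omega
      have c3 : ¬ t + 1 + 2 = n := by omega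
      have c4 : t + 2 = n := by omega
      simp only [if_neg c1, if_neg c2, if_neg c3, if_pos c4]
      split_ifs <;> first | omega | norm_num

/-- TD3a. `s_i μ_t = μ_t` for `i ≤ n - 2`, `t ≠ i, i + 1`. (TD2, `sact_mu_of_zero`.) -/
theorem sact_nd_of_ne (i t : ℕ) (hi : i + 2 ≤ n) (ht : t < n) (h1 : t ≠ i) (h2 : t ≠ i + 1) :
    sact b (nd b hn e i) (mu b (nd b hn e) t) = mu b (nd b hn e) t := by
  apply sact_mu_of_zero
  rw [wt_nd hn he t i ht (by omega)]
  have a1 : ¬ i = t := fun h => h1 h.symm
  have a2 : ¬ i + 1 = t := fun h => h2 h.symm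
  rw [if_neg a1, if_neg a2]
  split_ifs <;> first | omega | simp

/-- TD3b. `s_{n-1}` fixes `μ_t` for `t ≤ n - 3`. -/
theorem sact_last_of_lt (t : ℕ) (ht : t + 3 ≤ n) :
    sact b (nd b hn e (n - 1)) (mu b (nd b hn e) t) = mu b (nd b hn e) t := by
  apply sact_mu_of_zero
  rw [wt_nd hn he t (n - 1) (by omega) (by omega), if_pos ht, if_neg (by omega : ¬ n - 1 = t),
    if_neg (by omega : ¬ n - 1 + 1 = t)]
  simp

/-- TD3c. `s_{n-1} μ_{n-2} = - μ_{n-1}`.  (`sact_lin`; compare coordinates with TD2; every node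
is some `nd k`.) -/
theorem sact_last_a :
    sact b (nd b hn e (n - 1)) (mu b (nd b hn e) (n - 2)) = - mu b (nd b hn e) (n - 1) := by
  have h : ∀ a : b.support → ℚ, - lin b a = lin b (fun k => - a k) := fun a => by
    simp only [lin, C_neg, neg_mul, Finset.sum_neg_distrib]
  rw [mu, mu, sact_lin, h]
  congr 1
  funext j
  obtain ⟨k, hk, rfl⟩ := exists_nd (e := e) hn j
  simp only [sw]
  rw [wt_nd hn he (n - 2) k (by omega) hk, wt_nd hn he (n - 2) (n - 1) (by omega) (by omega),
    wt_nd hn he (n - 1) k (by omega) hk, pairing_nd hn he (n - 1) k (by omega) hk]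
  have c1 : ¬ (n - 2 + 3 ≤ n) := by omega
  have c2 : n - 2 + 2 = n := by omega
  have c3 : ¬ (n - 1 + 3 ≤ n) := by omega
  have c4 : ¬ (n - 1 + 2 = n) := by omega
  have c5 : n - 2 ≤ n - 1 := by omega
  have c6 : ¬ (n - 1 + 1 = n - 2) := by omega
  rw [if_neg c1, if_pos c2, if_neg c1, if_pos c2, if_neg c3, if_neg c4, if_pos c5, if_neg c6]
  unfold dEnt
  rcases (by omega : k = n - 1 ∨ k = n - 2 ∨ k = n - 3 ∨ k + 3 < n) with h1 | h1 | h1 | h1
  · subst h1
    rw [if_pos (by omega), if_neg (by omega), if_pos rfl, if_pos rfl, if_neg (by omega)]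
    norm_num
  · subst h1
    rw [if_pos (by omega), if_neg (by omega), if_neg (by omega), if_neg (by omega),
      if_neg (by omega), if_neg (by omega), if_pos (by omega)]
    norm_num
  · subst h1
    rw [if_neg (by omega), if_pos (by omega), if_neg (by omega), if_neg (by omega),
      if_pos (by omega), if_neg (by omega), if_neg (by omega)]
    norm_num
  · rw [if_neg (by omega), if_neg (by omega), if_neg (by omega), if_neg (by omega),
      if_neg (by omega), if_neg (by omega), if_neg (by omega)]
    norm_num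

/-- TD3d. `s_{n-1} μ_{n-1} = - μ_{n-2}`. (TD3c and `sact_sact`.) -/
theorem sact_last_b :
    sact b (nd b hn e (n - 1)) (mu b (nd b hn e) (n - 1)) = - mu b (nd b hn e) (n - 2) := by
  have h := congrArg (sact b (nd b hn e (n - 1))) (sact_last_a hn he)
  rw [sact_sact, map_neg] at h
  rw [h, neg_neg]

/-- TD3e. `μ_{n-2} + μ_{n-1} = α_{n-1}` (TD2, `rt`, TD1a.) -/
theorem mu_add_last :
    mu b (nd b hn e) (n - 2) + mu b (nd b hn e) (n - 1) = rt b (nd b hn e (n - 1)) := by
  have h : ∀ a c : b.support → ℚ, lin b a + lin b c = lin b (fun k => a k + c k) := fun a c => by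
    simp only [lin, C_add, add_mul, Finset.sum_add_distrib]
  rw [mu, mu, h, rt]
  congr 1
  funext j
  obtain ⟨k, hk, rfl⟩ := exists_nd (e := e) hn j
  simp only [rc]
  rw [wt_nd hn he (n - 2) k (by omega) hk, wt_nd hn he (n - 1) k (by omega) hk,
    pairing_nd hn he (n - 1) k (by omega) hk]
  have c1 : ¬ (n - 2 + 3 ≤ n) := by omega
  have c2 : n - 2 + 2 = n := by omega
  have c3 : ¬ (n - 1 + 3 ≤ n) := by omega
  have c4 : ¬ (n - 1 + 2 = n) := by omega
  rw [if_neg c1, if_pos c2, if_neg c3, if_neg c4]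
  unfold dEnt
  rcases (by omega : k = n - 1 ∨ k = n - 2 ∨ k = n - 3 ∨ k + 3 < n) with h1 | h1 | h1 | h1
  · subst h1
    rw [if_pos (by omega), if_neg (by omega), if_pos rfl, if_neg (by omega), if_pos rfl]
    norm_num
  · subst h1
    rw [if_pos (by omega), if_neg (by omega), if_neg (by omega), if_pos (by omega),
      if_neg (by omega), if_neg (by omega), if_neg (by omega)]
    norm_num
  · subst h1
    rw [if_neg (by omega), if_pos (by omega), if_neg (by omega), if_neg (by omega),
      if_neg (by omega), if_neg (by omega), if_pos (by omega)]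
    norm_num
  · rw [if_neg (by omega), if_neg (by omega), if_neg (by omega), if_neg (by omega),
      if_neg (by omega), if_neg (by omega), if_neg (by omega)]
    norm_num

/-- TD4. **Permutations.**  For `i ≤ n - 2`, `t ≤ n`, `i + 1 ≠ t`, the reflection `s_i` permutes
`μ_0, ..., μ_{t-1}`. (As in `map_LL_perm`: induction on `t`, two steps at a time; TD3a,
`sact_mu_self`, `sact_mu_succ`.) -/
theorem map_LL_nd (i t : ℕ) (hi : i + 2 ≤ n) (ht : t ≤ n) (h : i + 1 ≠ t) :
    ((LL b (nd b hn e) t).map (sact b (nd b hn e i))).Perm (LL b (nd b hn e) t) := by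
  induction t using Nat.strong_induction_on with
  | _ t ih =>
    cases t with
    | zero => simp [LL]
    | succ t =>
      by_cases h1 : i + 1 = t
      · subst h1
        have h2 := ih i (by omega) (by omega) (by omega)
        simp only [LL, List.map_cons, sact_mu_self, sact_mu_succ]
        exact (List.Perm.swap _ _ _).trans ((h2.cons _).cons _)
      · have h0 := sact_nd_of_ne hn he i t hi (by omega) (by omega) (fun h2 => h1 h2.symm)
        have h2 := ih t (by omega) (by omega) h1
        rw [LL, List.map_cons, h0]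
        exact h2.cons _

/-- TD4b. `s_{n-1}` fixes the list for `t ≤ n - 2`. -/
theorem map_LL_last (t : ℕ) (ht : t + 2 ≤ n) :
    (LL b (nd b hn e) t).map (sact b (nd b hn e (n - 1))) = LL b (nd b hn e) t := by
  induction t with
  | zero => simp [LL]
  | succ t ih =>
    rw [LL, List.map_cons, sact_last_of_lt hn he t (by omega), ih (by omega)]

/-- TD5. **Positivity**, `t ≤ n`: as `PP_hl`, `PP_el` in `Walk.lean`, with `PP_triangular` and
TD4 (`nd s` for `s + 1 < t` has `s + 2 ≤ n`). -/
theorem PP_hl_nd (k t : ℕ) (ht : t ≤ n) : PP b (hl k (LL b (nd b hn e) t)) := by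
  induction k generalizing t with
  | zero =>
    rw [hl_zero]
    exact PP.one
  | succ k ih =>
    have hsum : ∀ j : ℕ, hl (k + 1) (LL b (nd b hn e) j) =
        ∑ t ∈ Finset.range j, mu b (nd b hn e) t * hl k (LL b (nd b hn e) (t + 1)) := by
      intro j
      induction j with
      | zero => simp [LL, hl_succ_nil]
      | succ j ihj =>
        rw [Finset.sum_range_succ, ← ihj]
        exact hl_succ_cons k (mu b (nd b hn e) j) (LL b (nd b hn e) j)
    refine PP_triangular b (nd b hn e) t _ (fun s => hl k (LL b (nd b hn e) (s + 1))) (hsum t)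
      (fun s hs => ih (s + 1) (by omega)) fun s hs => ?_
    have h := map_hl (sact b (nd b hn e s) : Pol b →+* Pol b) (k + 1) (LL b (nd b hn e) t)
    exact h.trans (hl_perm (k + 1) (map_LL_nd hn he s t (by omega) ht (by omega)))

theorem PP_el_nd (k t : ℕ) (ht : t ≤ n) : PP b (el k (LL b (nd b hn e) t)) := by
  induction k generalizing t with
  | zero =>
    rw [el_zero]
    exact PP.one
  | succ k ih =>
    have hsum : ∀ j : ℕ, el (k + 1) (LL b (nd b hn e) j) =
        ∑ t ∈ Finset.range j, mu b (nd b hn e) t * el k (LL b (nd b hn e) t) := by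
      intro j
      induction j with
      | zero => simp [LL, el_succ_nil]
      | succ j ihj =>
        rw [Finset.sum_range_succ, ← ihj]
        exact el_succ_cons k (mu b (nd b hn e) j) (LL b (nd b hn e) j)
    refine PP_triangular b (nd b hn e) t _ (fun s => el k (LL b (nd b hn e) s)) (hsum t)
      (fun s hs => ih s (by omega)) fun s hs => ?_
    have h := map_el (sact b (nd b hn e s) : Pol b →+* Pol b) (k + 1) (LL b (nd b hn e) t)
    exact h.trans (el_perm (k + 1) (map_LL_nd hn he s t (by omega) ht (by omega)))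

omit he in
/-- TD6a. The walk `0, ..., n-3` is straight. (TD2.) -/
theorem straight_nd (he : IsD b e) : Straight b (nd b hn e) (n - 2) := by
  intro t ht
  refine ⟨?_, fun j hj hs => ?_⟩
  · rw [wt_nd hn he t t (by omega) (by omega), if_pos (by omega), if_pos rfl,
      if_neg (by omega)]
    norm_num
  · obtain ⟨k, hk, rfl⟩ := exists_nd hn (e := e) j
    rw [wt_nd hn he t k (by omega) hk, if_pos (by omega), if_neg, if_neg, sub_zero]
    · intro h
      exact hs k h rfl
    · intro h
      exact hj (by rw [h])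

omit he in
/-- The list of all `μ_t` together with `-μ_{n-1}, ..., -μ_r`. -/
noncomputable def DL (b : P.Base) (hn : 3 ≤ n) (e : Fin n ≃ b.support) (r : ℕ) : List (Pol b) :=
  (List.range (n - r)).map (fun s => - mu b (nd b hn e) (r + s)) ++ LL b (nd b hn e) n

private theorem TD7a_range (r i m : ℕ) (hi : i + 2 ≤ n) (hm : r + m ≤ n) (h : i + 1 ≠ r)
    (h' : i + 1 ≠ r + m) :
    (((List.range m).map (fun s => - mu b (nd b hn e) (r + s))).map
      (sact b (nd b hn e i))).Perm ((List.range m).map (fun s => - mu b (nd b hn e) (r + s))) := by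
  induction m using Nat.strong_induction_on with
  | _ m ih =>
    cases m with
    | zero => simp
    | succ m =>
      by_cases h1 : i + 1 = r + m
      · obtain ⟨m', rfl⟩ : ∃ m', m = m' + 1 := ⟨m - 1, by omega⟩
        have hi' : i = r + m' := by omega
        subst hi'
        have h2 := ih m' (by omega) (by omega) (by omega)
        have e1 : sact b (nd b hn e (r + m')) (mu b (nd b hn e) (r + (m' + 1))) =
            mu b (nd b hn e) (r + m') := sact_mu_succ b (nd b hn e) (r + m')
        have e2 : sact b (nd b hn e (r + m')) (mu b (nd b hn e) (r + m')) =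
            mu b (nd b hn e) (r + (m' + 1)) := sact_mu_self b (nd b hn e) (r + m')
        rw [List.range_succ, List.range_succ]
        simp only [List.map_append, List.map_cons, List.map_nil, map_neg, e1, e2,
          List.append_assoc]
        exact h2.append (List.Perm.swap _ _ _)
      · have h0 := sact_nd_of_ne hn he i (r + m) hi (by omega) (by omega) (by omega)
        have h2 := ih m (by omega) (by omega) h1
        rw [List.range_succ]
        simp only [List.map_append, List.map_cons, List.map_nil, map_neg, h0]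
        exact h2.append (List.Perm.refl _)

/-- TD7a. For `r ≤ n - 2`, `i < n`, `i + 1 ≠ r`, `s_i` permutes `DL r`.
(`i ≤ n - 2`: TD4 for the second part; in the first part `s_i` fixes everything if `i + 1 < r`,
and exchanges `-μ_i`, `-μ_{i+1}` if `r ≤ i`.  `i = n - 1`: the four entries
`±μ_{n-2}, ±μ_{n-1}` are permuted, the others fixed.) -/
theorem map_DL (r i : ℕ) (hr : r + 2 ≤ n) (hi : i < n) (h : i + 1 ≠ r) :
    ((DL b hn e r).map (sact b (nd b hn e i))).Perm (DL b hn e r) := by
  by_cases hi2 : i + 2 ≤ n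
  · unfold DL
    rw [List.map_append]
    exact (TD7a_range hn he r i (n - r) hi2 (by omega) h (by omega)).append
      (map_LL_nd hn he i n hi2 le_rfl (by omega))
  · have hin : i = n - 1 := by omega
    subst hin
    obtain ⟨m, hm⟩ : ∃ m, n - r = m + 2 := ⟨n - r - 2, by omega⟩
    have hG : ((List.range m).map (fun s => - mu b (nd b hn e) (r + s))).map
        (sact b (nd b hn e (n - 1))) =
        (List.range m).map (fun s => - mu b (nd b hn e) (r + s)) := by
      rw [List.map_map]
      refine List.map_congr_left fun s hs => ?_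
      rw [List.mem_range] at hs
      simp only [Function.comp_apply, map_neg]
      rw [sact_last_of_lt hn he (r + s) (by omega)]
    have hL := map_LL_last hn he (n - 2) (by omega)
    have hLL : LL b (nd b hn e) n =
        mu b (nd b hn e) (n - 1) :: mu b (nd b hn e) (n - 2) :: LL b (nd b hn e) (n - 2) := by
      have hk : ∀ (f : ℕ → b.support) (t : ℕ), 2 ≤ t →
          LL b f t = mu b f (t - 1) :: mu b f (t - 2) :: LL b f (t - 2) := by
        intro f t ht
        obtain ⟨t', rfl⟩ : ∃ t', t = t' + 2 := ⟨t - 2, by omega⟩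
        rfl
      exact hk _ n (by omega)
    have hr1 : r + m = n - 2 := by omega
    have hr2 : r + (m + 1) = n - 1 := by omega
    have ha := sact_last_a hn he
    have hb := sact_last_b hn he
    unfold DL
    rw [hm, hLL, List.range_succ, List.range_succ]
    simp only [List.map_append, List.map_cons, List.map_nil, map_neg, hG, hL, hr1, hr2, ha, hb,
      neg_neg, List.append_assoc]
    refine List.Perm.append_left _ ?_
    have h3 : ∀ (a c d f : Pol b) (L : List (Pol b)),
        ([a] ++ ([c] ++ d :: f :: L)).Perm ([d] ++ ([f] ++ a :: c :: L)) := by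
      intro a c d f L
      have h4 : ([a, c] ++ [d, f]).Perm ([d, f] ++ [a, c]) := List.perm_append_comm
      exact h4.append_right L
    exact h3 _ _ _ _ _

omit [P.IsRootSystem] [P.IsReduced] he in
private theorem TD7b_DL_cons (q : ℕ) (hq : q < n) :
    DL b hn e q = - mu b (nd b hn e) q ::
      ((List.range (n - (q + 1))).map (fun s => - mu b (nd b hn e) (q + 1 + s)) ++
        LL b (nd b hn e) n) := by
  unfold DL
  have h : n - q = (n - (q + 1)) + 1 := by omega
  rw [h, List.range_succ_eq_map]
  simp only [List.map_cons, List.map_map, List.cons_append, add_zero]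
  congr 3
  funext s
  simp only [Function.comp_apply]
  congr 2
  omega

/-- TD7b. `∂_{r-1} h_{k+1}(DL r) = h_k(DL (r-1))` for `1 ≤ r ≤ n - 2`, written with `r = q + 1`.
(`DL (q+1)` is, up to order, `-μ_{q+1} :: R` with `R` permuted by `s_q`, and `DL q` is
`-μ_q :: -μ_{q+1} :: R`; `hl_exch` with `x = -μ_{q+1}`, `y = s_q x = -μ_q`,
`x - y = μ_q - μ_{q+1} = α_q` (`mu_sub_mu`, the factor `wt q (nd q)` is `1` by TD2).) -/
theorem dd1_DL (q k : ℕ) (hq : q + 3 ≤ n) :
    dd1 b (nd b hn e q) (hl (k + 1) (DL b hn e (q + 1))) = hl k (DL b hn e q) := by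
  have h1 := TD7b_DL_cons (b := b) (e := e) hn q (by omega)
  have h2 := TD7b_DL_cons (b := b) (e := e) hn (q + 1) (by omega)
  set R := (List.range (n - (q + 1 + 1))).map (fun s => - mu b (nd b hn e) (q + 1 + 1 + s)) ++
    LL b (nd b hn e) n with hR
  have h3 : DL b hn e q = - mu b (nd b hn e) q :: - mu b (nd b hn e) (q + 1) :: R := by
    rw [h1, ← h2]
    rfl
  have hfix : ((List.range (n - (q + 1 + 1))).map
      (fun s => - mu b (nd b hn e) (q + 1 + 1 + s))).map (sact b (nd b hn e q)) =
      (List.range (n - (q + 1 + 1))).map (fun s => - mu b (nd b hn e) (q + 1 + 1 + s)) := by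
    rw [List.map_map]
    refine List.map_congr_left fun s hs => ?_
    rw [List.mem_range] at hs
    simp only [Function.comp_apply, map_neg]
    rw [sact_nd_of_ne hn he q (q + 1 + 1 + s) (by omega) (by omega) (by omega) (by omega)]
  have hR' : (R.map (sact b (nd b hn e q))).Perm R := by
    rw [hR, List.map_append, hfix]
    exact List.Perm.append_left _ (map_LL_nd hn he q n (by omega) le_rfl (by omega))
  have hs : sact b (nd b hn e q) (hl (k + 1) (DL b hn e (q + 1))) =
      hl (k + 1) (- mu b (nd b hn e) q :: R) := by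
    have h := map_hl (sact b (nd b hn e q) : Pol b →+* Pol b) (k + 1) (DL b hn e (q + 1))
    refine h.trans ?_
    rw [h2]
    refine hl_perm (k + 1) ?_
    have h4 : sact b (nd b hn e q) (- mu b (nd b hn e) (q + 1)) = - mu b (nd b hn e) q := by
      rw [map_neg, sact_mu_succ]
    refine List.Perm.trans (List.Perm.of_eq ?_) (hR'.cons _)
    rw [List.map_cons]
    exact congrArg₂ _ h4 rfl
  apply dd1_unique
  have hw : wt b (nd b hn e) q (nd b hn e q) = 1 := by
    rw [wt_nd hn he q q (by omega) (by omega), if_pos hq, if_pos rfl, if_neg (by omega)]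
    norm_num
  have h5 := mu_sub_mu b (nd b hn e) q
  rw [hw, C_1, one_mul] at h5
  rw [hs, h2, hl_exch, h3, hl_swap, ← h5]
  ring

/-- TD8a. `∂_{n-2} h_{k+1}(μ_0..μ_{n-2}) = h_k(μ_0..μ_{n-1})`. -/
theorem dd1_LL_a (k : ℕ) :
    dd1 b (nd b hn e (n - 2)) (hl (k + 1) (LL b (nd b hn e) (n - 1))) =
      hl k (LL b (nd b hn e) n) := by
  obtain ⟨m, rfl⟩ : ∃ m, n = m + 2 := ⟨n - 2, by omega⟩
  have e1 : m + 2 - 2 = m := rfl
  have e2 : m + 2 - 1 = m + 1 := rfl
  rw [e1, e2]
  apply dd1_unique
  have hw : wt b (nd b hn e) m (nd b hn e m) = 1 := by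
    rw [wt_nd hn he m m (by omega) (by omega), if_neg (by omega), if_pos (by omega),
      if_pos le_rfl, if_neg (by omega)]
    norm_num
  have h1 : sact b (nd b hn e m) (hl (k + 1) (LL b (nd b hn e) (m + 1))) =
      hl (k + 1) (mu b (nd b hn e) (m + 1) :: LL b (nd b hn e) m) := by
    have h := map_hl (sact b (nd b hn e m) : Pol b →+* Pol b) (k + 1) (LL b (nd b hn e) (m + 1))
    refine h.trans (hl_perm (k + 1) ?_)
    show (sact b (nd b hn e m) (mu b (nd b hn e) m) ::
      (LL b (nd b hn e) m).map (sact b (nd b hn e m))).Perm _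
    rw [sact_mu_self]
    exact (map_LL_nd hn he m m (by omega) (by omega) (by omega)).cons _
  have h2 := hl_exch k (mu b (nd b hn e) m) (mu b (nd b hn e) (m + 1)) (LL b (nd b hn e) m)
  rw [mu_sub_mu, hw, C_1, one_mul, hl_swap] at h2
  have e3 : LL b (nd b hn e) (m + 1) = mu b (nd b hn e) m :: LL b (nd b hn e) m := rfl
  have e4 : LL b (nd b hn e) (m + 2) =
      mu b (nd b hn e) (m + 1) :: mu b (nd b hn e) m :: LL b (nd b hn e) m := rfl
  rw [h1, e3, e4, h2]

/-- TD8b. `∂_{n-1} h_{k+1}(μ_0..μ_{n-2}) = h_k(μ_0..μ_{n-2}, -μ_{n-1})`. -/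
theorem dd1_LL_b (k : ℕ) :
    dd1 b (nd b hn e (n - 1)) (hl (k + 1) (LL b (nd b hn e) (n - 1))) =
      hl k (- mu b (nd b hn e) (n - 1) :: LL b (nd b hn e) (n - 1)) := by
  have h3 := sact_last_a hn he
  have h4 := mu_add_last hn he
  have h5 := map_LL_last hn he (n - 2) (by omega)
  obtain ⟨m, rfl⟩ : ∃ m, n = m + 2 := ⟨n - 2, by omega⟩
  have e1 : m + 2 - 2 = m := rfl
  have e2 : m + 2 - 1 = m + 1 := rfl
  rw [e1, e2] at h3 h4 h5
  rw [e2]
  apply dd1_unique
  have h1 : sact b (nd b hn e (m + 1)) (hl (k + 1) (LL b (nd b hn e) (m + 1))) =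
      hl (k + 1) (- mu b (nd b hn e) (m + 1) :: LL b (nd b hn e) m) := by
    have h := map_hl (sact b (nd b hn e (m + 1)) : Pol b →+* Pol b) (k + 1)
      (LL b (nd b hn e) (m + 1))
    refine h.trans ?_
    show hl (k + 1) (sact b (nd b hn e (m + 1)) (mu b (nd b hn e) m) ::
      (LL b (nd b hn e) m).map (sact b (nd b hn e (m + 1)))) = _
    rw [h3, h5]
  have h2 := hl_exch k (mu b (nd b hn e) m) (- mu b (nd b hn e) (m + 1)) (LL b (nd b hn e) m)
  rw [sub_neg_eq_add, h4, hl_swap] at h2
  have e3 : LL b (nd b hn e) (m + 1) = mu b (nd b hn e) m :: LL b (nd b hn e) m := rfl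
  rw [h1, e3, h2]

omit [P.IsRootSystem] [P.IsCrystallographic] [P.IsReduced] he in
private theorem TD8_pm (k : ℕ) (y : Pol b) (B : List (Pol b)) :
    hl k (y :: B) + hl k (-y :: B) = 2 * hl k (y :: -y :: B) := by
  cases k with
  | zero =>
    simp only [hl_zero]
    norm_num
  | succ k =>
    have h1 := hl_succ_cons k y (-y :: B)
    have h2 := hl_succ_cons k (-y) (y :: B)
    rw [hl_swap (k + 1) (-y) y B, hl_swap k (-y) y B] at h2
    linear_combination -h1 - h2

omit [P.IsRootSystem] [P.IsCrystallographic] [P.IsReduced] he in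
private theorem TD8_DL (m : ℕ) (hn : 3 ≤ m + 2) (e : Fin (m + 2) ≃ b.support) :
    DL b hn e m = - mu b (nd b hn e) m :: - mu b (nd b hn e) (m + 1) ::
      mu b (nd b hn e) (m + 1) :: mu b (nd b hn e) m :: LL b (nd b hn e) m := by
  have h : m + 2 - m = 2 := by omega
  unfold DL
  rw [h]
  rfl

/-- TD8c. `∂_{n-1} h_{k+1}(μ_0..μ_{n-1}) = 2 h_k(DL (n-2))`.
With `A = μ_0..μ_{n-3}`, `x = μ_{n-2}`, `y = μ_{n-1}`:
`h(A,x,y) - h(A,-y,-x) = [h(A,x,y) - h(A,x,-x)] + [h(A,x,-x) - h(A,-y,-x)]
= (x+y) (h_k(A,x,y,-x) + h_k(A,x,-x,-y))` (`hl_exch`), and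
`h_k(y :: L) + h_k(-y :: L) = 2 h_k(y :: -y :: L)` (expand `h_k(y :: -y :: L)` in two ways).
`x + y = α_{n-1}` (TD3e). -/
theorem dd1_LL_c (k : ℕ) :
    dd1 b (nd b hn e (n - 1)) (hl (k + 1) (LL b (nd b hn e) n)) =
      C 2 * hl k (DL b hn e (n - 2)) := by
  have h3 := sact_last_a hn he
  have h3b := sact_last_b hn he
  have h4 := mu_add_last hn he
  have h5 := map_LL_last hn he (n - 2) (by omega)
  obtain ⟨m, rfl⟩ : ∃ m, n = m + 2 := ⟨n - 2, by omega⟩
  have e1 : m + 2 - 2 = m := rfl
  have e2 : m + 2 - 1 = m + 1 := rfl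
  rw [e1, e2] at h3 h3b h4
  rw [e1, e2] at h5
  rw [e1, e2, TD8_DL]
  set x := mu b (nd b hn e) m with hx
  set y := mu b (nd b hn e) (m + 1) with hy
  set A := LL b (nd b hn e) m with hA
  have e4 : LL b (nd b hn e) (m + 2) = y :: x :: A := rfl
  rw [e4]
  apply dd1_unique
  have h1 : sact b (nd b hn e (m + 1)) (hl (k + 1) (y :: x :: A)) =
      hl (k + 1) (-x :: -y :: A) := by
    have h := map_hl (sact b (nd b hn e (m + 1)) : Pol b →+* Pol b) (k + 1) (y :: x :: A)
    refine h.trans ?_
    show hl (k + 1) (sact b (nd b hn e (m + 1)) y :: sact b (nd b hn e (m + 1)) x ::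
      A.map (sact b (nd b hn e (m + 1)))) = _
    rw [h3, h3b, h5]
  have a1 := hl_exch k y (-x) (x :: A)
  have a2 := hl_exch k x (-y) (-x :: A)
  have p1 : hl (k + 1) (x :: -x :: A) = hl (k + 1) (-x :: x :: A) := hl_swap _ _ _ _
  have p2 : hl (k + 1) (-y :: -x :: A) = hl (k + 1) (-x :: -y :: A) := hl_swap _ _ _ _
  have p3 : hl k (x :: -y :: -x :: A) = hl k (-y :: -x :: x :: A) :=
    hl_perm k ((List.Perm.swap _ _ _).trans ((List.Perm.swap _ _ _).cons _))
  have p4 : hl k (-x :: -y :: y :: x :: A) = hl k (y :: -y :: -x :: x :: A) :=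
    hl_perm k (((List.Perm.swap _ _ _).trans ((List.Perm.swap _ _ _).cons _)).trans
      (List.Perm.swap _ _ _))
  have a3 := TD8_pm (b := b) k y (-x :: x :: A)
  rw [h1, p4, ← h4]
  have c2 : (C 2 : Pol b) = 2 := map_ofNat C 2
  rw [c2]
  rw [p1, p2, p3] at a2
  linear_combination -(x + y) * a3 + -a1 - a2

/-- TD8d. `∂_{n-2} h_{k+1}(μ_0..μ_{n-2}, -μ_{n-1}) = 2 h_k(DL (n-2))`. (Similar:
`h(A,x,-y) - h(A,y,-x) = (x-y) (h_k(A,x,-y,-x) + h_k(A,x,y,-x))`.) -/
theorem dd1_LL_d (k : ℕ) :
    dd1 b (nd b hn e (n - 2)) (hl (k + 1) (- mu b (nd b hn e) (n - 1) :: LL b (nd b hn e) (n - 1))) =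
      C 2 * hl k (DL b hn e (n - 2)) := by
  obtain ⟨m, rfl⟩ : ∃ m, n = m + 2 := ⟨n - 2, by omega⟩
  have e1 : m + 2 - 2 = m := rfl
  have e2 : m + 2 - 1 = m + 1 := rfl
  have hw : wt b (nd b hn e) m (nd b hn e m) = 1 := by
    rw [wt_nd hn he m m (by omega) (by omega), if_neg (by omega), if_pos (by omega),
      if_pos le_rfl, if_neg (by omega)]
    norm_num
  have h4 := mu_sub_mu b (nd b hn e) m
  rw [hw, C_1, one_mul] at h4
  have h5 := map_LL_nd hn he m m (by omega) (by omega) (by omega)
  have h6 := sact_mu_self b (nd b hn e) m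
  have h7 := sact_mu_succ b (nd b hn e) m
  rw [e1, e2, TD8_DL]
  set x := mu b (nd b hn e) m with hx
  set y := mu b (nd b hn e) (m + 1) with hy
  set A := LL b (nd b hn e) m with hA
  have e4 : LL b (nd b hn e) (m + 1) = x :: A := rfl
  rw [e4]
  apply dd1_unique
  have h1 : sact b (nd b hn e m) (hl (k + 1) (-y :: x :: A)) =
      hl (k + 1) (-x :: y :: A) := by
    have h := map_hl (sact b (nd b hn e m) : Pol b →+* Pol b) (k + 1) (-y :: x :: A)
    refine h.trans (hl_perm (k + 1) ?_)
    show (sact b (nd b hn e m) (-y) :: sact b (nd b hn e m) x ::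
      A.map (sact b (nd b hn e m))).Perm _
    rw [map_neg, h6, h7]
    exact (h5.cons _).cons _
  have a1 := hl_exch k (-y) (-x) (x :: A)
  have a2 := hl_exch k x y (-x :: A)
  have p1 : hl (k + 1) (x :: -x :: A) = hl (k + 1) (-x :: x :: A) := hl_swap _ _ _ _
  have p2 : hl (k + 1) (y :: -x :: A) = hl (k + 1) (-x :: y :: A) := hl_swap _ _ _ _
  have p3 : hl k (x :: y :: -x :: A) = hl k (y :: -x :: x :: A) :=
    hl_perm k ((List.Perm.swap _ _ _).trans ((List.Perm.swap _ _ _).cons _))
  have p4 : hl k (-x :: -y :: y :: x :: A) = hl k (y :: -y :: -x :: x :: A) :=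
    hl_perm k (((List.Perm.swap _ _ _).trans ((List.Perm.swap _ _ _).cons _)).trans
      (List.Perm.swap _ _ _))
  have a3 := TD8_pm (b := b) k y (-x :: x :: A)
  rw [h1, p4, ← h4]
  have c2 : (C 2 : Pol b) = 2 := map_ofNat C 2
  rw [c2]
  rw [p1, p2, p3] at a2
  linear_combination -(x - y) * a3 + -a1 - a2

/-- TD8e. the list of TD8b is permuted by `s_i`, `i ≠ n - 2` -/
theorem map_LL_e (i : ℕ) (hi : i < n) (h : i + 2 ≠ n) :
    ((- mu b (nd b hn e) (n - 1) :: LL b (nd b hn e) (n - 1)).map (sact b (nd b hn e i))).Perm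
      (- mu b (nd b hn e) (n - 1) :: LL b (nd b hn e) (n - 1)) := by
  have h3 := sact_last_a hn he
  have h3b := sact_last_b hn he
  have h5 := map_LL_last hn he (n - 2) (by omega)
  obtain ⟨m, rfl⟩ : ∃ m, n = m + 2 := ⟨n - 2, by omega⟩
  have e1 : m + 2 - 2 = m := rfl
  have e2 : m + 2 - 1 = m + 1 := rfl
  rw [e1, e2] at h3 h3b
  rw [e1, e2] at h5
  rw [e2, List.map_cons, map_neg]
  have e4 : LL b (nd b hn e) (m + 1) = mu b (nd b hn e) m :: LL b (nd b hn e) m := rfl
  by_cases h8 : i = m + 1
  · subst h8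
    rw [e4, List.map_cons, h3, h3b, h5, neg_neg]
    exact List.Perm.swap _ _ _
  · rw [sact_nd_of_ne hn he i (m + 1) (by omega) (by omega) (by omega) (by omega)]
    exact (map_LL_nd hn he i (m + 1) (by omega) (by omega) (by omega)).cons _

omit he in
private theorem td9_zero (i : b.support) (k : ℕ) (L : List (Pol b))
    (h : (L.map (sact b i)).Perm L) : dd1 b i (hl k L) = 0 := by
  apply dd1_eq_zero_of_inv
  exact (map_hl (sact b i : Pol b →+* Pol b) k L).trans (hl_perm k h)

private theorem td9_DL (k r : ℕ) (hr : r + 2 ≤ n) (hk : k ≤ r) :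
    constantCoeff (dd b (eL b (nd b hn e) r k) (hl k (DL b hn e r))) = 1 ∧
      ∀ l : List b.support, l.length = k →
        constantCoeff (dd b l (hl k (DL b hn e r))) ≠ 0 → l = eL b (nd b hn e) r k := by
  induction k generalizing r with
  | zero =>
    refine ⟨by simp [eL, dd, hl_zero], fun l hlen _ => ?_⟩
    rw [List.length_eq_zero_iff] at hlen
    subst hlen
    simp [eL]
  | succ k ih =>
    obtain ⟨q, rfl⟩ : ∃ q, r = q + 1 := ⟨r - 1, by omega⟩
    obtain ⟨h1, h2⟩ := ih q (by omega) (by omega)
    have h3 : ∀ (j : b.support) (l' : List b.support),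
        dd b (j :: l') (hl (k + 1) (DL b hn e (q + 1))) =
          dd b l' (dd1 b j (hl (k + 1) (DL b hn e (q + 1)))) := fun j l' => rfl
    constructor
    · rw [eL_succ, h3, dd1_DL hn he q k (by omega)]
      exact h1
    · intro l hlen hne
      cases l with
      | nil => simp at hlen
      | cons j l' =>
        obtain ⟨i, hi, rfl⟩ := exists_nd (e := e) hn j
        by_cases hiq : i = q
        · subst hiq
          rw [h3, dd1_DL hn he i k (by omega)] at hne
          rw [eL_succ, h2 l' (by simpa using hlen) hne]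
        · exfalso
          apply hne
          rw [h3, td9_zero _ _ _ (map_DL hn he (q + 1) i hr hi (by omega)), dd_zero, map_zero]

private theorem td9_comm :
    rf P (nd b hn e (n - 2) : ι) * rf P (nd b hn e (n - 1)) =
      rf P (nd b hn e (n - 1) : ι) * rf P (nd b hn e (n - 2)) := by
  apply rf_comm
  rw [pairing_nd hn he (n - 2) (n - 1) (by omega) (by omega)]
  unfold dEnt
  rw [if_neg (by omega), if_neg (by omega), if_neg (by omega)]
  norm_num

private theorem td9_top (k : ℕ) (hk : k + 2 ≤ n) :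
    constantCoeff (dd b (nd b hn e (n - 2) :: nd b hn e (n - 1) :: eL b (nd b hn e) (n - 2) k)
        (hl (k + 1 + 1) (LL b (nd b hn e) (n - 1)))) = 2 ∧
      ∀ l : List b.support, l.length = k + 1 + 1 →
        constantCoeff (dd b l (hl (k + 1 + 1) (LL b (nd b hn e) (n - 1)))) ≠ 0 →
          wp b l = wp b (nd b hn e (n - 2) :: nd b hn e (n - 1) ::
            eL b (nd b hn e) (n - 2) k) := by
  obtain ⟨h1, h2⟩ := td9_DL hn he k (n - 2) (by omega) (by omega)
  have h3 : ∀ (j j' : b.support) (l' : List b.support) (F : Pol b),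
      dd b (j :: j' :: l') F = dd b l' (dd1 b j' (dd1 b j F)) := fun j j' l' F => rfl
  constructor
  · rw [h3, dd1_LL_a hn he (k + 1), dd1_LL_c hn he k, dd_C_mul, map_mul, constantCoeff_C, h1]
    norm_num
  · intro l hlen hne
    match l, hlen, hne with
    | [], hlen, _ => simp at hlen
    | [_], hlen, _ => simp at hlen
    | j :: j' :: l', hlen, hne =>
      have hlen' : l'.length = k := by simpa using hlen
      rw [h3] at hne
      obtain ⟨i, hi, rfl⟩ := exists_nd (e := e) hn j
      obtain ⟨i', hi', rfl⟩ := exists_nd (e := e) hn j'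
      by_cases ha : i = n - 2
      · subst ha
        rw [dd1_LL_a hn he (k + 1)] at hne
        by_cases hb : i' = n - 1
        · subst hb
          rw [dd1_LL_c hn he k, dd_C_mul, map_mul] at hne
          rw [h2 l' hlen' (right_ne_zero_of_mul hne)]
        · exfalso
          apply hne
          rw [td9_zero _ _ _ (map_LL_nd hn he i' n (by omega) le_rfl (by omega)), dd_zero,
            map_zero]
      · by_cases hb : i = n - 1
        · subst hb
          rw [dd1_LL_b hn he (k + 1)] at hne
          by_cases hc : i' = n - 2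
          · subst hc
            rw [dd1_LL_d hn he k, dd_C_mul, map_mul] at hne
            rw [h2 l' hlen' (right_ne_zero_of_mul hne)]
            simp only [wp]
            rw [mul_assoc, mul_assoc, td9_comm hn he]
          · exfalso
            apply hne
            rw [td9_zero _ _ _ (map_LL_e hn he i' hi' (by omega)), dd_zero, map_zero]
        · exfalso
          apply hne
          rw [td9_zero _ _ _ (map_LL_nd hn he i (n - 1) (by omega) (by omega) (by omega)),
            dd1_zero, dd_zero, map_zero]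

private theorem td9_all (k d m : ℕ) (hk : k + 2 ≤ n) (hmd : m + d + 2 = n) :
    constantCoeff (dd b (hL b (nd b hn e) m d ++ (nd b hn e (n - 2) :: nd b hn e (n - 1) ::
        eL b (nd b hn e) (n - 2) k)) (hl (d + k + 2) (LL b (nd b hn e) (m + 1)))) = 2 ∧
      ∀ l : List b.support, l.length = d + k + 2 →
        constantCoeff (dd b l (hl (d + k + 2) (LL b (nd b hn e) (m + 1)))) ≠ 0 →
          wp b l = wp b (hL b (nd b hn e) m d ++ (nd b hn e (n - 2) :: nd b hn e (n - 1) ::
            eL b (nd b hn e) (n - 2) k)) := by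
  induction d generalizing m with
  | zero =>
    have h1 : m + 1 = n - 1 := by omega
    have h2 : hL b (nd b hn e) m 0 = [] := by simp [hL]
    have h3 : 0 + k + 2 = k + 1 + 1 := by omega
    rw [h1, h2, h3]
    exact td9_top hn he k hk
  | succ d ih =>
    obtain ⟨h1, h2⟩ := ih (m + 1) (by omega)
    have h3 : d + 1 + k + 2 = d + k + 2 + 1 := by omega
    rw [h3, hL_succ]
    have hw : wt b (nd b hn e) m (nd b hn e m) = 1 := by
      rw [wt_nd hn he m m (by omega) (by omega), if_pos (by omega), if_pos rfl,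
        if_neg (by omega)]
      norm_num
    have h4 : dd1 b (nd b hn e m) (hl (d + k + 2 + 1) (LL b (nd b hn e) (m + 1))) =
        hl (d + k + 2) (LL b (nd b hn e) (m + 1 + 1)) := by
      rw [dd1_hl b (nd b hn e) (n - 2) m (d + k + 2) (straight_nd hn he) (by omega), hw, C_1,
        one_mul]
    have h5 : ∀ (j : b.support) (l' : List b.support) (F : Pol b),
        dd b (j :: l') F = dd b l' (dd1 b j F) := fun j l' F => rfl
    constructor
    · rw [List.cons_append, h5, h4]
      exact h1
    · intro l hlen hne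
      cases l with
      | nil => simp at hlen
      | cons j l' =>
        obtain ⟨i, hi, rfl⟩ := exists_nd (e := e) hn j
        rw [h5] at hne
        by_cases him : i = m
        · subst him
          rw [h4] at hne
          have h6 := h2 l' (by simpa using hlen) hne
          rw [List.cons_append]
          simp only [wp]
          rw [h6]
        · exfalso
          apply hne
          have hperm : ((LL b (nd b hn e) (m + 1)).map (sact b (nd b hn e i))).Perm
              (LL b (nd b hn e) (m + 1)) := by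
            by_cases hin : i = n - 1
            · subst hin
              exact List.Perm.of_eq (map_LL_last hn he (m + 1) (by omega))
            · exact map_LL_nd hn he i (m + 1) (by omega) (by omega) (by omega)
          rw [td9_zero _ _ _ hperm, dd_zero, map_zero]

omit he in
private theorem td9_list (k d m : ℕ) (hmd : m + d + 2 = n) :
    ((List.range (d + k + 2)).map fun t => dNode b hn e (m + t)) =
      hL b (nd b hn e) m d ++ (nd b hn e (n - 2) :: nd b hn e (n - 1) ::
        eL b (nd b hn e) (n - 2) k) := by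
  have h0 : d + k + 2 = d + (k + 2) := by omega
  rw [h0, List.range_add, List.map_append, List.map_map]
  congr 1
  · refine List.map_congr_left fun t ht => ?_
    rw [List.mem_range] at ht
    unfold dNode
    rw [if_pos (by omega)]
  · simp only [List.range_succ_eq_map, List.map_cons, List.map_map, Function.comp_def, eL]
    have e1 : dNode b hn e (m + (d + 0)) = nd b hn e (n - 2) := by
      unfold dNode
      rw [if_pos (by omega)]
      congr 1
      omega
    have e2 : dNode b hn e (m + (d + (Nat.succ 0))) = nd b hn e (n - 1) := by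
      unfold dNode
      rw [if_pos (by omega)]
      congr 1
      omega
    rw [e1, e2]
    congr 2
    refine List.map_congr_left fun t _ => ?_
    unfold dNode
    rw [if_neg (by omega)]
    congr 1
    omega

/-- TD9. **Words.**  For `m ≤ n - 3` and `n - 1 ≤ m + a ≤ 2 n - 3` let
`w = [dNode m, ..., dNode (m+a)]` and `F = h_{a+1}(μ_0..μ_m)`.  Then `ε(∂_w F) = 2`, and
`ε(∂_l F) ≠ 0` for a word `l` of the same length only if `wp l = wp w`.
Proof: the nonzero words are read off from: `∂_m h(LL (m+1)) = h(LL (m+2))` for `m ≤ n - 3`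
(`dd1_hl` with TD6a; the constant is `1` by TD2) and all other `∂_i` kill `h(LL (m+1))`, so the
word starts with `m, ..., n-3`; then either `n-2, n-1` (TD8a, TD8c) or `n-1, n-2` (TD8b, TD8d),
both leading to `2 h(DL (n-2))`, all other derivatives are zero (TD4, TD8e); then
`n-3, n-4, ...` (TD7b, TD7a) down to `h_0 = 1`.  The two words have the same product since
`s_{n-2}`, `s_{n-1}` commute (`rf_comm`).  Suggestion: prove first, by induction on `k`, for
`k ≤ r ≤ n-2`: `ε(∂_l h_k(DL r)) = 1` for `l = [r-1, ..., r-k]` and `0` for all other words of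
length `k`; then go backwards. -/
theorem words_D (m a : ℕ) (hm : m + 3 ≤ n) (h1 : n ≤ m + a + 1) (h2 : m + a + 3 ≤ 2 * n) :
    constantCoeff (dd b ((List.range (a + 1)).map fun t => dNode b hn e (m + t))
        (hl (a + 1) (LL b (nd b hn e) (m + 1)))) = 2 ∧
      ∀ l : List b.support, l.length = a + 1 →
        constantCoeff (dd b l (hl (a + 1) (LL b (nd b hn e) (m + 1)))) ≠ 0 →
          wp b l = wp b ((List.range (a + 1)).map fun t => dNode b hn e (m + t)) := by
  obtain ⟨d, hd⟩ : ∃ d, m + d + 2 = n := ⟨n - 2 - m, by omega⟩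
  obtain ⟨k, hk⟩ : ∃ k, a + 1 = d + k + 2 := ⟨a + 1 - d - 2, by omega⟩
  rw [hk, td9_list hn k d m hd]
  exact td9_all hn he k d m (by omega) hd

/-- TD10. **Special Schubert classes of `OG(m+1, 2n)` in degrees `a + 1 > n - m - 1`.**
(`isSchub_of_word` for `C (1/2) * h_{a+1}`, TD9, `dd_C_mul`, `hl_homog`, `LL_homog`.) -/
theorem isSchub_D (m a : ℕ) (hm : m + 3 ≤ n) (h1 : n ≤ m + a + 1) (h2 : m + a + 3 ≤ 2 * n) :
    IsSchub b (wp b ((List.range (a + 1)).map fun t => dNode b hn e (m + t)))
      (C (1 / 2) * hl (a + 1) (LL b (nd b hn e) (m + 1))) := by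
  obtain ⟨hw1, hw2⟩ := words_D hn he m a hm h1 h2
  apply isSchub_of_word
  · have h3 := (isHomogeneous_C b.support (1 / 2 : ℚ)).mul
      (hl_homog (a + 1) (LL b (nd b hn e) (m + 1)) (LL_homog b (nd b hn e) (m + 1)))
    rw [zero_add] at h3
    simpa using h3
  · rw [dd_C_mul, map_mul, constantCoeff_C, hw1]
    norm_num
  · intro l hl hne
    rw [dd_C_mul, map_mul, constantCoeff_C]
    by_contra hc
    refine hne (hw2 l (by simpa using hl) ?_)
    intro h0
    rw [h0, mul_zero] at hc
    exact hc rfl

omit [P.IsRootSystem] [P.IsReduced] he in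
private theorem TD11_LL (f : ℕ → b.support) (hn : 3 ≤ n) :
    LL b f n = mu b f (n - 1) :: mu b f (n - 2) :: LL b f (n - 2) := by
  have e1 : n = n - 2 + 1 + 1 := by omega
  have e2 : n - 2 + 1 = n - 1 := by omega
  calc LL b f n = LL b f (n - 2 + 1 + 1) := congrArg (LL b f) e1
    _ = mu b f (n - 2 + 1) :: mu b f (n - 2) :: LL b f (n - 2) := rfl
    _ = _ := by rw [e2]

/-- TD11a. `∂_{n-1} e_{k+1}(μ_0..μ_{n-1}) = 2 e_k(μ_0..μ_{n-3})`.
(`e_{k+1}(y :: x :: A) = e_{k+1}(A) + (x + y) e_k(A) + x y e_{k-1}(A)`, and `s_{n-1}` maps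
`x + y` to its opposite and fixes `x y`.) -/
theorem dd1_el_last (k : ℕ) :
    dd1 b (nd b hn e (n - 1)) (el (k + 1) (LL b (nd b hn e) n)) =
      C 2 * el k (LL b (nd b hn e) (n - 2)) := by
  apply dd1_unique
  have hA : ∀ j, sact b (nd b hn e (n - 1)) (el j (LL b (nd b hn e) (n - 2))) =
      el j (LL b (nd b hn e) (n - 2)) := by
    intro j
    have h := map_el (sact b (nd b hn e (n - 1)) : Pol b →+* Pol b) j (LL b (nd b hn e) (n - 2))
    refine h.trans ?_
    exact congrArg (el j) (map_LL_last hn he (n - 2) (by omega))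
  have hC : (C 2 : Pol b) = 2 := map_ofNat C 2
  have h3 := mu_add_last hn he
  rw [TD11_LL (nd b hn e) hn, hC, ← h3]
  cases k with
  | zero =>
    simp only [el_succ_cons, el_zero, map_add, map_mul, map_one, hA, sact_last_a hn he,
      sact_last_b hn he]
    ring
  | succ k =>
    simp only [el_succ_cons, map_add, map_mul, hA, sact_last_a hn he, sact_last_b hn he]
    ring

/-- the leading coefficient of the chain -/
private theorem TD11_one (s r : ℕ) (hs : s + 2 ≤ n) (hr : r ≤ s) :
    constantCoeff (dd b (eL b (nd b hn e) s r) (el r (LL b (nd b hn e) s))) = 1 := by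
  induction r generalizing s with
  | zero => simp [eL, dd, el_zero]
  | succ r ih =>
    obtain ⟨s', rfl⟩ : ∃ s', s = s' + 1 := ⟨s - 1, by omega⟩
    rw [eL_succ]
    show constantCoeff (dd b (eL b (nd b hn e) s' r)
      (dd1 b (nd b hn e s') (el (r + 1) (LL b (nd b hn e) (s' + 1))))) = 1
    have hw : wt b (nd b hn e) s' (nd b hn e s') = 1 := by
      rw [wt_nd hn he s' s' (by omega) (by omega), if_pos (by omega), if_pos rfl,
        if_neg (by omega)]
      norm_num
    rw [dd1_el b (nd b hn e) (n - 2) s' r (straight_nd hn he) (by omega), hw, C_1, one_mul]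
    exact ih s' (by omega) (by omega)

/-- TD11b. **Special Schubert classes of the spinor varieties.**  For `r ≤ n - 2` the polynomial
`e_{r+1}(μ_0..μ_{n-1}) / 2` represents `[Y(v)]`, `v = s_{n-2-r} ⋯ s_{n-4} s_{n-3} s_{n-1}`.
(`isSchub_of_word` with the word `[n-1, n-3, n-4, ..., n-2-r]`; TD11a, all `∂_i`, `i ≤ n-2`, kill
`e(LL n)` (TD4, `i + 1 ≠ n`); then `dd1_el` and `sact_el` for the straight walk of TD6a: only
one word of each length has `ε(∂_l e_r(LL (n-2))) ≠ 0`.) -/
theorem isSchub_spin (r : ℕ) (hr : r + 2 ≤ n) :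
    IsSchub b (wp b (nd b hn e (n - 1) :: (List.range r).map fun t => nd b hn e (n - 3 - t)))
      (C (1 / 2) * el (r + 1) (LL b (nd b hn e) n)) := by
  have hword : ((List.range r).map fun t => nd b hn e (n - 3 - t)) =
      eL b (nd b hn e) (n - 2) r := rfl
  have hcons : ∀ l : List b.support, constantCoeff (dd b (nd b hn e (n - 1) :: l)
      (C (1 / 2) * el (r + 1) (LL b (nd b hn e) n))) =
      constantCoeff (dd b l (el r (LL b (nd b hn e) (n - 2)))) := by
    intro l
    rw [dd_C_mul, map_mul, constantCoeff_C]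
    show 1 / 2 * constantCoeff (dd b l (dd1 b (nd b hn e (n - 1))
      (el (r + 1) (LL b (nd b hn e) n)))) = _
    rw [dd1_el_last hn he, dd_C_mul, map_mul, constantCoeff_C]
    ring
  rw [hword]
  apply isSchub_of_word
  · have h1 := (isHomogeneous_C b.support (1 / 2 : ℚ)).mul
      (el_homog (r + 1) (LL b (nd b hn e) n) (LL_homog b (nd b hn e) n))
    rw [zero_add] at h1
    simpa [eL] using h1
  · rw [hcons]
    exact TD11_one hn he (n - 2) r (by omega) (by omega)
  · intro l hl hne
    cases l with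
    | nil => simp at hl
    | cons j l' =>
      have hlen : l'.length = r := by simpa [eL] using hl
      obtain ⟨k, hk, rfl⟩ := exists_nd hn (e := e) j
      by_cases hk1 : k = n - 1
      · subst hk1
        rw [hcons]
        by_contra hcon
        apply hne
        have h1 := (words_el_hl b (nd b hn e) (n - 2) (straight_nd hn he) (n - 2) 0 0 r le_rfl
          (by omega) (by omega) (fun p h1 h2 => by omega)).1 l' (by omega)
          (by rw [hl_zero, mul_one]; exact hcon)
        have h2 : hL b (nd b hn e) 0 0 ++ eL b (nd b hn e) (n - 2) r =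
          eL b (nd b hn e) (n - 2) r := by simp [hL]
        rw [h2] at h1
        show wp b l' * _ = wp b _ * _
        rw [h1]
      · have hinv : sact b (nd b hn e k) (el (r + 1) (LL b (nd b hn e) n)) =
            el (r + 1) (LL b (nd b hn e) n) := by
          have h := map_el (sact b (nd b hn e k) : Pol b →+* Pol b) (r + 1) (LL b (nd b hn e) n)
          exact h.trans (el_perm (r + 1) (map_LL_nd hn he k n (by omega) le_rfl (by omega)))
        rw [dd_C_mul, map_mul]
        show _ * constantCoeff (dd b l' (dd1 b (nd b hn e k)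
          (el (r + 1) (LL b (nd b hn e) n)))) = 0
        rw [dd1_eq_zero_of_inv b _ _ hinv, dd_zero, map_zero, mul_zero]

end H28T
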