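import Pool.Agent.Helper28.CS3.Exist
import Pool.Agent.Helper28.CS3.TypeD

/-!
# Main theorem (assembly)
-/

namespace H28T

open MvPolynomial Equiv

set_option linter.unusedSectionVars false

variable {ι M N : Type*} [Fintype ι] [AddCommGroup M] [Module ℚ M]
  [AddCommGroup N] [Module ℚ N] {P : RootPairing ι ℚ M N}
variable (b : P.Base) [P.IsRootSystem] [P.IsCrystallographic] [P.IsReduced]

/-- a polynomial with nonnegative action representing `[Y(v)]` suffices -/
theorem csmPos_of_PP [Fintype (WG P)] (C : WG P → Coh b) (hC : IsCSM b C) (v : WG P) (F : Pol b)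
    (hF : IsSchub b v F) (hP : PP b F) : CSMPos b C v := by
  obtain ⟨w₀, hw⟩ := exists_isLong b
  refine ⟨⟨F, hF⟩, fun G hG u => nonneg_of_PP C hC w₀ hw G (fun x => ?_) u⟩
  rw [act_eq_of_isSchub b v G F hG hF]
  exact hP x

theorem csmPos_of_hook [Fintype (WG P)] (C : WG P → Coh b) (hC : IsCSM b C)
    (f : ℕ → b.support) (m a r : ℕ) (hf : Straight b f (m + a + 1))
    (hinj : ∀ s ≤ m, ∀ t ≤ m, f s = f t → s = t) (hr : r ≤ m)
    (hc : ∀ p, m < p → p ≤ m + a → ∀ q, q < m → m ≤ q + r → P.pairing (f p) (f q) = 0) :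
    CSMPos b C (wp b (hookL b f m a r)) := by
  obtain ⟨c, -, hS⟩ := isSchub_hook b f m a r hf hr hc
  exact csmPos_of_PP b C hC _ _ hS (PP_of_hook b f m a r hf hinj hr hc _ hS)

theorem PP.C_mul {F : Pol b} (hF : PP b F) {c : ℚ} (hc : 0 ≤ c) : PP b (C c * F) := fun x => by
  rw [act_mul_apply, act_C_apply]
  exact NN.smul hc (hF x)

theorem csmPos_leafChain [Fintype (WG P)] (C : WG P → Coh b) (hC : IsCSM b C)
    (f : ℕ → b.support) (m a r : ℕ) (h : LeafChain b f (m + a + 1)) (hr : r ≤ m) :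
    CSMPos b C (wp b (hookL b f m a r)) := by
  refine csmPos_of_hook b C hC f m a r (straight_of_leafChain b f _ h)
    (fun s hs t ht => h.inj s (by omega) t (by omega)) hr ?_
  intro p hp hp' q hq _
  exact leafChain_orth b f m a h p hp hp' q hq

theorem csmPos_BC [Fintype (WG P)] (C : WG P → Coh b) (hC : IsCSM b C)
    (n : ℕ) (hn : 0 < n) (e : Fin n ≃ b.support)
    (he : (∀ i j, P.pairing (e i) (e j) = (CartanMatrix.B n i j : ℚ)) ∨
      (∀ i j, P.pairing (e i) (e j) = (CartanMatrix.C n i j : ℚ)))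
    (m a r : ℕ) (hm : m < n) (hr : r ≤ m) (hma : m + a + 2 ≤ 2 * n)
    (hra : r = 0 ∨ 2 * m + a + 3 ≤ 2 * n) :
    CSMPos b C (wp b (hookL b (fun t => e (bcNode n hn t)) m a r)) := by
  have hst : Straight b (fun t => e (bcNode n hn t)) (2 * n - 1) := by
    rcases he with he | he
    · exact straight_B b n hn e he
    · exact straight_C b n hn e he
  have hfar : ∀ i j : Fin n, (i : ℕ) + 1 < j ∨ (j : ℕ) + 1 < i → P.pairing (e i) (e j) = 0 := by
    intro i j hij
    have h1 : i ≠ j := by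
      rintro rfl
      omega
    have h2 : (i : ℕ) + 1 ≠ j := by omega
    have h3 : (j : ℕ) + 1 ≠ i := by omega
    rcases he with he | he
    · rw [he, CartanMatrix.B, Matrix.of_apply, if_neg h1, if_neg h2, if_neg h3, Int.cast_zero]
    · rw [he, CartanMatrix.C, Matrix.of_apply, if_neg h1, if_neg h2, if_neg h3, Int.cast_zero]
  exact csmPos_of_hook b C hC _ m a r (fun t ht => hst t (by omega)) (bc_inj b n hn e m hm) hr
    (bc_orth b n hn e hfar m a r hm hra)

theorem csmPos_D [Fintype (WG P)] (C : WG P → Coh b) (hC : IsCSM b C)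
    (n : ℕ) (hn : 3 ≤ n) (e : Fin n ≃ b.support) (he : IsD b e) (m a : ℕ) (hm : m + 3 ≤ n)
    (h1 : n ≤ m + a + 1) (h2 : m + a + 3 ≤ 2 * n) :
    CSMPos b C (wp b ((List.range (a + 1)).map fun t => dNode b hn e (m + t))) :=
  csmPos_of_PP b C hC _ _ (isSchub_D hn he m a hm h1 h2)
    ((PP_hl_nd hn he (a + 1) (m + 1) (by omega)).C_mul b (by norm_num))

theorem csmPos_spin [Fintype (WG P)] (C : WG P → Coh b) (hC : IsCSM b C)
    (n : ℕ) (hn : 3 ≤ n) (e : Fin n ≃ b.support) (he : IsD b e) (r : ℕ) (hr : r + 2 ≤ n) :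
    CSMPos b C (wp b (nd b hn e (n - 1) :: (List.range r).map fun t => nd b hn e (n - 3 - t))) :=
  csmPos_of_PP b C hC _ _ (isSchub_spin hn he r hr)
    ((PP_el_nd hn he (r + 1) n le_rfl).C_mul b (by norm_num))

theorem main [Fintype (WG P)] :
    (∃! C : WG P → Coh b, IsCSM b C) ∧ ∀ C : WG P → Coh b, IsCSM b C →
      LinearIndependent ℚ C ∧
      (∀ (f : ℕ → b.support) (m a r : ℕ), Straight b f (m + a + 1) →
        (∀ s ≤ m, ∀ t ≤ m, f s = f t → s = t) → r ≤ m →
        (∀ p, m < p → p ≤ m + a → ∀ q, q < m → m ≤ q + r → P.pairing (f p) (f q) = 0) →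
        CSMPos b C (wp b (hookL b f m a r))) ∧
      (∀ (f : ℕ → b.support) (m a r : ℕ), LeafChain b f (m + a + 1) → r ≤ m →
        CSMPos b C (wp b (hookL b f m a r))) ∧
      (∀ (n : ℕ) (hn : 0 < n) (e : Fin n ≃ b.support),
        ((∀ i j, P.pairing (e i) (e j) = (CartanMatrix.B n i j : ℚ)) ∨
          (∀ i j, P.pairing (e i) (e j) = (CartanMatrix.C n i j : ℚ))) →
        ∀ m a r : ℕ, m < n → r ≤ m → m + a + 2 ≤ 2 * n → (r = 0 ∨ 2 * m + a + 3 ≤ 2 * n) →
          CSMPos b C (wp b (hookL b (fun t => e (bcNode n hn t)) m a r))) ∧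
      (∀ (n : ℕ) (hn : 3 ≤ n) (e : Fin n ≃ b.support), IsD b e →
        (∀ m a : ℕ, m + 3 ≤ n → n ≤ m + a + 1 → m + a + 3 ≤ 2 * n →
          CSMPos b C (wp b ((List.range (a + 1)).map fun t => dNode b hn e (m + t)))) ∧
        ∀ r : ℕ, r + 2 ≤ n → CSMPos b C
          (wp b (nd b hn e (n - 1) :: (List.range r).map fun t => nd b hn e (n - 3 - t)))) := by
  obtain ⟨C₀, hC₀⟩ := exists_csm b
  refine ⟨⟨C₀, hC₀, fun C hC => csm_unique b C C₀ hC hC₀⟩, fun C hC => ?_⟩
  obtain ⟨w₀, hw⟩ := exists_isLong b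
  exact ⟨linearIndependent_csm C hC w₀ hw, fun f m a r hf hinj hr hc =>
    csmPos_of_hook b C hC f m a r hf hinj hr hc,
    fun f m a r h hr => csmPos_leafChain b C hC f m a r h hr,
    fun n hn e he m a r hm hr hma hra => csmPos_BC b C hC n hn e he m a r hm hr hma hra,
    fun n hn e he => ⟨fun m a hm h1 h2 => csmPos_D b C hC n hn e he m a hm h1 h2,
      fun r hr => csmPos_spin b C hC n hn e he r hr⟩⟩

end H28T
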