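import Pool.Agent.Helper28.CS3.Main

/-!
# Products of elements with orthogonal supports
-/

namespace H28T

open MvPolynomial Equiv

set_option linter.unusedSectionVars false

variable {ι M N : Type*} [Fintype ι] [AddCommGroup M] [Module ℚ M]
  [AddCommGroup N] [Module ℚ N] {P : RootPairing ι ℚ M N}
variable (b : P.Base) [P.IsRootSystem] [P.IsCrystallographic] [P.IsReduced]

/-- a word without the letter `k` does not change the coordinate at `α_k` -/
theorem rcf_wp (l : List b.support) (k : b.support) (h : k ∉ l) (β : ι) :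
    rcf b ((wp b l).1 β) k = rcf b β k := by
  induction l generalizing β with
  | nil => rfl
  | cons j l ih =>
    rw [List.mem_cons, not_or] at h
    show rcf b ((wp b l).1 ((rf P (j : ι)).1 β)) k = rcf b β k
    rw [ih h.2, rcf_rf_of_ne b j β k h.1]

theorem rcf_self (k : b.support) : rcf b (k : ι) k = 1 := by
  classical
  simp [rcf, Finsupp.single_apply]

/-- the head of a reduced word is a descent -/
theorem not_isPos_head (k : b.support) (l : List b.support)
    (h : (k :: l).length = inv b (wp b (k :: l))) : ¬ b.IsPos ((wp b (k :: l)).1 k) := by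
  intro hpos
  have h1 := inv_mul_rf_of_pos b _ k hpos
  have h2 : wp b (k :: l) * rf P (k : ι) = wp b l := by
    show wp b l * rf P (k : ι) * rf P (k : ι) = wp b l
    rw [mul_assoc, rf_mul_self, mul_one]
  rw [h2, ← h, List.length_cons] at h1
  have h3 := inv_wp_le b l
  omega

theorem reduced_tail (k : b.support) (l : List b.support)
    (h : (k :: l).length = inv b (wp b (k :: l))) : l.length = inv b (wp b l) := by
  have h1 := inv_mul_rf_of_neg b _ k (not_isPos_head b k l h)
  have h2 : wp b (k :: l) * rf P (k : ι) = wp b l := by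
    show wp b l * rf P (k : ι) * rf P (k : ι) = wp b l
    rw [mul_assoc, rf_mul_self, mul_one]
  rw [h2, ← h, List.length_cons] at h1
  omega

/-- **Reduced words use only letters of any other word.** -/
theorem mem_of_reduced (l : List b.support) (h : l.length = inv b (wp b l))
    (l₀ : List b.support) (h₀ : wp b l = wp b l₀) : ∀ k ∈ l, k ∈ l₀ := by
  induction l generalizing l₀ with
  | nil => simp
  | cons k l ih =>
    have hk : k ∈ l₀ := by
      by_contra hn
      have h1 := not_isPos_head b k l h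
      rw [h₀] at h1
      apply h1
      apply isPos_of_rcf_pos b _ k
      rw [rcf_wp b l₀ k hn, rcf_self]
      exact one_pos
    have h2 : wp b l = wp b (k :: l₀) := by
      show wp b l = wp b l₀ * rf P (k : ι)
      rw [← h₀]
      show wp b l = wp b l * rf P (k : ι) * rf P (k : ι)
      rw [mul_assoc, rf_mul_self, mul_one]
    intro j hj
    rcases List.mem_cons.mp hj with rfl | hj
    · exact hk
    · rcases List.mem_cons.mp (ih (reduced_tail b k l h) _ h2 j hj) with rfl | h3
      · exact hk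
      · exact h3

/-- words with disjoint letters can only agree on `1` -/
theorem wp_eq_one_of_disj (l₁ l₂ : List b.support) (h : wp b l₁ = wp b l₂)
    (hd : ∀ k ∈ l₁, k ∉ l₂) : wp b l₁ = 1 := by
  obtain ⟨l, hl, hn⟩ := exists_word b (wp b l₁)
  have hr : l.length = inv b (wp b l) := by rw [hl]; exact hn
  rcases l with _ | ⟨k, l⟩
  · exact hl.symm
  · exfalso
    have h1 := mem_of_reduced b _ hr l₁ hl k (by simp)
    have h2 := mem_of_reduced b _ hr l₂ (hl.trans h) k (by simp)
    exact hd k h1 h2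

theorem wp_comm (k : b.support) (l : List b.support) (h : ∀ j ∈ l, P.pairing k j = 0) :
    wp b l * rf P (k : ι) = rf P (k : ι) * wp b l := by
  induction l with
  | nil => simp [wp]
  | cons j l ih =>
    show wp b l * rf P (j : ι) * rf P (k : ι) = rf P (k : ι) * (wp b l * rf P (j : ι))
    rw [mul_assoc, ← rf_comm (k : ι) (j : ι) (h j (by simp)), ← mul_assoc,
      ih fun i hi => h i (by simp [hi]), mul_assoc]

theorem wp_fix (k : b.support) (l : List b.support) (h : ∀ j ∈ l, P.pairing k j = 0) :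
    (wp b l).1 (k : ι) = k := by
  induction l with
  | nil => rfl
  | cons j l ih =>
    show (wp b l).1 ((rf P (j : ι)).1 (k : ι)) = k
    have h1 : (rf P (j : ι)).1 (k : ι) = k :=
      P.reflectionPerm_eq_of_pairing_eq_zero (h j (by simp))
    rw [h1]
    exact ih fun i hi => h i (by simp [hi])

/-- words with orthogonal letters commute -/
theorem wp_wp_comm (l₁ l₂ : List b.support) (h : ∀ k ∈ l₁, ∀ j ∈ l₂, P.pairing k j = 0) :
    wp b l₁ * wp b l₂ = wp b l₂ * wp b l₁ := by
  induction l₁ with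
  | nil => simp [wp]
  | cons k l ih =>
    show wp b l * rf P (k : ι) * wp b l₂ = wp b l₂ * (wp b l * rf P (k : ι))
    rw [mul_assoc, ← wp_comm b k l₂ (h k (by simp)), ← mul_assoc, ih fun i hi => h i (by simp [hi]),
      mul_assoc]

/-- **Additivity of the length.** -/
theorem inv_wp_mul (l₁ l₂ : List b.support) (h : ∀ k ∈ l₁, ∀ j ∈ l₂, P.pairing k j = 0)
    (h₂ : l₂.length = inv b (wp b l₂)) :
    inv b (wp b l₁ * wp b l₂) = inv b (wp b l₁) + l₂.length := by
  induction l₂ with
  | nil => simp [wp]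
  | cons k l ih =>
    have hl := reduced_tail b k l h₂
    have h1 := ih (fun i hi j hj => h i hi j (by simp [hj])) hl
    have hsymm : ∀ j ∈ l₁, P.pairing k j = 0 := fun j hj =>
      (P.pairing_eq_zero_iff).mp (h j hj k (by simp))
    have h2 : wp b l₁ * wp b (k :: l) = wp b l₁ * wp b l * rf P (k : ι) := by
      show wp b l₁ * (wp b l * rf P (k : ι)) = _
      rw [mul_assoc]
    have hpos : b.IsPos ((wp b l₁ * wp b l).1 k) := by
      rw [wp_wp_comm b l₁ l fun i hi j hj => h i hi j (by simp [hj])]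
      show b.IsPos ((wp b l).1 ((wp b l₁).1 k))
      rw [wp_fix b k l₁ hsymm]
      by_contra hn
      have h3 := inv_mul_rf_of_neg b (wp b l) k hn
      have h4 : inv b (wp b (k :: l)) = inv b (wp b l * rf P (k : ι)) := rfl
      rw [← h4, ← h₂, ← hl, List.length_cons] at h3
      omega
    rw [h2, inv_mul_rf_of_pos b _ k hpos, h1, List.length_cons]
    omega

/-! ### the Leibniz rule modulo the ideal -/

theorem null_of_mem (F : Pol b) (h : F ∈ invIdeal b) (l : List b.support) :
    constantCoeff (dd b l F) = 0 :=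
  null_of_act_eq_zero b F (act_of_mem b F h) l

theorem mem_of_null (F : Pol b) (h : ∀ l, constantCoeff (dd b l F) = 0) : F ∈ invIdeal b :=
  mem_of_act_eq_zero b F fun z => act_eq_zero_of_null b F h z

/-- `F` only involves the letters in `J`. -/
def OnlyJ (J : b.support → Prop) (F : Pol b) : Prop :=
  ∀ l : List b.support, (∃ k ∈ l, ¬ J k) → constantCoeff (dd b l F) = 0

theorem OnlyJ.dd1 {J : b.support → Prop} {F : Pol b} (h : OnlyJ b J F) (k : b.support) :
    OnlyJ b J (dd1 b k F) := by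
  rintro l ⟨j, hj, hj'⟩
  exact h (k :: l) ⟨j, by simp [hj], hj'⟩

theorem OnlyJ.mem {J : b.support → Prop} {F : Pol b} (h : OnlyJ b J F) (k : b.support)
    (hk : ¬ J k) : H28T.dd1 b k F ∈ invIdeal b :=
  mem_of_null b _ fun l => h (k :: l) ⟨k, by simp, hk⟩

theorem cc_dd_congr (l : List b.support) (F G : Pol b) (h : F - G ∈ invIdeal b) :
    constantCoeff (dd b l F) = constantCoeff (dd b l G) := by
  have := null_of_mem b _ h l
  rw [dd_sub, map_sub] at this
  exact sub_eq_zero.mp this

open Classical in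
/-- the letters of `l` in `J` -/
noncomputable def fil (J : b.support → Prop) (l : List b.support) : List b.support :=
  l.filter fun k => decide (J k)

theorem fil_nil (J : b.support → Prop) : fil b J [] = [] := rfl

theorem fil_cons_pos (J : b.support → Prop) (k : b.support) (l : List b.support) (h : J k) :
    fil b J (k :: l) = k :: fil b J l := by simp [fil, h]

theorem fil_cons_neg (J : b.support → Prop) (k : b.support) (l : List b.support) (h : ¬ J k) :
    fil b J (k :: l) = fil b J l := by simp [fil, h]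

theorem mem_fil (J : b.support → Prop) (k : b.support) (l : List b.support)
    (h : k ∈ fil b J l) : J k := by
  simp only [fil, List.mem_filter, decide_eq_true_eq] at h
  exact h.2

open Classical in
theorem cc_dd_mul (J₁ J₂ : b.support → Prop) (hd : ∀ k, J₁ k → ¬ J₂ k)
    (l : List b.support) (F₁ F₂ : Pol b) (h₁ : OnlyJ b J₁ F₁) (h₂ : OnlyJ b J₂ F₂) :
    constantCoeff (dd b l (F₁ * F₂)) =
      if (∀ k ∈ l, J₁ k ∨ J₂ k) then
        constantCoeff (dd b (fil b J₁ l) F₁) * constantCoeff (dd b (fil b J₂ l) F₂) else 0 := by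
  induction l generalizing F₁ F₂ with
  | nil => simp [dd, fil_nil]
  | cons k l ih =>
    show constantCoeff (dd b l (H28T.dd1 b k (F₁ * F₂))) = _
    by_cases hk₁ : J₁ k
    · have hk₂ := hd k hk₁
      rw [cc_dd_congr b l (H28T.dd1 b k (F₁ * F₂)) (H28T.dd1 b k F₁ * F₂) (by
        rw [H28T.dd1_mul, add_sub_cancel_left]
        exact Ideal.mul_mem_left _ _ (h₂.mem b k hk₂)), ih _ _ (h₁.dd1 b k) h₂]
      have e1 : (∀ j ∈ k :: l, J₁ j ∨ J₂ j) ↔ ∀ j ∈ l, J₁ j ∨ J₂ j := by
        simp [hk₁]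
      rw [fil_cons_pos b J₁ k l hk₁, fil_cons_neg b J₂ k l hk₂]
      simp only [e1]
      rfl
    · have hF₁ := h₁.mem b k hk₁
      by_cases hk₂ : J₂ k
      · rw [cc_dd_congr b l (H28T.dd1 b k (F₁ * F₂)) (F₁ * H28T.dd1 b k F₂) (by
          have h3 : H28T.dd1 b k (F₁ * F₂) - F₁ * H28T.dd1 b k F₂ =
              (F₂ - rt b k * H28T.dd1 b k F₂) * H28T.dd1 b k F₁ := by
            rw [H28T.dd1_mul]
            linear_combination (H28T.dd1 b k F₂) * dd1_spec b k F₁
          rw [h3]
          exact Ideal.mul_mem_left _ _ hF₁), ih _ _ h₁ (h₂.dd1 b k)]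
        have e1 : (∀ j ∈ k :: l, J₁ j ∨ J₂ j) ↔ ∀ j ∈ l, J₁ j ∨ J₂ j := by
          simp [hk₂]
        rw [fil_cons_neg b J₁ k l hk₁, fil_cons_pos b J₂ k l hk₂]
        simp only [e1]
        rfl
      · have e1 : ¬ ∀ j ∈ k :: l, J₁ j ∨ J₂ j := by
          intro h
          rcases h k (by simp) with h | h
          · exact hk₁ h
          · exact hk₂ h
        rw [if_neg e1]
        apply null_of_mem
        rw [H28T.dd1_mul]
        exact Ideal.add_mem _ (Ideal.mul_mem_right _ _ hF₁)
          (Ideal.mul_mem_left _ _ (h₂.mem b k hk₂))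

theorem wp_shuffle (J₁ J₂ : b.support → Prop) (hd : ∀ k j, J₁ k → J₂ j → P.pairing k j = 0)
    (l : List b.support) (h : ∀ k ∈ l, J₁ k ∨ J₂ k) :
    wp b l = wp b (fil b J₁ l) * wp b (fil b J₂ l) ∧
      l.length = (fil b J₁ l).length + (fil b J₂ l).length := by
  have hd' : ∀ k, J₁ k → ¬ J₂ k := by
    intro k h1 h2
    have := hd k k h1 h2
    rw [P.pairing_same] at this
    norm_num at this
  induction l with
  | nil => simp [wp, fil_nil]
  | cons k l ih =>
    obtain ⟨h1, h2⟩ := ih fun j hj => h j (by simp [hj])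
    have h0 : wp b (k :: l) = wp b l * rf P (k : ι) := rfl
    by_cases hk₁ : J₁ k
    · have hk₂ := hd' k hk₁
      rw [fil_cons_pos b J₁ k l hk₁, fil_cons_neg b J₂ k l hk₂, h0, List.length_cons,
        List.length_cons, h2]
      refine ⟨?_, by omega⟩
      have e4 : wp b (k :: fil b J₁ l) = wp b (fil b J₁ l) * rf P (k : ι) := rfl
      rw [e4, mul_assoc, ← wp_comm b k (fil b J₂ l) fun j hj => hd k j hk₁ (mem_fil b J₂ j l hj),
        ← mul_assoc, ← h1]
    · have hk₂ : J₂ k := (h k (by simp)).resolve_left hk₁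
      have e4 : wp b (k :: fil b J₂ l) = wp b (fil b J₂ l) * rf P (k : ι) := rfl
      rw [fil_cons_neg b J₁ k l hk₁, fil_cons_pos b J₂ k l hk₂, h0, e4, List.length_cons,
        List.length_cons, h2, ← mul_assoc, ← h1]
      exact ⟨rfl, by omega⟩

theorem wp_reverse (l : List b.support) : wp b l.reverse = (wp b l)⁻¹ := by
  induction l with
  | nil => simp [wp]
  | cons k l ih =>
    rw [List.reverse_cons, wp_append, ih]
    show (1 * rf P (k : ι)) * (wp b l)⁻¹ = (wp b l * rf P (k : ι))⁻¹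
    rw [mul_inv_rev, rf_inv, one_mul]

theorem onlyJ_of_isSchub (l₀ : List b.support) (F : Pol b) (hF : IsSchub b (wp b l₀) F) :
    OnlyJ b (fun k => k ∈ l₀) F := by
  classical
  rintro l ⟨k, hk, hk'⟩
  rw [hF l, if_neg]
  rintro ⟨h1, h2⟩
  exact hk' (mem_of_reduced b l (by rw [h2, h1]) l₀ h1 k hk)

/-- **`[Y(v₁ v₂)] = [Y(v₁)] [Y(v₂)]` for orthogonal supports.** -/
theorem isSchub_mul (l₁ l₂ : List b.support) (h : ∀ k ∈ l₁, ∀ j ∈ l₂, P.pairing k j = 0)
    (F₁ F₂ : Pol b) (h₁ : IsSchub b (wp b l₁) F₁) (h₂ : IsSchub b (wp b l₂) F₂) :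
    IsSchub b (wp b l₁ * wp b l₂) (F₁ * F₂) := by
  classical
  have hd : ∀ k, k ∈ l₁ → k ∉ l₂ := by
    intro k hk hk'
    have := h k hk k hk'
    rw [P.pairing_same] at this
    norm_num at this
  obtain ⟨r₂, hr₂, hn₂⟩ := exists_word b (wp b l₂)
  have hr₂l : ∀ k ∈ r₂, k ∈ l₂ := mem_of_reduced b r₂ (by rw [hr₂]; exact hn₂) l₂ hr₂
  have hadd : inv b (wp b l₁ * wp b l₂) = inv b (wp b l₁) + inv b (wp b l₂) := by
    rw [← hr₂, inv_wp_mul b l₁ r₂ (fun k hk j hj => h k hk j (hr₂l j hj)) (by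
      rw [hr₂]; exact hn₂), hr₂, hn₂]
  intro l
  rw [cc_dd_mul b (fun k => k ∈ l₁) (fun k => k ∈ l₂) hd l F₁ F₂
    (onlyJ_of_isSchub b l₁ F₁ h₁) (onlyJ_of_isSchub b l₂ F₂ h₂)]
  by_cases hl : ∀ k ∈ l, k ∈ l₁ ∨ k ∈ l₂
  · rw [if_pos hl, h₁, h₂]
    obtain ⟨hs, hlen⟩ := wp_shuffle b (fun k => k ∈ l₁) (fun k => k ∈ l₂)
      (fun k j hk hj => h k hk j hj) l hl
    have hm₁ : ∀ k ∈ fil b (fun k => k ∈ l₁) l, k ∈ l₁ := fun k hk => mem_fil b _ k l hk
    have hm₂ : ∀ k ∈ fil b (fun k => k ∈ l₂) l, k ∈ l₂ := fun k hk => mem_fil b _ k l hk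
    generalize fil b (fun k => k ∈ l₁) l = f₁ at *
    generalize fil b (fun k => k ∈ l₂) l = f₂ at *
    by_cases hR : wp b l = wp b l₁ * wp b l₂ ∧ l.length = inv b (wp b l₁ * wp b l₂)
    · rw [if_pos hR]
      obtain ⟨hR1, hR2⟩ := hR
      have h3 : wp b (f₁ ++ l₁.reverse) = wp b (f₂.reverse ++ l₂) := by
        rw [wp_append, wp_append, wp_reverse, wp_reverse]
        rw [hs] at hR1
        calc (wp b l₁)⁻¹ * wp b f₁ = (wp b l₁)⁻¹ * (wp b f₁ * wp b f₂) * (wp b f₂)⁻¹ := by group
          _ = wp b l₂ * (wp b f₂)⁻¹ := by rw [hR1]; group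
      have h4 := wp_eq_one_of_disj b _ _ h3 (by
        intro k hk hk'
        have a1 : k ∈ l₁ := by
          rcases List.mem_append.mp hk with hk | hk
          · exact hm₁ k hk
          · exact List.mem_reverse.mp hk
        have a2 : k ∈ l₂ := by
          rcases List.mem_append.mp hk' with hk' | hk'
          · exact hm₂ k (List.mem_reverse.mp hk')
          · exact hk'
        exact hd k a1 a2)
      have h5 : wp b f₁ = wp b l₁ := by
        rw [wp_append, wp_reverse] at h4
        exact (inv_mul_eq_one.mp h4).symm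
      have h6 : wp b f₂ = wp b l₂ := by
        rw [h3, wp_append, wp_reverse] at h4
        exact (mul_inv_eq_one.mp h4).symm
      have h7 := inv_wp_le b f₁
      have h8 := inv_wp_le b f₂
      rw [h5] at h7
      rw [h6] at h8
      rw [if_pos ⟨h5, by omega⟩, if_pos ⟨h6, by omega⟩, one_mul]
    · rw [if_neg hR]
      by_cases hA : wp b f₁ = wp b l₁ ∧ f₁.length = inv b (wp b l₁)
      · by_cases hB : wp b f₂ = wp b l₂ ∧ f₂.length = inv b (wp b l₂)
        · exfalso
          apply hR
          refine ⟨?_, ?_⟩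
          · rw [hs, hA.1, hB.1]
          · rw [hlen, hadd, hA.2, hB.2]
        · rw [if_neg hB, mul_zero]
      · rw [if_neg hA, zero_mul]
  · rw [if_neg hl, if_neg]
    rintro ⟨hR1, hR2⟩
    apply hl
    intro k hk
    have h3 : wp b l = wp b (l₂ ++ l₁) := by rw [wp_append, hR1]
    have h4 := mem_of_reduced b l (by rw [hR2, hR1]) _ h3 k hk
    rcases List.mem_append.mp h4 with h4 | h4
    · exact Or.inr h4
    · exact Or.inl h4

/-- **Q1 for `v₁` and `v₂` gives Q1 for `v₁ v₂`, if the supports are orthogonal.** -/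
theorem csmPos_mul [Fintype (WG P)] (C : WG P → Coh b) (l₁ l₂ : List b.support)
    (h : ∀ k ∈ l₁, ∀ j ∈ l₂, P.pairing k j = 0) (h₁ : CSMPos b C (wp b l₁))
    (h₂ : CSMPos b C (wp b l₂)) : CSMPos b C (wp b l₁ * wp b l₂) := by
  obtain ⟨⟨F₁, hF₁⟩, p₁⟩ := h₁
  obtain ⟨⟨F₂, hF₂⟩, p₂⟩ := h₂
  have hS := isSchub_mul b l₁ l₂ h F₁ F₂ hF₁ hF₂
  refine ⟨⟨F₁ * F₂, hS⟩, fun G hG u => ?_⟩
  have hcl : cl b G = cl b F₁ * cl b F₂ := by
    rw [← cl_mul, cl_eq_iff]
    refine mem_of_null b _ fun l => ?_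
    rw [dd_sub, map_sub, hG l, hS l, sub_self]
  obtain ⟨a, ha, hsum⟩ := p₂ F₂ hF₂ u
  choose c hc hc' using p₁ F₁ hF₁
  refine ⟨fun x => ∑ w, a w * c w x, fun x => Finset.sum_nonneg fun w _ =>
    mul_nonneg (ha w) (hc w x), ?_⟩
  calc cl b G * C u = cl b F₁ * (cl b F₂ * C u) := by rw [hcl, mul_assoc]
    _ = ∑ w, a w • (cl b F₁ * C w) := by
      rw [hsum, Finset.mul_sum]
      exact Finset.sum_congr rfl fun w _ => mul_smul_comm _ _ _
    _ = ∑ w, ∑ x, (a w * c w x) • C x := by
      refine Finset.sum_congr rfl fun w _ => ?_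
      rw [hc' w, Finset.smul_sum]
      exact Finset.sum_congr rfl fun x _ => smul_smul _ _ _
    _ = ∑ x, (∑ w, a w * c w x) • C x := by
      rw [Finset.sum_comm]
      exact Finset.sum_congr rfl fun x _ => (Finset.sum_smul).symm

end H28T
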