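import Pool.Agent.Helper28.CS3.Exist

/-!
# Every Schubert class has a representative
-/

namespace H28T

open MvPolynomial Equiv

set_option linter.unusedSectionVars false

variable {ι M N : Type*} [Fintype ι] [AddCommGroup M] [Module ℚ M]
  [AddCommGroup N] [Module ℚ N] {P : RootPairing ι ℚ M N}
variable (b : P.Base) [P.IsRootSystem] [P.IsCrystallographic] [P.IsReduced]

private theorem ex_wp_append (l l' : List b.support) :
    wp b (l ++ l') = wp b l' * wp b l := by
  induction l with
  | nil => simp [wp]
  | cons k l ih => simp only [List.cons_append, wp, ih, mul_assoc]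

private theorem ex_dd_append (l l' : List b.support) (F : Pol b) :
    dd b (l ++ l') F = dd b l' (dd b l F) := by
  induction l generalizing F with
  | nil => rfl
  | cons k l ih => simp only [List.cons_append, dd, ih]

/-- Every class `[Y(v)]` is represented by a polynomial. -/
theorem exists_isSchub (v : WG P) : ∃ F : Pol b, IsSchub b v F := by
  classical
  obtain ⟨w₀, hw⟩ := exists_isLong b
  obtain ⟨F, hF⟩ := exists_pt b w₀ hw
  obtain ⟨l, hl, hll⟩ := exists_word b (v⁻¹ * w₀)
  have hlen := inv_mul_isLong b v w₀ hw
  refine ⟨dd b l F, fun l' => ?_⟩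
  rw [← ex_dd_append, hF (l ++ l')]
  refine if_congr ?_ rfl rfl
  rw [ex_wp_append, hl, List.length_append, hll]
  constructor
  · rintro ⟨h1, h2⟩
    refine ⟨?_, by omega⟩
    rw [← mul_assoc] at h1
    exact mul_inv_eq_one.1 (mul_eq_right.1 h1)
  · rintro ⟨rfl, h2⟩
    exact ⟨by rw [← mul_assoc, mul_inv_cancel, one_mul], by omega⟩

end H28T
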