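import Pool.Agent.Helper28.CS3.Len2

/-!
# Parity and degree of the coefficients; differences of lengths up to four
-/

namespace H28T

open MvPolynomial Equiv

set_option linter.unusedSectionVars false

variable {ι M N : Type*} [Fintype ι] [AddCommGroup M] [Module ℚ M]
  [AddCommGroup N] [Module ℚ N] {P : RootPairing ι ℚ M N}
variable (b : P.Base) [P.IsRootSystem] [P.IsCrystallographic] [P.IsReduced]

theorem inv_wp_parity (l : List b.support) : (inv b (wp b l) + l.length) % 2 = 0 := by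
  induction l with
  | nil => simp [wp, inv_one b]
  | cons k l ih =>
    simp only [wp, List.length_cons]
    by_cases h : b.IsPos ((wp b l).1 k)
    · rw [inv_mul_rf_of_pos b _ k h]
      omega
    · have h1 := inv_mul_rf_of_neg b _ k h
      omega

theorem inv_mul_rf_parity (w : WG P) (β : ι) (hβ : b.IsPos β) (h : ¬ b.IsPos (w.1 β)) :
    (inv b (w * rf P β) + inv b w) % 2 = 1 := by
  obtain ⟨l, hl, hn⟩ := exists_word b w
  obtain ⟨l', h1, h2⟩ := exchange b l β hβ (by rw [hl]; exact h)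
  have h3 := inv_wp_parity b l'
  rw [h2, hl] at h3
  omega

theorem lb_parity (a : b.support → ℚ) (x y : WG P) (h : lb b a x y ≠ 0) :
    (inv b y⁻¹ + inv b x⁻¹) % 2 = 1 := by
  classical
  unfold lb at h
  rw [Finsupp.finsetSum_apply] at h
  obtain ⟨β, -, hβ⟩ := Finset.exists_ne_zero_of_sum_ne_zero h
  split_ifs at hβ with h1
  · have hy : rf P β * x = y := by
      by_contra hne
      exact hβ (by simp [bas, hne])
    rw [← hy, mul_inv_rev, rf_inv]
    exact inv_mul_rf_parity b x⁻¹ β h1.1 h1.2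
  · exact absurd rfl hβ

private theorem PA_Xop (i : b.support) (z : VV P) (N k : ℕ)
    (hz : ∀ y, z y ≠ 0 → (inv b y⁻¹ + k + N) % 2 = 0) (y : WG P) (h : Xop b i z y ≠ 0) :
    (inv b y⁻¹ + (k + 1) + N) % 2 = 0 := by
  classical
  have e : Xop b i z = z.sum fun x a => a • lb b (Pi.single i 1) x := by
    unfold Xop Lop
    rw [Finsupp.linearCombination_apply]
  rw [e, Finsupp.sum, Finsupp.finsetSum_apply] at h
  obtain ⟨x, hx, hne⟩ := Finset.exists_ne_zero_of_sum_ne_zero h
  rw [Finsupp.smul_apply] at hne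
  have h1 := lb_parity b _ x y (right_ne_zero_of_smul hne)
  have h2 := hz x (Finsupp.mem_support_iff.mp hx)
  omega

private theorem PA_mono (s : b.support →₀ ℕ) (a : ℚ) : ∀ (z : VV P) (N k : ℕ),
    (∀ y, z y ≠ 0 → (inv b y⁻¹ + k + N) % 2 = 0) → ∀ y, act b (monomial s a) z y ≠ 0 →
      (inv b y⁻¹ + k + (monomial s a : Pol b).totalDegree + N) % 2 = 0 := by
  refine induction_on_monomial (motive := fun p : Pol b => ∀ (z : VV P) (N k : ℕ),
    (∀ y, z y ≠ 0 → (inv b y⁻¹ + k + N) % 2 = 0) → ∀ y, act b p z y ≠ 0 →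
      (inv b y⁻¹ + k + p.totalDegree + N) % 2 = 0) ?_ ?_ s a
  · intro a z N k hz y h
    rw [act_C_apply, Finsupp.smul_apply] at h
    rw [totalDegree_C, add_zero]
    exact hz y (right_ne_zero_of_smul h)
  · intro p n ih z N k hz y h
    rw [act_mul_apply, act_X] at h
    have hp : p ≠ 0 := by
      rintro rfl
      simp at h
    rw [totalDegree_mul_of_isDomain hp (X_ne_zero n), totalDegree_X]
    have h1 := ih (Xop b n z) N (k + 1) (fun y' hy' => PA_Xop b n z N k hz y' hy') y h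
    omega

/-- A homogeneous polynomial of degree `d` changes the parity of the length by that of `d`. -/
theorem act_parity (F : Pol b) (d : ℕ) (hF : F.IsHomogeneous d) (x y : WG P)
    (h : act b F (bas x) y ≠ 0) : (inv b y⁻¹ + d + inv b x⁻¹) % 2 = 0 := by
  classical
  rw [F.as_sum, map_sum, LinearMap.sum_apply, Finsupp.finsetSum_apply] at h
  obtain ⟨s, hs, hne⟩ := Finset.exists_ne_zero_of_sum_ne_zero h
  have hc : coeff s F ≠ 0 := mem_support_iff.mp hs
  have h1 := PA_mono b s (coeff s F) (bas x) (inv b x⁻¹) 0 (fun y' hy' => by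
    have : x = y' := by
      by_contra hxy
      exact hy' (by simp [bas, hxy])
    rw [this]
    omega) y hne
  have h2 : (monomial s (coeff s F) : Pol b).IsHomogeneous d := by
    intro s' hs'
    rw [coeff_monomial] at hs'
    split_ifs at hs' with h3
    · rw [← h3]
      exact hF hc
    · exact absurd rfl hs'
  rw [h2.totalDegree (by rwa [Ne, monomial_eq_zero])] at h1
  omega

/-- the coefficients of `[Y(v)] c_SM(Y(u)°)` in terms of the action -/
theorem coeff_eq [Fintype (WG P)] (C : WG P → Coh b) (hC : IsCSM b C) (w₀ : WG P)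
    (hw : IsLong b w₀) (F : Pol b) (u : WG P) (a : WG P → ℚ)
    (ha : cl b F * C u = ∑ w, a w • C w) (w : WG P) :
    a w = act b F (bas (u⁻¹ * w₀)) (w⁻¹ * w₀) := by
  classical
  have h1 : Gam C w₀ (bas (u⁻¹ * w₀)) = C u := by
    rw [Gam_bas, mul_inv_rev, inv_inv, ← mul_assoc, mul_inv_cancel, one_mul]
  have h2 := Gam_act C hC w₀ hw F (bas (u⁻¹ * w₀))
  rw [h1, ha] at h2
  have h3 : Gam C w₀ (act b F (bas (u⁻¹ * w₀))) =
      ∑ w, act b F (bas (u⁻¹ * w₀)) (w⁻¹ * w₀) • C w := by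
    unfold Gam
    rw [Finsupp.linearCombination_apply,
      Finsupp.sum_fintype (act b F (bas (u⁻¹ * w₀))) (fun i a => a • C (w₀ * i⁻¹))
        fun i => zero_smul ℚ _]
    refine Fintype.sum_equiv ((Equiv.inv (WG P)).trans (Equiv.mulLeft w₀)) _ _ fun x => ?_
    have h3 : ((Equiv.inv (WG P)).trans (Equiv.mulLeft w₀)) x = w₀ * x⁻¹ := rfl
    rw [h3]
    have h4 : (w₀ * x⁻¹)⁻¹ * w₀ = x := by
      rw [mul_inv_rev, inv_inv, mul_assoc, inv_mul_cancel, mul_one]
    show act b F (bas (u⁻¹ * w₀)) x • C (w₀ * x⁻¹) =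
      act b F (bas (u⁻¹ * w₀)) ((w₀ * x⁻¹)⁻¹ * w₀) • C (w₀ * x⁻¹)
    rw [h4]
  rw [h3] at h2
  have h5 : ∑ w, (a w - act b F (bas (u⁻¹ * w₀)) (w⁻¹ * w₀)) • C w = 0 := by
    simp only [sub_smul, Finset.sum_sub_distrib]
    rw [h2, sub_self]
  have h6 := Fintype.linearIndependent_iff.1 (linearIndependent_csm C hC w₀ hw) _ h5 w
  exact sub_eq_zero.1 h6

/-- A nonzero coefficient has `l(u) + l(v) ≤ l(w)`, with equal parity. -/
theorem coeff_degree [Fintype (WG P)] (C : WG P → Coh b) (hC : IsCSM b C) (v : WG P)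
    (F : Pol b) (hF : IsSchub b v F) (u : WG P) (a : WG P → ℚ)
    (ha : cl b F * C u = ∑ w, a w • C w) (w : WG P) (h : a w ≠ 0) :
    inv b u + inv b v ≤ inv b w ∧ (inv b u + inv b v + inv b w) % 2 = 0 := by
  obtain ⟨w₀, hw⟩ := exists_isLong b
  rw [coeff_eq b C hC w₀ hw F u a ha w,
    act_eq_of_isSchub b v F _ hF (isSchub_comp b v F hF)] at h
  have hh := homogeneousComponent_isHomogeneous (inv b v) F
  have h1 := act_degree b _ _ hh _ _ h
  have h2 := act_parity b _ _ hh _ _ h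
  have e : ∀ x : WG P, inv b (x⁻¹ * w₀)⁻¹ + inv b x = inv b w₀ := fun x => by
    rw [inv_inv_eq, inv_mul_isLong b x w₀ hw]
  have e1 := e u
  have e2 := e w
  constructor <;> omega

/-- The coefficients with `l(w) ≤ l(u) + 4`, except for the Schubert structure constants. -/
theorem coeff_nonneg_four [Fintype (WG P)] (C : WG P → Coh b) (hC : IsCSM b C) (v : WG P)
    (F : Pol b) (hF : IsSchub b v F) (u : WG P) (a : WG P → ℚ)
    (ha : cl b F * C u = ∑ w, a w • C w) (w : WG P) (h4 : inv b w ≤ inv b u + 4)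
    (hs : inv b w = inv b u + inv b v → inv b v ≤ 2) : 0 ≤ a w := by
  by_cases h0 : a w = 0
  · exact h0.ge
  obtain ⟨h1, h2⟩ := coeff_degree b C hC v F hF u a ha w h0
  have hv : inv b v ≤ 2 := by omega
  obtain ⟨c, hc, hc'⟩ := (csmPos_le_two b C hC v hv).2 F hF u
  obtain ⟨w₀, hw⟩ := exists_isLong b
  rw [coeff_eq b C hC w₀ hw F u a ha w, ← coeff_eq b C hC w₀ hw F u c hc' w]
  exact hc w

end H28T
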