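import Pool.Agent.Helper28.CS3.Mod

/-!
# The cone of polynomials acting nonnegatively; the reduction rule (pieces CO)
-/

namespace H28T

open MvPolynomial Equiv

set_option linter.unusedSectionVars false

variable {ι M N : Type*} [Fintype ι] [AddCommGroup M] [Module ℚ M]
  [AddCommGroup N] [Module ℚ N] {P : RootPairing ι ℚ M N}

/-- nonnegative vectors -/
def NN (z : VV P) : Prop := ∀ x, 0 ≤ z x

theorem NN.zero : NN (0 : VV P) := fun _ => le_rfl

theorem NN.add {y z : VV P} (hy : NN y) (hz : NN z) : NN (y + z) := fun x => by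
  simpa using add_nonneg (hy x) (hz x)

theorem NN.smul {a : ℚ} (ha : 0 ≤ a) {z : VV P} (hz : NN z) : NN (a • z) := fun x => by
  simpa using mul_nonneg ha (hz x)

theorem NN.sum {κ : Type*} (s : Finset κ) (f : κ → VV P) (h : ∀ i ∈ s, NN (f i)) :
    NN (∑ i ∈ s, f i) := fun x => by
  rw [Finsupp.finsetSum_apply]
  exact Finset.sum_nonneg fun i hi => h i hi x

theorem NN.bas (x : WG P) : NN (bas x) := fun y => by
  classical
  unfold H28T.bas
  rw [Finsupp.single_apply]
  split_ifs <;> norm_num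

theorem NN.lm {z : VV P} (hz : NN z) (g : WG P) : NN (lm g z) := fun x => by
  rw [lm_apply]
  exact hz _

theorem vec_eq_sum (z : VV P) : z = z.sum fun x a => a • bas x := by
  conv_lhs => rw [← Finsupp.sum_single z]
  simp [bas]

/-- a linear map that is nonnegative on basis vectors is nonnegative on nonnegative vectors -/
theorem NN.map {f : Module.End ℚ (VV P)} (hf : ∀ x, NN (f (H28T.bas x))) {z : VV P} (hz : NN z) :
    NN (f z) := by
  rw [vec_eq_sum z, Finsupp.sum, map_sum]
  apply NN.sum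
  intro x _
  rw [map_smul]
  exact NN.smul (hz x) (hf x)

variable (b : P.Base) [P.IsRootSystem] [P.IsCrystallographic] [P.IsReduced]

/-- `F · x ≥ 0` for all `x ∈ W` -/
def PP (F : Pol b) : Prop := ∀ x, NN (act b F (bas x))

variable {b}

theorem PP.act {F : Pol b} (hF : PP b F) {z : VV P} (hz : NN z) : NN (H28T.act b F z) :=
  NN.map hF hz

theorem PP.mul {F G : Pol b} (hF : PP b F) (hG : PP b G) : PP b (F * G) := fun x => by
  rw [act_mul_apply]
  exact hF.act (hG x)

theorem PP.add {F G : Pol b} (hF : PP b F) (hG : PP b G) : PP b (F + G) := fun x => by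
  rw [map_add]
  exact NN.add (hF x) (hG x)

theorem PP.zero : PP b 0 := fun x => by
  rw [map_zero]
  exact NN.zero

theorem PP.one : PP b 1 := fun x => by
  rw [map_one]
  exact NN.bas x

theorem PP.sum {κ : Type*} (s : Finset κ) (f : κ → Pol b) (h : ∀ i ∈ s, PP b (f i)) :
    PP b (∑ i ∈ s, f i) := fun x => by
  rw [map_sum, LinearMap.sum_apply]
  exact NN.sum _ _ fun i hi => h i hi x

variable (b)

/-- CO1. **The reduction rule.** If `F` is invariant under `s_k` for `k ∈ J`, then it is enough to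
know `F · x ≥ 0` for those `x` with `x⁻¹ α_k > 0` for all `k ∈ J`.
Proof: induction on `inv x⁻¹`.  If `x⁻¹ α_k` is not positive for some `k ∈ J`, put `y = s_k x`;
then `y⁻¹ = x⁻¹ s_k` has one inversion less (`inv_mul_rf_of_neg`), and
`F · x = F · (s_k y) = s_k (F · y)` by `act_rf` (`∂_k F = 0`). -/
theorem PP_of_min (J : b.support → Prop) (F : Pol b) (hF : ∀ k, J k → sact b k F = F)
    (h : ∀ x : WG P, (∀ k, J k → b.IsPos ((x⁻¹).1 k)) → NN (act b F (bas x))) :
    PP b F := by
  have key : ∀ (n : ℕ) (x : WG P), inv b x⁻¹ = n → NN (H28T.act b F (bas x)) := by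
    intro n
    induction n using Nat.strong_induction_on with
    | _ n ih =>
      intro x hx
      by_cases hk : ∀ k, J k → b.IsPos ((x⁻¹).1 k)
      · exact h x hk
      · push Not at hk
        obtain ⟨k, hJ, hk⟩ := hk
        have h1 := inv_mul_rf_of_neg b x⁻¹ k hk
        have h2 : (rf P k * x)⁻¹ = x⁻¹ * rf P k := by rw [mul_inv_rev, rf_inv]
        have h3 := ih (inv b (x⁻¹ * rf P k)) (by omega) (rf P k * x) (by rw [h2])
        have h4 : (bas x : VV P) = H28T.lm (rf P k) (bas (rf P k * x)) := by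
          rw [lm_bas, ← mul_assoc, rf_mul_self, one_mul]
        rw [h4, act_rf, hF k hJ, dd1_eq_zero_of_inv b k F (hF k hJ), map_zero,
          LinearMap.zero_apply, add_zero]
        exact h3.lm _
  exact fun x => key _ x rfl

/-- CO2. `λ · x ≥ 0` if `⟨λ, β^∨⟩ ≥ 0` for all inversions `β` of `x⁻¹`. -/
theorem NN_Lop (a : b.support → ℚ) (x : WG P)
    (h : ∀ β, b.IsPos β → ¬ b.IsPos ((x⁻¹).1 β) → 0 ≤ ev b a β) : NN (Lop b a (bas x)) := by
  classical
  rw [Lop_bas]
  unfold lb
  apply NN.sum
  intro β _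
  by_cases h1 : b.IsPos β ∧ ¬ b.IsPos ((x⁻¹).1 β)
  · rw [if_pos h1]
    exact NN.smul (h β h1.1 h1.2) (NN.bas _)
  · rw [if_neg h1]
    exact NN.zero

end H28T
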