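import Pool.Agent.Helper28.CS3.Rep

/-!
# From the module `V` to cohomology (pieces CS)
-/

namespace H28T

open MvPolynomial Equiv

set_option linter.unusedSectionVars false

variable {ι M N : Type*} [Fintype ι] [AddCommGroup M] [Module ℚ M]
  [AddCommGroup N] [Module ℚ N] {P : RootPairing ι ℚ M N}
variable (b : P.Base) [P.IsRootSystem] [P.IsCrystallographic] [P.IsReduced]

theorem cl_eq_iff (f g : Pol b) : cl b f = cl b g ↔ f - g ∈ invIdeal b := by
  unfold cl
  exact Ideal.Quotient.eq

theorem cl_add (f g : Pol b) : cl b (f + g) = cl b f + cl b g := map_add _ _ _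
theorem cl_sub (f g : Pol b) : cl b (f - g) = cl b f - cl b g := map_sub _ _ _
theorem cl_mul (f g : Pol b) : cl b (f * g) = cl b f * cl b g := map_mul _ _ _
theorem cl_zero : cl b 0 = 0 := map_zero _

theorem cl_smul (a : ℚ) (g : Pol b) : cl b (C a * g) = a • cl b g := by
  rw [← MvPolynomial.smul_eq_C_mul]
  rfl

theorem exists_cl (x : Coh b) : ∃ f, x = cl b f := by
  obtain ⟨f, hf⟩ := Ideal.Quotient.mk_surjective x
  exact ⟨f, hf.symm⟩

/-- CS1a. `∂_i` preserves the ideal.  (`Submodule.span_induction`; `∂_i (g p) = ∂_i(g) p` for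
invariant `p`, `dd1_mul`, `dd1_mul_of_inv` with `mul_comm`.) -/
theorem dd1_mem (i : b.support) (f : Pol b) (h : f ∈ invIdeal b) : dd1 b i f ∈ invIdeal b := by
  suffices h1 : ∀ a : Pol b, dd1 b i (a * f) ∈ invIdeal b by
    have h2 := h1 1
    rwa [one_mul] at h2
  unfold invIdeal at h
  induction h using Submodule.span_induction with
  | mem p hp =>
    intro a
    rw [mul_comm a p, dd1_mul_of_inv b i p a (hp.1 i)]
    exact Ideal.mul_mem_right _ _ (Ideal.subset_span hp)
  | zero =>
    intro a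
    rw [mul_zero, dd1_zero]
    exact Ideal.zero_mem _
  | add x y _ _ hx hy =>
    intro a
    rw [mul_add, dd1_add]
    exact Ideal.add_mem _ (hx a) (hy a)
  | smul c x _ hx =>
    intro a
    rw [smul_eq_mul, ← mul_assoc]
    exact hx (a * c)

/-- CS1b. `s_i` preserves the ideal: `s_i f = f - α_i ∂_i f`. -/
theorem sact_mem (i : b.support) (f : Pol b) (h : f ∈ invIdeal b) : sact b i f ∈ invIdeal b := by
  have h1 : sact b i f = f - rt b i * dd1 b i f := by
    rw [dd1_spec]
    ring
  rw [h1]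
  exact Ideal.sub_mem _ h (Ideal.mul_mem_left _ _ (dd1_mem b i f h))

/-- CS1c. `T_i` is well defined on cohomology. -/
theorem cl_TT_congr (i : b.support) (f g : Pol b) (h : cl b f = cl b g) :
    cl b (TT b i f) = cl b (TT b i g) := by
  rw [cl_eq_iff] at h ⊢
  have h1 : TT b i f - TT b i g = dd1 b i (f - g) - sact b i (f - g) := by
    unfold TT
    rw [dd1_sub, map_sub]
    ring
  rw [h1]
  exact Ideal.sub_mem _ (dd1_mem b i _ h) (sact_mem b i _ h)

theorem TT_add (i : b.support) (f g : Pol b) : TT b i (f + g) = TT b i f + TT b i g := by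
  unfold TT
  rw [dd1_add, map_add]
  ring

theorem TT_C_mul (i : b.support) (a : ℚ) (g : Pol b) : TT b i (C a * g) = C a * TT b i g := by
  unfold TT
  rw [dd1_C_mul, map_mul, show sact b i (C a) = C a by simp]
  ring

theorem TT_zero (i : b.support) : TT b i 0 = 0 := by
  unfold TT
  rw [dd1_zero, map_zero, sub_zero]

/-- CS1d. `T_i (s_i(λ) g) + ⟨λ, α_i^∨⟩ g = λ T_i g`.
(`dd1_mul`, `dd1_lin`, `sact_lin`, `sact_sact`; `sw i a i = - a i` by `pairing_same`.) -/
theorem TT_lin (i : b.support) (a : b.support → ℚ) (g : Pol b) :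
    TT b i (lin b (sw b i a) * g) + C (a i) * g = lin b a * TT b i g := by
  have h1 : sact b i (lin b (sw b i a)) = lin b a := by
    rw [← sact_lin, sact_sact]
  have h2 : sw b i a i = -a i := by
    unfold sw
    rw [P.pairing_same]
    ring
  unfold TT
  rw [dd1_mul, map_mul, h1, dd1_lin, h2, map_neg]
  ring

/-- CS2a. Invariants act on `V` by their constant term. (`induction_left`; `act_rf` with
`∂_i F = 0`, `act_one'`; then `induction_bas`.) -/
theorem act_of_inv (F : Pol b) (h : ∀ i, sact b i F = F) (z : VV P) :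
    act b F z = constantCoeff F • z := by
  have key : ∀ x : WG P, act b F (bas x) = constantCoeff F • (bas x : VV P) := by
    intro x
    refine induction_left (b := b)
      (fun x => act b F (bas x) = constantCoeff F • (bas x : VV P)) ?_ ?_ x
    · exact act_one' b F
    · intro k y ih
      rw [← lm_bas, act_rf, h k, dd1_eq_zero_of_inv b k F (h k), map_zero, LinearMap.zero_apply,
        add_zero, ih, map_smul]
  induction z using induction_bas with
  | h0 => rw [map_zero, smul_zero]
  | hadd y z hy hz => rw [map_add, hy, hz, smul_add]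
  | hb x a => rw [map_smul, key x, smul_comm]

/-- CS2b. The ideal acts as zero. (`Submodule.span_induction`.) -/
theorem act_of_mem (F : Pol b) (h : F ∈ invIdeal b) (z : VV P) : act b F z = 0 := by
  unfold invIdeal at h
  induction h using Submodule.span_induction generalizing z with
  | mem p hp => rw [act_of_inv b p hp.1 z, hp.2, zero_smul]
  | zero => rw [map_zero, LinearMap.zero_apply]
  | add x y _ _ hx hy => rw [map_add, LinearMap.add_apply, hx, hy, add_zero]
  | smul c x _ hx => rw [smul_eq_mul, act_mul_apply, hx, map_zero]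

/-! ### averaging -/

/-- the Weyl group on polynomials: `ω_j ↦ x ω_j`, with `⟨x λ, β^∨⟩ = ⟨λ, (x⁻¹ β)^∨⟩` -/
noncomputable def wact (x : WG P) : Pol b →ₐ[ℚ] Pol b :=
  aeval fun j => lin b fun k => cf b ((x⁻¹).1 (k : ι)) j

/-- CS3a. -/
theorem wact_lin (x : WG P) (a : b.support → ℚ) :
    wact b x (lin b a) = lin b fun k => ev b a ((x⁻¹).1 (k : ι)) := by
  classical
  unfold wact
  rw [lin, map_sum]
  simp only [map_mul, aeval_X, MvPolynomial.algHom_C, MvPolynomial.algebraMap_eq]
  simp only [lin, Finset.mul_sum]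
  rw [Finset.sum_comm]
  refine Finset.sum_congr rfl fun k _ => ?_
  simp only [ev, map_sum, map_mul, Finset.sum_mul, mul_assoc]

/-- CS3b. `X j = lin (Pi.single j 1)`; on variables: `cf_rf` and `cf_simple`. -/
theorem wact_rf (i : b.support) : wact b (rf P (i : ι)) = sact b i := by
  classical
  refine MvPolynomial.algHom_ext fun j => ?_
  rw [wact, aeval_X, rf_inv, sact, aeval_X]
  simp only [lin, rt, rc, cf_rf, cf_simple, map_sub, sub_mul, Finset.sum_sub_distrib]
  by_cases h : j = i
  · subst h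
    simp
  · simp [h]

/-- CS3c. (On variables, by CS3a and `cf_act`.) -/
theorem wact_mul (x y : WG P) (F : Pol b) : wact b (x * y) F = wact b x (wact b y F) := by
  have h : wact b (x * y) = (wact b x).comp (wact b y) := by
    refine MvPolynomial.algHom_ext fun j => ?_
    rw [AlgHom.comp_apply]
    have h1 : wact b y (X j) = lin b fun k => cf b ((y⁻¹).1 (k : ι)) j := by
      rw [wact, aeval_X]
    rw [h1, wact_lin, wact, aeval_X, mul_inv_rev]
    congr 1
    funext k
    have h2 : (y⁻¹ * x⁻¹).1 (k : ι) = (y⁻¹).1 ((x⁻¹).1 (k : ι)) := rfl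
    rw [h2, cf_act, ev]
    exact Finset.sum_congr rfl fun l _ => mul_comm _ _
  rw [h, AlgHom.comp_apply]

/-- CS3d. -/
theorem constantCoeff_wact (x : WG P) (F : Pol b) :
    constantCoeff (wact b x F) = constantCoeff F := by
  induction F using MvPolynomial.induction_on with
  | C a => rw [MvPolynomial.algHom_C, MvPolynomial.algebraMap_eq]
  | add p q hp hq => rw [map_add, map_add, hp, hq, map_add]
  | mul_X p j hp =>
    have h1 : wact b x (X j) = lin b fun k => cf b ((x⁻¹).1 (k : ι)) j := by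
      rw [wact, aeval_X]
    rw [map_mul, map_mul, h1, map_mul, constantCoeff_X, mul_zero]
    simp [lin]

/-- CS3e. If `∂_i F ∈ I` for all `i`, i.e. `F - s_i F ∈ I`, and `ε(F) = 0`, then `F ∈ I`.
Proof: `F - x F ∈ I` for all `x ∈ W`: by `induction_left`, `F - s_i (x F) =
(F - s_i F) + s_i (F - x F)` (`wact_mul`, `wact_rf`, `sact_mem`; `wact 1 = id`).  Hence
`|W| F - Σ_x x F ∈ I`, and the sum is invariant (`wact_mul`, `wact_rf`, `Equiv.sum_comp`) without
constant term (CS3d), so it is in `I` too.  Divide by `|W|` (a rational constant: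
`F = C |W|⁻¹ * (C |W| * F)`). `WG P` is a finite type (`Fintype.ofFinite`). -/
theorem mem_of_dd1_mem (F : Pol b) (h : ∀ i, dd1 b i F ∈ invIdeal b)
    (h0 : constantCoeff F = 0) : F ∈ invIdeal b := by
  classical
  have : Fintype (WG P) := Fintype.ofFinite _
  have hone : ∀ G : Pol b, wact b 1 G = G := by
    intro G
    have h1 : wact b (1 : WG P) = AlgHom.id ℚ (Pol b) := by
      refine MvPolynomial.algHom_ext fun j => ?_
      rw [wact, aeval_X, AlgHom.id_apply, _root_.inv_one]
      have h2 : ∀ k : b.support, cf b ((1 : WG P).1 (k : ι)) j = if j = k then 1 else 0 := by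
        intro k
        exact cf_simple b k j
      simp only [h2]
      simp [lin]
    rw [h1, AlgHom.id_apply]
  have hsub : ∀ i, F - sact b i F ∈ invIdeal b := by
    intro i
    rw [← dd1_spec]
    exact Ideal.mul_mem_left _ _ (h i)
  have hx : ∀ x : WG P, F - wact b x F ∈ invIdeal b := by
    intro x
    refine induction_left (b := b) (fun x => F - wact b x F ∈ invIdeal b) ?_ ?_ x
    · simp only [hone, sub_self]
      exact Ideal.zero_mem _
    · intro k x ih
      have h1 : F - wact b (rf P k * x) F =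
          (F - sact b k F) + sact b k (F - wact b x F) := by
        rw [wact_mul, wact_rf, map_sub]
        ring
      simp only [h1]
      exact Ideal.add_mem _ (hsub k) (sact_mem b k _ ih)
  have hsum : (∑ x : WG P, wact b x F) ∈ invIdeal b := by
    refine Ideal.subset_span ⟨fun i => ?_, ?_⟩
    · rw [map_sum]
      have h1 : ∀ x : WG P, sact b i (wact b x F) = wact b (rf P i * x) F := by
        intro x
        rw [wact_mul, wact_rf]
      simp only [h1]
      exact Equiv.sum_comp (Equiv.mulLeft (rf P (i : ι))) fun x => wact b x F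
    · rw [map_sum]
      simp only [constantCoeff_wact, h0, Finset.sum_const_zero]
  have hall : (Fintype.card (WG P) : Pol b) * F ∈ invIdeal b := by
    have h1 : (Fintype.card (WG P) : Pol b) * F =
        (∑ x : WG P, (F - wact b x F)) + ∑ x : WG P, wact b x F := by
      rw [Finset.sum_sub_distrib, sub_add_cancel, Finset.sum_const, Finset.card_univ,
        nsmul_eq_mul]
    rw [h1]
    exact Ideal.add_mem _ (Ideal.sum_mem _ fun x _ => hx x) hsum
  have hcard : ((Fintype.card (WG P) : ℚ)) ≠ 0 := by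
    have : Fintype.card (WG P) ≠ 0 := Fintype.card_ne_zero
    exact_mod_cast this
  have h2 : F = C ((Fintype.card (WG P) : ℚ)⁻¹) * ((Fintype.card (WG P) : Pol b) * F) := by
    have h3 : (Fintype.card (WG P) : Pol b) = C (Fintype.card (WG P) : ℚ) := by
      rw [map_natCast]
    rw [h3, ← mul_assoc, ← C_mul, inv_mul_cancel₀ hcard, C_1, one_mul]
  rw [h2]
  exact Ideal.mul_mem_left _ _ hall

/-- CS4. A homogeneous polynomial of degree `d` such that all `ε(∂_l F)` vanish is in the ideal.
Induction on `d`: `d = 0`: `F = C (ε F) = 0`.  `d + 1`: CS3e and the hypothesis for `∂_i F`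
(`dd1_homog`). -/
theorem mem_of_null_homog (F : Pol b) (d : ℕ) (hF : F.IsHomogeneous d)
    (h : ∀ l, constantCoeff (dd b l F) = 0) : F ∈ invIdeal b := by
  induction d generalizing F with
  | zero =>
    have h0 : constantCoeff F = 0 := h []
    have h1 : F = C (coeff 0 F) :=
      totalDegree_eq_zero_iff_eq_C.1 ((totalDegree_zero_iff_isHomogeneous _).2 hF)
    rw [h1, show coeff 0 F = 0 from h0, C_0]
    exact Ideal.zero_mem _
  | succ d ih =>
    exact mem_of_dd1_mem b F
      (fun i => ih (dd1 b i F) (dd1_homog b i F d hF) fun l => h (i :: l)) (h [])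

/-- CS5. A polynomial acting as zero is zero in cohomology.
(`null_of_act_eq_zero`; the homogeneous components of `F` are null by RE4a, RE4b;
`F = Σ_d F_d`.) -/
theorem mem_of_act_eq_zero (F : Pol b) (h : ∀ z, act b F z = 0) : F ∈ invIdeal b := by
  rw [← sum_homogeneousComponent F]
  refine Ideal.sum_mem _ fun d _ => ?_
  refine mem_of_null_homog b _ d (homogeneousComponent_isHomogeneous d F) fun l => ?_
  by_cases hl : l.length = d
  · rw [← hl, ← constantCoeff_dd_comp]
    exact null_of_act_eq_zero b F h l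
  · exact constantCoeff_dd_of_ne b l _ d (homogeneousComponent_isHomogeneous d F) hl

/-- CS6. The class of a point is killed by all `λ`.  (CS5; `act_of_isLong`, `act_lin`,
`Lop_bas`, `lb_one`, `induction_bas`.) -/
theorem lin_mul_pt (w₀ : WG P) (hw : IsLong b w₀) (F : Pol b) (hF : IsSchub b w₀ F)
    (a : b.support → ℚ) : lin b a * F ∈ invIdeal b := by
  classical
  refine mem_of_act_eq_zero b _ fun z => ?_
  rw [act_mul_apply, act_lin]
  induction z using induction_bas with
  | h0 => rw [map_zero, map_zero]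
  | hadd y z hy hz => rw [map_add, map_add, hy, hz, add_zero]
  | hb x c =>
    rw [map_smul, map_smul, act_of_isLong b w₀ hw F hF x]
    by_cases hx : x = w₀⁻¹
    · rw [if_pos hx, Lop_bas, lb_one, smul_zero]
    · rw [if_neg hx, map_zero, smul_zero]

/-! ### the main link -/

variable {b}

/-- the linear map `x ↦ c_SM(Y(w₀ x⁻¹)°)` -/
noncomputable def Gam (C : WG P → Coh b) (w₀ : WG P) : VV P →ₗ[ℚ] Coh b :=
  Finsupp.linearCombination ℚ fun x => C (w₀ * x⁻¹)

theorem Gam_bas (C : WG P → Coh b) (w₀ x : WG P) : Gam C w₀ (bas x) = C (w₀ * x⁻¹) := by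
  simp [Gam, bas]

/-- CS7a. Left multiplication by `s_i` becomes `T_i`.
Proof: `induction_bas`, with representatives: for `z = Σ z_y bas y`, `C (w₀ y⁻¹) = cl g_y`,
`C (w₀ (s_i y)⁻¹) = C (w₀ y⁻¹ s_i) = cl (T_i g_y)` (`IsCSM.step`, `mul_inv_rev`, `rf_inv`).
Statement to prove by induction: for all `z` there is `h` with `Gam z = cl h` and
`Gam (lm s_i z) = cl (TT i h)`; then `cl_TT_congr`. -/
theorem Gam_rf (C : WG P → Coh b) (hC : IsCSM b C) (w₀ : WG P) (i : b.support) (z : VV P)
    (h : Pol b) (hz : Gam C w₀ z = cl b h) : Gam C w₀ (lm (rf P i) z) = cl b (TT b i h) := by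
  have key : ∀ z : VV P, ∃ g : Pol b, Gam C w₀ z = cl b g ∧
      Gam C w₀ (lm (rf P i) z) = cl b (TT b i g) := by
    intro z
    induction z using induction_bas with
    | h0 =>
      refine ⟨0, ?_, ?_⟩
      · rw [map_zero, cl_zero]
      · rw [map_zero, map_zero, TT_zero, cl_zero]
    | hadd y z hy hz =>
      obtain ⟨g, hg, hg'⟩ := hy
      obtain ⟨k, hk, hk'⟩ := hz
      refine ⟨g + k, ?_, ?_⟩
      · rw [map_add, hg, hk, cl_add]
      · rw [map_add, map_add, hg', hk', TT_add, cl_add]
    | hb x a =>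
      obtain ⟨f, hf⟩ := exists_cl b (C (w₀ * x⁻¹))
      refine ⟨MvPolynomial.C a * f, ?_, ?_⟩
      · rw [map_smul, Gam_bas, hf, cl_smul]
      · rw [map_smul, map_smul, lm_bas, Gam_bas, mul_inv_rev, rf_inv, ← mul_assoc,
          hC.step _ i f hf, TT_C_mul, cl_smul]
  obtain ⟨g, hg, hg'⟩ := key z
  rw [hg']
  exact cl_TT_congr b i g h (hg.symm.trans hz)

/-- CS7b. `Gam (λ · x) = λ Gam x`.
Proof: `induction_left` on `x`, for all `a`.  `x = 1`: `lb_one`, and
`Gam (bas 1) = C w₀ = cl F` (`IsCSM.pt`), `lin_mul_pt`.  Step: `Lop_rf`, `Gam_rf`, the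
hypothesis for `sw i a`, and `TT_lin`. -/
theorem Gam_Lop (C : WG P → Coh b) (hC : IsCSM b C) (w₀ : WG P) (hw : IsLong b w₀)
    (a : b.support → ℚ) (x : WG P) :
    Gam C w₀ (Lop b a (bas x)) = cl b (lin b a) * Gam C w₀ (bas x) := by
  induction x using induction_left b generalizing a with
  | h1 =>
    obtain ⟨F, hF, hCF⟩ := hC.pt w₀ hw
    rw [Lop_bas, lb_one, map_zero, Gam_bas, _root_.inv_one, mul_one, hCF, ← cl_mul, ← cl_zero b,
      eq_comm, cl_eq_iff, sub_zero]
    exact lin_mul_pt b w₀ hw F hF a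
  | hs k x ih =>
    obtain ⟨g, hg⟩ := exists_cl b (Gam C w₀ (bas x))
    rw [← lm_bas, Lop_rf, map_add, map_smul,
      Gam_rf C hC w₀ k (Lop b (sw b k a) (bas x)) (lin b (sw b k a) * g) (by
        rw [ih, hg, cl_mul]),
      Gam_rf C hC w₀ k (bas x) g hg, hg, ← cl_smul, ← cl_add, TT_lin, cl_mul]

/-- CS7c. `Gam (F · z) = F Gam z`. (`MvPolynomial.induction_on F`, `X j = lin (Pi.single j 1)`,
CS7b extended linearly.) -/
theorem Gam_act (C : WG P → Coh b) (hC : IsCSM b C) (w₀ : WG P) (hw : IsLong b w₀)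
    (F : Pol b) (z : VV P) : Gam C w₀ (act b F z) = cl b F * Gam C w₀ z := by
  classical
  have hL : ∀ (a : b.support → ℚ) (z : VV P),
      Gam C w₀ (Lop b a z) = cl b (lin b a) * Gam C w₀ z := by
    intro a z
    induction z using induction_bas with
    | h0 => rw [map_zero, map_zero, mul_zero]
    | hadd y z hy hz => rw [map_add, map_add, map_add, hy, hz, mul_add]
    | hb x c => rw [map_smul, map_smul, map_smul, Gam_Lop C hC w₀ hw a x, mul_smul_comm]
  induction F using MvPolynomial.induction_on generalizing z with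
  | C a =>
    obtain ⟨g, hg⟩ := exists_cl b (Gam C w₀ z)
    rw [act_C_apply, map_smul, hg, ← cl_smul, cl_mul]
  | add p q hp hq =>
    rw [map_add, LinearMap.add_apply, map_add, hp, hq, cl_add, add_mul]
  | mul_X p j hp =>
    have hX : (X j : Pol b) = lin b (Pi.single j 1) := by
      unfold lin
      rw [Finset.sum_eq_single j]
      · rw [Pi.single_eq_same, C_1, one_mul]
      · intro k _ hk
        rw [Pi.single_eq_of_ne hk, C_0, zero_mul]
      · intro h
        exact absurd (Finset.mem_univ j) h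
    rw [act_mul_apply, hp, hX, act_lin, hL, cl_mul, mul_assoc]

/-- CS8. **Positivity in `V` gives positivity in cohomology.**
Proof: `x = u⁻¹ * w₀` has `Gam (bas x) = C (w₀ w₀⁻¹ u) = C u`; `F · x = Σ_y z_y bas y` with
`z_y ≥ 0`, `Gam` of it is `Σ_y z_y C (w₀ y⁻¹)`; reindex by `w = w₀ y⁻¹`
(`Finsupp.linearCombination_apply`, sum over the finite group). -/
theorem nonneg_of_PP (C : WG P → Coh b) (hC : IsCSM b C) (w₀ : WG P) (hw : IsLong b w₀)
    (F : Pol b) (hF : PP b F) [Fintype (WG P)] (u : WG P) :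
    ∃ a : WG P → ℚ, (∀ w, 0 ≤ a w) ∧ cl b F * C u = ∑ w, a w • C w := by
  classical
  have h1 : Gam C w₀ (bas (u⁻¹ * w₀)) = C u := by
    rw [Gam_bas, mul_inv_rev, inv_inv, ← mul_assoc, mul_inv_cancel, one_mul]
  have h2 := Gam_act C hC w₀ hw F (bas (u⁻¹ * w₀))
  rw [h1] at h2
  refine ⟨fun w => act b F (bas (u⁻¹ * w₀)) (w⁻¹ * w₀), fun w => hF _ _, ?_⟩
  rw [← h2]
  unfold Gam
  rw [Finsupp.linearCombination_apply,
    Finsupp.sum_fintype (act b F (bas (u⁻¹ * w₀))) (fun i a => a • C (w₀ * i⁻¹))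
      fun i => zero_smul ℚ _]
  refine Fintype.sum_equiv ((Equiv.inv (WG P)).trans (Equiv.mulLeft w₀)) _ _ fun x => ?_
  have h3 : ((Equiv.inv (WG P)).trans (Equiv.mulLeft w₀)) x = w₀ * x⁻¹ := rfl
  rw [h3]
  have h4 : (w₀ * x⁻¹)⁻¹ * w₀ = x := by
    rw [mul_inv_rev, inv_inv, mul_assoc, inv_mul_cancel, mul_one]
  show act b F (bas (u⁻¹ * w₀)) x • C (w₀ * x⁻¹) =
    act b F (bas (u⁻¹ * w₀)) ((w₀ * x⁻¹)⁻¹ * w₀) • C (w₀ * x⁻¹)
  rw [h4]

/-- CS9. **The classes `c_SM(Y(w)°)` are linearly independent.**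
Proof: `Gam` is injective: if `z ≠ 0`, take `G`, `c` from `exists_act_eq` (with `F` from
`IsCSM.pt`); then `cl G * Gam z = Gam (c • bas 1) = c • C w₀ = c • cl F ≠ 0`, because
`F ∉ invIdeal` (`act_of_mem` and `act_of_isLong`: `F` acts nontrivially).  Then
`C w = Gam (bas (w⁻¹ w₀))`, and `w ↦ bas (w⁻¹ w₀)` is linearly independent. -/
theorem linearIndependent_csm (C : WG P → Coh b) (hC : IsCSM b C) (w₀ : WG P)
    (hw : IsLong b w₀) : LinearIndependent ℚ C := by
  classical
  obtain ⟨F, hF, hCF⟩ := hC.pt w₀ hw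
  have hF0 : cl b F ≠ 0 := by
    intro h
    have hmem : F ∈ invIdeal b := by
      rw [← cl_zero b, cl_eq_iff, sub_zero] at h
      exact h
    have h1 := act_of_mem b F hmem (bas w₀⁻¹)
    rw [act_of_isLong b w₀ hw F hF w₀⁻¹, if_pos rfl] at h1
    exact one_ne_zero (Finsupp.single_eq_zero.mp h1)
  have hker : LinearMap.ker (Gam C w₀) = ⊥ := by
    rw [LinearMap.ker_eq_bot']
    intro z hz
    by_contra hz0
    obtain ⟨G, c, hc, hG⟩ := exists_act_eq b w₀ hw F hF z hz0
    have h1 := Gam_act C hC w₀ hw G z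
    rw [hG, map_smul, Gam_bas, _root_.inv_one, mul_one, hz, mul_zero, hCF] at h1
    rcases smul_eq_zero.mp h1 with h2 | h2
    · exact hc h2
    · exact hF0 h2
  have hinj : Function.Injective fun w : WG P => w⁻¹ * w₀ := by
    intro u v huv
    exact inv_injective (mul_right_cancel huv)
  have hli : LinearIndependent ℚ fun w : WG P => (bas (w⁻¹ * w₀) : VV P) :=
    (Finsupp.linearIndependent_single_one ℚ (WG P)).comp _ hinj
  have hCeq : C = Gam C w₀ ∘ fun w : WG P => (bas (w⁻¹ * w₀) : VV P) := by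
    funext w
    rw [Function.comp_apply, Gam_bas]
    congr 1
    rw [mul_inv_rev, inv_inv, ← mul_assoc, mul_inv_cancel, one_mul]
  rw [hCeq]
  exact hli.map' _ hker

end H28T
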