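import Mathlib

/-!
# CSM expansion of CSM classes times Schubert classes, all types: definitions

`P` is a reduced crystallographic root system with base `b` (the root system of `G` with the
simple roots of `B`), `WG P` its Weyl group (as a group of permutations of the roots),
`Pol b = ℚ[ω_j]` the ring of polynomials in the fundamental weights,
`Coh b = Pol b / (invariants without constant term) = H^*(G/B; ℚ)` (Borel),
`dd1` the divided differences, `TT i = ∂_i - s_i` the Aluffi-Mihalcea operators,
`IsCSM` the classes `c_SM(Y(w)°)`, `IsSchub` the polynomials representing `[Y(v)]`.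
-/

namespace H28T

open MvPolynomial Equiv

set_option linter.unusedSectionVars false

variable {ι M N : Type*} [Fintype ι] [AddCommGroup M] [Module ℚ M]
  [AddCommGroup N] [Module ℚ N]

/-- The Weyl group, as the group of permutations of the set of roots generated by the
reflections. -/
def WG (P : RootPairing ι ℚ M N) : Subgroup (Perm ι) :=
  Subgroup.closure (Set.range P.reflectionPerm)

variable {P : RootPairing ι ℚ M N}

/-- The reflection in the root `β`, as an element of the Weyl group. -/
def rf (P : RootPairing ι ℚ M N) (β : ι) : WG P :=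
  ⟨P.reflectionPerm β, Subgroup.subset_closure ⟨β, rfl⟩⟩

variable (b : P.Base)

/-- The polynomial ring in the fundamental weights `X j = ω_j`. -/
abbrev Pol (b : P.Base) := MvPolynomial b.support ℚ

/-- The weight with coordinates `a j = ⟨λ, α_j^∨⟩`, as a linear polynomial `Σ_j a_j ω_j`. -/
noncomputable def lin (a : b.support → ℚ) : Pol b := ∑ j, C (a j) * X j

/-- The coordinates of the simple root `α_i` with respect to the fundamental weights. -/
def rc (i : b.support) (k : b.support) : ℚ := P.pairing i k

/-- The simple root `α_i` as a linear polynomial. -/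
noncomputable def rt (i : b.support) : Pol b := lin b (rc b i)

/-- The simple reflection `s_i` on polynomials: `ω_i ↦ ω_i - α_i`, `ω_j ↦ ω_j` for `j ≠ i`. -/
noncomputable def sact (i : b.support) : Pol b →ₐ[ℚ] Pol b :=
  open Classical in aeval fun j => if j = i then X j - rt b i else X j

theorem coeff_rt (i j : b.support) : coeff (Finsupp.single j 1) (rt b i) = P.pairing i j := by
  classical
  simp only [rt, lin, rc, coeff_sum, coeff_C_mul, coeff_X, Finsupp.single_left_inj one_ne_zero]
  simp

theorem rt_ne_zero (i : b.support) : rt b i ≠ 0 := by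
  intro h
  have h1 := coeff_rt b i i
  rw [h, coeff_zero, P.pairing_same] at h1
  norm_num at h1

theorem exists_dd1 (i : b.support) (f : Pol b) : ∃ g : Pol b, rt b i * g = f - sact b i f := by
  classical
  induction f using MvPolynomial.induction_on with
  | C a => exact ⟨0, by simp⟩
  | add p q hp hq =>
    obtain ⟨g, hg⟩ := hp
    obtain ⟨h, hh⟩ := hq
    exact ⟨g + h, by rw [mul_add, hg, hh, map_add]; ring⟩
  | mul_X p j hp =>
    obtain ⟨g, hg⟩ := hp
    have hj : ∃ c : Pol b, rt b i * c = X j - sact b i (X j) := by
      by_cases h1 : j = i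
      · exact ⟨1, by simp [sact, h1]⟩
      · exact ⟨0, by simp [sact, h1]⟩
    obtain ⟨c, hc⟩ := hj
    refine ⟨g * X j + sact b i p * c, ?_⟩
    rw [map_mul]
    linear_combination (X j : Pol b) * hg + sact b i p * hc

/-- The divided difference operator `∂_i f = (f - s_i f) / α_i`. -/
noncomputable def dd1 (i : b.support) (f : Pol b) : Pol b := (exists_dd1 b i f).choose

theorem dd1_spec (i : b.support) (f : Pol b) : rt b i * dd1 b i f = f - sact b i f :=
  (exists_dd1 b i f).choose_spec

/-- `dd l f = ∂_{k_r} ⋯ ∂_{k_1} f` for `l = [k_1, ..., k_r]` (the head is applied first). -/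
noncomputable def dd : List b.support → Pol b → Pol b
  | [], f => f
  | k :: l, f => dd l (dd1 b k f)

/-- The product `s_{k_r} ⋯ s_{k_1}` for `l = [k_1, ..., k_r]`. -/
def wp : List b.support → WG P
  | [] => 1
  | k :: l => wp l * rf P k

/-- The length of `w`: the number of positive roots `β` with `w β < 0`. -/
noncomputable def inv (w : WG P) : ℕ :=
  open Classical in (Finset.univ.filter fun β : ι => b.IsPos β ∧ ¬ b.IsPos (w.1 β)).card

/-- `F` represents the Schubert class `[Y(v)]`: for every word `l` in the simple reflections, the
constant term of `∂_l F` is `1` if `l` is a reduced word of `v`, and `0` otherwise. -/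
def IsSchub (v : WG P) (F : Pol b) : Prop :=
  ∀ l : List b.support,
    open Classical in constantCoeff (dd b l F) = if wp b l = v ∧ l.length = inv b v then 1 else 0

/-- The ideal generated by the invariants without constant term. -/
noncomputable def invIdeal : Ideal (Pol b) :=
  Ideal.span {p | (∀ i, sact b i p = p) ∧ constantCoeff p = 0}

/-- The cohomology ring `H^*(G/B; ℚ)` (Borel presentation). -/
abbrev Coh (b : P.Base) := Pol b ⧸ invIdeal b

/-- The class in cohomology of a polynomial. -/
noncomputable def cl (F : Pol b) : Coh b := Ideal.Quotient.mk (invIdeal b) F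

/-- `w` is the longest element: it makes all positive roots negative. -/
def IsLong (w : WG P) : Prop := ∀ β, b.IsPos β → ¬ b.IsPos (w.1 β)

/-- The Aluffi-Mihalcea operator `T_i = ∂_i - s_i`. -/
noncomputable def TT (i : b.support) (f : Pol b) : Pol b := dd1 b i f - sact b i f

/-- `C w = c_SM(Y(w)°)` for all `w`: for the longest element this is the class of a point,
i.e. the Schubert class `[Y(w_0)]`, and `C(w s_i) = T_i C(w)` (Aluffi and Mihalcea). -/
structure IsCSM (C : WG P → Coh b) : Prop where
  pt : ∀ w, IsLong b w → ∃ F, IsSchub b w F ∧ C w = cl b F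
  step : ∀ (w : WG P) (i : b.support) (f : Pol b), C w = cl b f → C (w * rf P i) = cl b (TT b i f)

/-! ### walks -/

/-- The weights `μ_0, μ_1, ...` of the walk `f` in the Dynkin diagram, in coordinates with respect
to the fundamental weights: `μ_0 = ω_{f 0}`, `μ_{t+1} = s_{f t} μ_t`. -/
noncomputable def wt (f : ℕ → b.support) : ℕ → b.support → ℚ
  | 0 => open Classical in fun j => if j = f 0 then 1 else 0
  | t + 1 => fun j => wt f t j - wt f t (f t) * P.pairing (f t) j

/-- The walk `f 0, ..., f (K-1)` is straight: for `t < K` the weight `μ_t` is positive on the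
simple coroot of `f t`, and it is zero on all other simple coroots, except possibly on that of
`f (t-1)`. -/
def Straight (f : ℕ → b.support) (K : ℕ) : Prop :=
  ∀ t < K, 0 < wt b f t (f t) ∧ ∀ j, j ≠ f t → (∀ s, s + 1 = t → j ≠ f s) → wt b f t j = 0

/-- The word of the hook-shaped element of a walk: `wp` of it is
`s_{f(m-r)} ⋯ s_{f(m-1)} · s_{f(m+a)} ⋯ s_{f(m+1)} · s_{f(m)}`. -/
def hookL (f : ℕ → b.support) (m a r : ℕ) : List b.support :=
  (List.range (a + 1)).map (fun t => f (m + t)) ++ (List.range r).map fun t => f (m - 1 - t)

/-! ### basic lemmas -/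

variable {b}

/-- uniqueness of the quotient -/
theorem dd1_unique (i : b.support) (f g : Pol b) (h : rt b i * g = f - sact b i f) :
    dd1 b i f = g :=
  mul_left_cancel₀ (rt_ne_zero b i) ((dd1_spec b i f).trans h.symm)

theorem dd1_add (i : b.support) (f g : Pol b) : dd1 b i (f + g) = dd1 b i f + dd1 b i g := by
  apply dd1_unique
  rw [mul_add, dd1_spec, dd1_spec, map_add]
  ring

theorem dd1_mul (i : b.support) (f g : Pol b) :
    dd1 b i (f * g) = dd1 b i f * g + sact b i f * dd1 b i g := by
  apply dd1_unique
  rw [map_mul]
  linear_combination g * dd1_spec b i f + sact b i f * dd1_spec b i g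

end H28T
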