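import Pool.Agent.Helper28.CS3.Defs

/-!
# Definitions: positivity, leaf chains, the walks of types B, C and D
-/

namespace H28T

open MvPolynomial Equiv

set_option linter.unusedSectionVars false

variable {ι M N : Type*} [Fintype ι] [AddCommGroup M] [Module ℚ M]
  [AddCommGroup N] [Module ℚ N] {P : RootPairing ι ℚ M N}
variable (b : P.Base) [P.IsRootSystem] [P.IsCrystallographic] [P.IsReduced]

/-- The class `[Y(v)]` exists as a polynomial `F`, and `[Y(v)] · c_SM(Y(u)°)` is, for all `u`, a
nonnegative combination of the classes `c_SM(Y(w)°) = C w`. -/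
def CSMPos [Fintype (WG P)] (C : WG P → Coh b) (v : WG P) : Prop :=
  (∃ F, IsSchub b v F) ∧ ∀ F, IsSchub b v F → ∀ u : WG P,
    ∃ a : WG P → ℚ, (∀ w, 0 ≤ a w) ∧ cl b F * C u = ∑ w, a w • C w

/-- `f 0, ..., f (K-1)` is a path in the Dynkin diagram which starts at a leaf `f 0` and is not
joined to the rest of the diagram except at `f (K-1)`, with simple bonds except possibly between
`f (K-2)` and `f (K-1)`. -/
structure LeafChain (f : ℕ → b.support) (K : ℕ) : Prop where
  inj : ∀ s < K, ∀ t < K, f s = f t → s = t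
  bond : ∀ t, t + 1 < K → P.pairing (f t) (f (t + 1)) < 0
  simple : ∀ t, t + 2 < K →
    P.pairing (f t) (f (t + 1)) = -1 ∧ P.pairing (f (t + 1)) (f t) = -1
  far : ∀ t, t + 1 < K → ∀ j : b.support, j ≠ f t → j ≠ f (t + 1) → (∀ s, s + 1 = t → j ≠ f s) →
    P.pairing (f t) j = 0

/-- The walk `0, 1, ..., n-1, n-2, ..., 0` (and constantly `0` afterwards) -/
def bcNode (n : ℕ) (hn : 0 < n) (t : ℕ) : Fin n :=
  ⟨if t < n then t else 2 * n - 2 - t, by split_ifs <;> omega⟩

variable {n : ℕ} (hn : 3 ≤ n) (e : Fin n ≃ b.support)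

/-- node `t` (for `t < n`) -/
def nd (t : ℕ) : b.support := e ⟨min t (n - 1), by omega⟩

/-- The node sequence `0, 1, ..., n-3, n-2, n-1, n-3, n-4, ..., 0` of type `D_n` -/
def dNode (t : ℕ) : b.support := if t < n then nd b hn e t else nd b hn e (2 * n - 3 - t)

/-- The hypothesis `type D_n` -/
def IsD (e : Fin n ≃ b.support) : Prop :=
  ∀ i j, P.pairing (e i) (e j) = (CartanMatrix.D n i j : ℚ)

end H28T
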