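import Pool.Agent.Helper28.CS3.Csm

/-!
# Existence and uniqueness of the family of CSM classes (pieces EX)
-/

namespace H28T

open MvPolynomial Equiv

set_option linter.unusedSectionVars false

variable {ι M N : Type*} [Fintype ι] [AddCommGroup M] [Module ℚ M]
  [AddCommGroup N] [Module ℚ N] {P : RootPairing ι ℚ M N}
variable (b : P.Base) [P.IsRootSystem] [P.IsCrystallographic] [P.IsReduced]

/-- the sum of the fundamental weights -/
noncomputable def rho (b : P.Base) : Pol b := lin b fun _ => 1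

/-- EX1. `ρ ∈ PP`. (`NN_Lop`, `cf_nonneg`, `act_lin`.) -/
theorem PP_rho : PP b (rho b) := by
  intro x
  unfold rho
  rw [act_lin]
  apply NN_Lop
  intro β hβ _
  unfold ev
  exact Finset.sum_nonneg fun j _ => by rw [one_mul]; exact cf_nonneg b β hβ j

/-- EX2. The coefficient of `1` in `ρ^k · x`, `k = inv x⁻¹`, is positive.
Proof: induction on `k`.  `k = 0`: `x = 1`.  `k + 1`: some simple `α_i` has `x⁻¹ α_i < 0`
(otherwise `inv x⁻¹ = 0` by `isPos_of_supp`), `y = s_i x` has `inv y⁻¹ = k`
(`inv_mul_rf_of_neg`).  `ρ · x - bas y` is nonnegative: in `lb` the term of `β = α_i` is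
`ev 1 α_i • bas y = bas y` and the others are nonnegative.  Apply `ρ^k ∈ PP` (`PP.mul`):
the coefficient of `1` in `ρ^k · (ρ · x)` is at least that in `ρ^k · y`. -/
theorem pow_rho_pos (x : WG P) : 0 < act b (rho b ^ inv b x⁻¹) (bas x) 1 := by
  classical
  have hPP : ∀ k : ℕ, PP b (rho b ^ k) := by
    intro k
    induction k with
    | zero => rw [pow_zero]; exact PP.one
    | succ k ih => rw [pow_succ]; exact ih.mul (PP_rho b)
  have key : ∀ (k : ℕ) (x : WG P), inv b x⁻¹ = k → 0 < act b (rho b ^ k) (bas x) 1 := by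
    intro k
    induction k with
    | zero =>
      intro x hx
      have h1 : x = 1 := by
        have := eq_one_of_inv_eq_zero b _ hx
        rwa [inv_eq_one] at this
      subst h1
      have h0 : act b (rho b ^ 0) (bas (1 : WG P)) = bas (1 : WG P) := by
        rw [pow_zero]
        have h := act_C_apply b 1 (bas (1 : WG P))
        rwa [one_smul, C_1] at h
      rw [h0]
      unfold bas
      rw [Finsupp.single_eq_same]
      exact one_pos
    | succ k ih =>
      intro x hx
      obtain ⟨i, hi⟩ : ∃ i : b.support, ¬ b.IsPos ((x⁻¹).1 (i : ι)) := by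
        by_contra hcon
        push Not at hcon
        have h0 : inv b x⁻¹ = 0 := by
          unfold inv
          rw [Finset.card_eq_zero, Finset.filter_eq_empty_iff]
          rintro β - ⟨h1, h2⟩
          exact h2 (isPos_of_supp b x⁻¹ β h1 fun j _ => hcon j)
        omega
      have hy : inv b (rf P (i : ι) * x)⁻¹ = k := by
        have h1 := inv_mul_rf_of_neg b x⁻¹ i hi
        rw [mul_inv_rev, rf_inv]
        omega
      have h2 := ih _ hy
      have h3 : NN (act b (rho b) (bas x) - bas (rf P (i : ι) * x)) := by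
        unfold rho
        rw [act_lin, Lop_bas]
        unfold lb
        rw [← Finset.add_sum_erase _ _ (Finset.mem_univ (i : ι)), if_pos ⟨isPos_simple b i, hi⟩,
          ev_simple, one_smul, add_sub_cancel_left]
        apply NN.sum
        intro β _
        split_ifs with h4
        · refine NN.smul ?_ (NN.bas _)
          unfold ev
          exact Finset.sum_nonneg fun j _ => by rw [one_mul]; exact cf_nonneg b β h4.1 j
        · exact NN.zero
      have h4 := (hPP k).act h3 1
      rw [map_sub, Finsupp.sub_apply] at h4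
      rw [pow_succ, act_mul_apply]
      linarith
  exact key _ x rfl

/-- EX3. **The class of a point has a representative.**
Proof: `F = C c⁻¹ * ρ^N`, `N = inv w₀`, `c` the number of EX2 for `x = w₀⁻¹`.
`isSchub_of_word` with `l₀` a reduced word of `w₀`; the constant terms are the coefficients of `1`
in `F · (wp l)⁻¹` (RE3): for `wp l ≠ w₀` one has `inv (wp l) < N` (`isLong_of_le`,
`isLong_unique`, and `inv ≤ N`), and the coefficient is `0` by `act_degree`. -/
theorem exists_pt (w₀ : WG P) (hw : IsLong b w₀) : ∃ F : Pol b, IsSchub b w₀ F := by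
  classical
  obtain ⟨l₀, hl₀, hn⟩ := exists_word b w₀
  have hc := pow_rho_pos b w₀⁻¹
  rw [inv_inv] at hc
  set c : ℚ := act b (rho b ^ inv b w₀) (bas w₀⁻¹) 1 with hcdef
  have hhom : (rho b ^ inv b w₀ : Pol b).IsHomogeneous (inv b w₀) := by
    have := (lin_homog b fun _ => 1).pow (inv b w₀)
    simpa [rho] using this
  have hF : (C c⁻¹ * rho b ^ inv b w₀ : Pol b).IsHomogeneous l₀.length := by
    have := (isHomogeneous_C b.support c⁻¹).mul hhom
    rw [hn]
    simpa using this
  refine ⟨C c⁻¹ * rho b ^ inv b w₀, ?_⟩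
  rw [← hl₀]
  conv => arg 3; rw [hl₀]
  refine isSchub_of_word b l₀ _ hF ?_ ?_
  · rw [constantCoeff_dd b l₀ _ hF, hl₀, act_mul_apply, act_C_apply, Finsupp.smul_apply, ← hcdef,
      smul_eq_mul, inv_mul_cancel₀ hc.ne']
  · intro l hl hne
    rw [constantCoeff_dd b l _ (by rw [hl]; exact hF)]
    by_contra h
    have h1 := act_degree b _ _ hF _ _ h
    rw [inv_inv, _root_.inv_one, H28T.inv_one, hn] at h1
    have h2 : inv b w₀ ≤ inv b (wp b l) := by omega
    exact hne ((isLong_unique b _ _ (isLong_of_le b _ _ hw h2) hw).trans hl₀.symm)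

/-- the alternating vector `Σ_x (-1)^{inv x} x` -/
noncomputable def xi (b : P.Base) : VV P :=
  letI := Fintype.ofFinite (WG P)
  ∑ x : WG P, ((-1 : ℚ) ^ inv b x) • bas x

/-- EX4. `s_i ξ = - ξ`.  (`inv (s_i x) = inv (x⁻¹ s_i) = inv x ± 1`: `inv_inv_eq`,
`inv_mul_rf_of_neg`, `inv_mul_rf_of_pos`; reindex the sum by `x ↦ s_i x`.) -/
theorem lm_xi (i : b.support) : lm (rf P (i : ι)) (xi b) = - xi b := by
  classical
  let _ : Fintype (WG P) := Fintype.ofFinite (WG P)
  have h1 : xi b = ∑ x : WG P, ((-1 : ℚ) ^ inv b x) • bas x := rfl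
  have hsgn : ∀ x : WG P, (-1 : ℚ) ^ inv b (rf P (i : ι) * x) = - (-1 : ℚ) ^ inv b x := by
    intro x
    have e1 : inv b (rf P (i : ι) * x) = inv b (x⁻¹ * rf P (i : ι)) := by
      rw [← inv_inv_eq b (rf P (i : ι) * x), mul_inv_rev, rf_inv]
    rw [e1, ← inv_inv_eq b x]
    by_cases h : b.IsPos ((x⁻¹).1 (i : ι))
    · rw [inv_mul_rf_of_pos b x⁻¹ i h, pow_succ]
      ring
    · rw [← inv_mul_rf_of_neg b x⁻¹ i h, pow_succ]
      ring
  rw [h1, map_sum, ← Finset.sum_neg_distrib,
    ← Equiv.sum_comp (Equiv.mulLeft (rf P (i : ι))) fun x : WG P => -(((-1 : ℚ) ^ inv b x) • bas x)]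
  refine Finset.sum_congr rfl fun x _ => ?_
  rw [map_smul, lm_bas, Equiv.coe_mulLeft, hsgn, neg_smul, neg_neg]

/-- EX5. `T_i G` acts on `ξ` as `s_i` after `G`.
Proof: `act_rf` for `s_i G` and `z = ξ`: `(s_i G) · (s_i ξ) = s_i (G · ξ) + ∂_i(s_i G) · ξ`, where
`s_i ξ = -ξ` and `∂_i (s_i G) = - ∂_i G` (`dd1_unique`, `sact_sact`).  So
`s_i (G · ξ) = (∂_i G - s_i G) · ξ`. -/
theorem act_TT_xi (i : b.support) (G : Pol b) :
    act b (TT b i G) (xi b) = lm (rf P (i : ι)) (act b G (xi b)) := by
  have h1 := act_rf b (sact b i G) i (xi b)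
  have h2 : dd1 b i (sact b i G) = - dd1 b i G := by
    apply dd1_unique
    rw [sact_sact, mul_neg, dd1_spec, neg_sub]
  rw [lm_xi, sact_sact, h2, map_neg, map_neg, LinearMap.neg_apply] at h1
  rw [TT, map_sub, LinearMap.sub_apply, sub_eq_add_neg, h1]
  abel

private theorem inv_le_long (w w' : WG P) (h : IsLong b w) : inv b w' ≤ inv b w := by
  classical
  unfold inv
  apply Finset.card_le_card
  intro β hβ
  simp only [Finset.mem_filter, Finset.mem_univ, true_and] at hβ ⊢
  exact ⟨hβ.1, h β hβ.1⟩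

/-- EX6. The coefficient of the longest element in `G · x`.
Proof: if `y⁻¹` is longest and `(F · x) y ≠ 0` with `F` homogeneous of degree `d` then
`inv y⁻¹ + d ≤ inv x⁻¹ ≤ inv y⁻¹`, so `d = 0` (`act_degree`).  Split `G` into homogeneous
components; the component of degree `0` is `C (constantCoeff G)`. -/
theorem act_coeff_long (G : Pol b) (x y : WG P) (hy : IsLong b y⁻¹) [Decidable (x = y)] :
    act b G (bas x) y = if x = y then constantCoeff G else 0 := by
  have h1 : ∀ d : ℕ, d ≠ 0 → act b (homogeneousComponent d G) (bas x) y = 0 := by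
    intro d hd
    by_contra h
    have h2 := act_degree b _ d (homogeneousComponent_isHomogeneous d G) x y h
    have h3 := inv_le_long b y⁻¹ x⁻¹ hy
    omega
  have h2 : act b G (bas x) y
      = ∑ d ∈ Finset.range (G.totalDegree + 1), act b (homogeneousComponent d G) (bas x) y := by
    conv_lhs => rw [← sum_homogeneousComponent G]
    rw [map_sum, LinearMap.sum_apply, Finsupp.finsetSum_apply]
  rw [h2, Finset.sum_eq_single 0 (fun d _ hd => h1 d hd)
    (fun h => absurd (Finset.mem_range.mpr (Nat.succ_pos _)) h), homogeneousComponent_zero,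
    act_C_apply]
  simp only [bas, Finsupp.smul_single, smul_eq_mul, mul_one, Finsupp.single_apply]
  rfl

private theorem EX7_Lop_lower (a : b.support → ℚ) (u : VV P) (y : WG P)
    (h : (Lop b a u) y ≠ 0) : ∃ x : WG P, u x ≠ 0 ∧ inv b y⁻¹ < inv b x⁻¹ := by
  classical
  have h1 : (Lop b a u) y = ∑ x ∈ u.support, u x * (lb b a x) y := by
    unfold Lop
    rw [Finsupp.linearCombination_apply, Finsupp.sum, Finsupp.finsetSum_apply]
    rfl
  rw [h1] at h
  obtain ⟨x, hx, hxy⟩ := Finset.exists_ne_zero_of_sum_ne_zero h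
  exact ⟨x, left_ne_zero_of_mul hxy, lb_degree b a x y (right_ne_zero_of_mul hxy)⟩

private theorem EX7_eq_zero (a : b.support → ℚ) (u : VV P) (h : Lop b a u = - u) : u = 0 := by
  classical
  by_contra hu
  have hne : u.support.Nonempty := Finsupp.support_nonempty_iff.mpr hu
  obtain ⟨y, hy, hmax⟩ := u.support.exists_max_image (fun x : WG P => inv b x⁻¹) hne
  have hy0 : (Lop b a u) y ≠ 0 := by
    rw [h, Finsupp.neg_apply]
    exact neg_ne_zero.mpr (Finsupp.mem_support_iff.mp hy)
  obtain ⟨x, hx, hxy⟩ := EX7_Lop_lower b a u y hy0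
  have h3 := hmax x (Finsupp.mem_support_iff.mpr hx)
  omega

/-- EX7. If `D · ξ = 0` then `(s_i D) · ξ = 0` and `(∂_i D) · ξ = 0`.
Proof: by EX5 `(T_i D) · ξ = 0`, i.e. `(∂_i D) · ξ = (s_i D) · ξ =: u`.  From
`α_i ∂_i D = D - s_i D`, `α_i · u = - u`.  As `α_i` strictly lowers the length (RE2a), `u = 0`
(take `y` in the support of `u` with `inv y⁻¹` maximal). -/
theorem act_xi_step (D : Pol b) (h : act b D (xi b) = 0) (i : b.support) :
    act b (dd1 b i D) (xi b) = 0 ∧ act b (sact b i D) (xi b) = 0 := by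
  have h1 : act b (dd1 b i D) (xi b) = act b (sact b i D) (xi b) := by
    have h2 := act_TT_xi b i D
    rw [h, map_zero, TT, map_sub, LinearMap.sub_apply] at h2
    exact sub_eq_zero.mp h2
  have h3 : Lop b (rc b i) (act b (dd1 b i D) (xi b)) = - act b (dd1 b i D) (xi b) := by
    have h4 : act b (rt b i * dd1 b i D) (xi b) = act b (D - sact b i D) (xi b) := by
      rw [dd1_spec]
    rw [act_mul_apply, rt, act_lin, map_sub, LinearMap.sub_apply, h, zero_sub, ← h1] at h4
    exact h4
  have h5 := EX7_eq_zero b (rc b i) _ h3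
  exact ⟨h5, by rw [← h1, h5]⟩

/-- EX8. If `D · ξ = 0` then `D` is zero in cohomology.
Proof: all `∂_l D` kill `ξ` (EX7), so their constant terms vanish (EX6 for `y = w₀⁻¹`:
the coefficient of `y` in `G · ξ` is `± constantCoeff G`; `exists_isLong`); so `D` acts as zero
(`act_eq_zero_of_null`) and `mem_of_act_eq_zero` applies. -/
theorem mem_of_act_xi (D : Pol b) (h : act b D (xi b) = 0) : D ∈ invIdeal b := by
  classical
  obtain ⟨w₀, hw⟩ := exists_isLong b
  have base : ∀ G : Pol b, act b G (xi b) = 0 → constantCoeff G = 0 := by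
    intro G hG
    let _ : Fintype (WG P) := Fintype.ofFinite (WG P)
    have hy : IsLong b (w₀⁻¹)⁻¹ := by rw [inv_inv]; exact hw
    have h1 : act b G (xi b) w₀⁻¹ = (-1 : ℚ) ^ inv b w₀⁻¹ * constantCoeff G := by
      have h2 : act b G (xi b) = ∑ x : WG P, ((-1 : ℚ) ^ inv b x) • act b G (bas x) := by
        unfold xi
        rw [map_sum]
        exact Finset.sum_congr rfl fun x _ => map_smul _ _ _
      rw [h2, Finsupp.finsetSum_apply, Finset.sum_eq_single w₀⁻¹]
      · rw [Finsupp.smul_apply, act_coeff_long b G _ _ hy, if_pos rfl, smul_eq_mul]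
      · intro x _ hx
        rw [Finsupp.smul_apply, act_coeff_long b G _ _ hy, if_neg hx, smul_zero]
      · intro hx
        exact absurd (Finset.mem_univ _) hx
    rw [hG, Finsupp.coe_zero, Pi.zero_apply] at h1
    rcases mul_eq_zero.mp h1.symm with h3 | h3
    · exact absurd h3 (pow_ne_zero _ (by norm_num))
    · exact h3
  have hnull : ∀ (l : List b.support) (G : Pol b), act b G (xi b) = 0 →
      constantCoeff (dd b l G) = 0 := by
    intro l
    induction l with
    | nil => exact fun G hG => base G hG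
    | cons k l ih => exact fun G hG => ih (dd1 b k G) (act_xi_step b G hG k).1
  exact mem_of_act_eq_zero b D fun z => act_eq_zero_of_null b D (fun l => hnull l D h) z

/-- `T_{k_r} ⋯ T_{k_1} F` for `l = [k_1, ..., k_r]` -/
noncomputable def TTl : List b.support → Pol b → Pol b
  | [], F => F
  | k :: l, F => TTl l (TT b k F)

/-- EX9. -/
theorem act_TTl_xi (l : List b.support) (G : Pol b) :
    act b (TTl b l G) (xi b) = lm (wp b l) (act b G (xi b)) := by
  induction l generalizing G with
  | nil =>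
    simp only [TTl, wp]
    rw [lm_one]
  | cons k l ih =>
    simp only [TTl, wp]
    rw [ih, act_TT_xi, lm_lm]

/-- EX10. **Existence.**  Proof: let `w₀` be longest, `F` from EX3; for `w` choose `l_w` with
`wp l_w = w⁻¹ * w₀` (`exists_word0`) and put `C w = cl (TTl l_w F)`.
`pt`: a longest `w` is `w₀` (`isLong_unique`), `wp l_w = 1`, so `TTl l_w F` and `F` agree on `ξ`
(EX9), hence in cohomology (EX8 for the difference).  `step`: if `C w = cl f` then `f` and
`TTl l_w F` act in the same way (`act_of_mem`), so by EX9, EX5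
`(TTl l_{w s_i} F) · ξ = s_i w⁻¹ w₀ (F · ξ) = s_i (f · ξ) = (T_i f) · ξ`; EX8. -/
theorem exists_csm : ∃ C : WG P → Coh b, IsCSM b C := by
  classical
  obtain ⟨w₀, hw⟩ := exists_isLong b
  obtain ⟨F, hF⟩ := exists_pt b w₀ hw
  have hcl : ∀ G H : Pol b, act b G (xi b) = act b H (xi b) → cl b G = cl b H := by
    intro G H h
    rw [cl_eq_iff]
    apply mem_of_act_xi
    rw [map_sub, LinearMap.sub_apply, h, sub_self]
  choose L hL using fun w : WG P => exists_word0 b (w⁻¹ * w₀)
  refine ⟨fun w => cl b (TTl b (L w) F), ⟨?_, ?_⟩⟩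
  · intro w hw'
    have hww : w = w₀ := isLong_unique b w w₀ hw' hw
    subst hww
    refine ⟨F, hF, hcl _ _ ?_⟩
    rw [act_TTl_xi, hL, inv_mul_cancel, lm_one]
  · intro w i f hf
    apply hcl
    have h1 : act b f (xi b) = act b (TTl b (L w) F) (xi b) := by
      have h2 : TTl b (L w) F - f ∈ invIdeal b := (cl_eq_iff b _ _).mp hf
      have h3 := act_of_mem b _ h2 (xi b)
      rw [map_sub, LinearMap.sub_apply] at h3
      exact (sub_eq_zero.mp h3).symm
    rw [act_TTl_xi, hL, act_TT_xi, h1, act_TTl_xi, hL, lm_lm, mul_inv_rev, rf_inv, mul_assoc]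

/-- EX11. **Uniqueness.**  Two representatives of the class of a point agree in cohomology
(`act_eq_of_isSchub`, `mem_of_act_eq_zero`), so `C w₀ = C' w₀`; every `w` is
`w₀ s_{i_1} ⋯ s_{i_k}` (`exists_word0` for `(w₀⁻¹ w)⁻¹`), and `step` determines `C (w s_i)`
from `C w` (`exists_cl`). -/
theorem csm_unique (C C' : WG P → Coh b) (hC : IsCSM b C) (hC' : IsCSM b C') : C = C' := by
  obtain ⟨w₀, hw⟩ := exists_isLong b
  have h0 : C w₀ = C' w₀ := by
    obtain ⟨F, hF, hCF⟩ := hC.pt w₀ hw
    obtain ⟨G, hG, hCG⟩ := hC'.pt w₀ hw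
    rw [hCF, hCG, cl_eq_iff]
    apply mem_of_act_eq_zero
    intro z
    rw [map_sub, LinearMap.sub_apply, act_eq_of_isSchub b w₀ F G hF hG, sub_self]
  have key : ∀ l : List b.support, C (w₀ * wp b l) = C' (w₀ * wp b l) := by
    intro l
    induction l with
    | nil => simpa only [wp, mul_one] using h0
    | cons k l ih =>
      obtain ⟨f, hf⟩ := exists_cl b (C (w₀ * wp b l))
      simp only [wp]
      rw [← mul_assoc, hC.step _ k f hf, hC'.step _ k f (ih.symm.trans hf)]
  funext w
  obtain ⟨l, hl⟩ := exists_word0 b (w₀⁻¹ * w)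
  have h1 := key l
  rwa [hl, ← mul_assoc, mul_inv_cancel, one_mul] at h1

end H28T
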