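import Pool.Agent.Helper28.CS3.Root

/-!
# The module `V = ℚ[W]` with the operators `λ` (pieces MO)

`λ · x = Σ_{β > 0, x⁻¹ β < 0} ⟨λ, β^∨⟩ s_β x`.
-/

namespace H28T

open MvPolynomial Equiv

set_option linter.unusedSectionVars false

variable {ι M N : Type*} [Fintype ι] [AddCommGroup M] [Module ℚ M]
  [AddCommGroup N] [Module ℚ N] {P : RootPairing ι ℚ M N}

/-- `V = ℚ[W]`. -/
abbrev VV (P : RootPairing ι ℚ M N) := WG P →₀ ℚ

/-- basis vector -/
noncomputable def bas (x : WG P) : VV P := Finsupp.single x 1

/-- left multiplication by `g` -/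
noncomputable def lm (g : WG P) : VV P →ₗ[ℚ] VV P := Finsupp.lmapDomain ℚ ℚ (g * ·)

theorem lm_bas (g x : WG P) : lm g (bas x) = bas (g * x) := by
  simp [lm, bas, Finsupp.lmapDomain_apply, Finsupp.mapDomain_single]

theorem lm_lm (g h : WG P) (z : VV P) : lm g (lm h z) = lm (g * h) z := by
  have h1 : ((fun x : WG P => g * x) ∘ fun x => h * x) = fun x => g * h * x := by
    funext x
    simp [mul_assoc]
  simp only [lm, Finsupp.lmapDomain_apply, ← Finsupp.mapDomain_comp, h1]

theorem lm_one (z : VV P) : lm 1 z = z := by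
  simp only [lm, Finsupp.lmapDomain_apply, one_mul]
  exact Finsupp.mapDomain_id

theorem lm_apply (g : WG P) (z : VV P) (x : WG P) : lm g z x = z (g⁻¹ * x) := by
  have h := Finsupp.mapDomain_apply (f := fun y : WG P => g * y) (mul_right_injective g) z
    (g⁻¹ * x)
  simpa [lm, Finsupp.lmapDomain_apply] using h

/-- two linear maps that agree on basis vectors agree -/
theorem ext_bas {L : Type*} [AddCommGroup L] [Module ℚ L] (f g : VV P →ₗ[ℚ] L)
    (h : ∀ x, f (bas x) = g (bas x)) : f = g :=
  Finsupp.lhom_ext' fun x => LinearMap.ext_ring (h x)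

theorem induction_bas (p : VV P → Prop) (z : VV P) (h0 : p 0) (hadd : ∀ y z, p y → p z → p (y + z))
    (hb : ∀ (x : WG P) (a : ℚ), p (a • bas x)) : p z := by
  induction z using Finsupp.induction_linear with
  | zero => exact h0
  | add f g hf hg => exact hadd f g hf hg
  | single x a =>
    have : (Finsupp.single x a : VV P) = a • bas x := by simp [bas]
    rw [this]
    exact hb x a

variable (b : P.Base) [P.IsRootSystem] [P.IsCrystallographic] [P.IsReduced]

/-- the operator `λ` on a basis vector, `λ` with coordinates `a` -/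
noncomputable def lb (a : b.support → ℚ) (x : WG P) : VV P :=
  open Classical in
  ∑ β : ι, if b.IsPos β ∧ ¬ b.IsPos ((x⁻¹).1 β) then ev b a β • bas (rf P β * x) else 0

/-- the operator `λ` -/
noncomputable def Lop (a : b.support → ℚ) : Module.End ℚ (VV P) :=
  Finsupp.linearCombination ℚ (lb b a)

theorem Lop_bas (a : b.support → ℚ) (x : WG P) : Lop b a (bas x) = lb b a x := by
  simp [Lop, bas]

/-- MO1. **The Hecke relation on basis vectors.**
Proof: in the sum for `λ · (s x)`, `s = s_i`, substitute `β = s γ` (`Equiv.sum_comp (rf P i).1`):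
`(s x)⁻¹ (s γ) = x⁻¹ γ`, `rf (s γ) * (s x) = s * (rf γ * x)` (`rf_act`, `rf_inv`, `rf_mul_self`),
`⟨λ, (s γ)^∨⟩ = ⟨s λ, γ^∨⟩` (`ev_sw`).  So the summands for `γ ≠ α_i, -α_i` agree with those of
`lm s (lb (s λ) x)` (`isPos_rf_iff`).  For `γ = α_i`: `s γ` is not positive, so the left side has
no term, and the right side has the term `⟨s λ, α_i^∨⟩ bas x = - a i • bas x` if `x⁻¹ α_i < 0`.
For `γ = -α_i = s α_i`: the right side has no term, and the left side has the term
`⟨λ, α_i^∨⟩ bas x = a i • bas x` if `x⁻¹ α_i > 0` (`isPos_act_neg`).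
(`rf (s α_i) = rf α_i` by `rf_neg`; `ev_simple`, `ev_rf_self`.) -/
theorem lb_rf (i : b.support) (a : b.support → ℚ) (x : WG P) :
    lb b a (rf P i * x) = lm (rf P i) (lb b (sw b i a) x) + a i • bas x := by
  classical
  have hp : b.IsPos (i : ι) := isPos_simple b i
  have hn : ¬ b.IsPos ((rf P i).1 (i : ι)) := fun h => (isPos_rf_self b (i : ι)).1 h hp
  have hne : (i : ι) ≠ (rf P i).1 (i : ι) := fun h => hn (h ▸ hp)
  -- the left side after the substitution
  have hL : lb b a (rf P i * x) = ∑ γ : ι, if b.IsPos ((rf P i).1 γ) ∧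
      ¬ b.IsPos ((x⁻¹).1 γ) then ev b (sw b i a) γ • bas (rf P i * (rf P γ * x)) else 0 := by
    unfold lb
    rw [← Equiv.sum_comp (rf P (i : ι)).1]
    apply Finset.sum_congr rfl
    intro γ _
    have h1 : ((rf P i * x)⁻¹).1 ((rf P i).1 γ) = (x⁻¹).1 γ := by
      rw [mul_inv_rev, rf_inv]
      show (x⁻¹).1 ((rf P i).1 ((rf P i).1 γ)) = (x⁻¹).1 γ
      rw [rf_rf]
    have h2 : rf P ((rf P i).1 γ) * (rf P i * x) = rf P i * (rf P γ * x) := by
      rw [rf_act]
      simp only [mul_assoc, inv_mul_cancel_left]
    rw [h1, h2, ← ev_sw]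
  have hR : lm (rf P i) (lb b (sw b i a) x) = ∑ γ : ι, if b.IsPos γ ∧
      ¬ b.IsPos ((x⁻¹).1 γ) then ev b (sw b i a) γ • bas (rf P i * (rf P γ * x)) else 0 := by
    unfold lb
    rw [map_sum]
    apply Finset.sum_congr rfl
    intro γ _
    by_cases h : b.IsPos γ ∧ ¬ b.IsPos ((x⁻¹).1 γ)
    · rw [if_pos h, if_pos h, map_smul, lm_bas]
    · rw [if_neg h, if_neg h, map_zero]
  have hev : ev b (sw b i a) (i : ι) = - a i := by
    rw [ev_sw, ev_rf_self, ev_simple]
  have hev' : ev b (sw b i a) ((rf P i).1 (i : ι)) = a i := by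
    rw [ev_rf_self, hev, neg_neg]
  have hb1 : rf P i * (rf P (i : ι) * x) = x := by
    rw [← mul_assoc, rf_mul_self, one_mul]
  have hb2 : rf P i * (rf P ((rf P i).1 (i : ι)) * x) = x := by
    rw [rf_neg, ← mul_assoc, rf_mul_self, one_mul]
  rw [hL, hR]
  by_cases hx : b.IsPos ((x⁻¹).1 (i : ι))
  · have hx' : ¬ b.IsPos ((x⁻¹).1 ((rf P i).1 (i : ι))) := fun h =>
      (isPos_act_neg b x⁻¹ (i : ι)).1 h hx
    have hB : a i • (bas x : VV P) =
        ∑ γ : ι, if γ = (rf P i).1 (i : ι) then a i • (bas x : VV P) else 0 := by simp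
    rw [hB, ← Finset.sum_add_distrib]
    apply Finset.sum_congr rfl
    intro γ _
    by_cases h2 : γ = (rf P i).1 (i : ι)
    · subst h2
      rw [rf_rf, if_pos ⟨hp, hx'⟩, if_neg fun h => hn h.1, if_pos rfl, zero_add, hev', hb2]
    · by_cases h1 : γ = i
      · subst h1
        rw [if_neg fun h => h.2 hx, if_neg fun h => h.2 hx, if_neg h2, zero_add]
      · rw [if_neg h2, add_zero]
        have h3 := isPos_rf_iff b i γ h1 h2
        simp only [h3]
  · have hx' : b.IsPos ((x⁻¹).1 ((rf P i).1 (i : ι))) :=
      (isPos_act_neg b x⁻¹ (i : ι)).2 hx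
    have hB : a i • (bas x : VV P) =
        ∑ γ : ι, if γ = (i : ι) then a i • (bas x : VV P) else 0 := by simp
    rw [hB, ← Finset.sum_add_distrib]
    apply Finset.sum_congr rfl
    intro γ _
    by_cases h1 : γ = i
    · subst h1
      rw [if_neg fun h => hn h.1, if_pos ⟨hp, hx⟩, if_pos rfl, hev, hb1, neg_smul,
        neg_add_cancel]
    · rw [if_neg h1, add_zero]
      by_cases h2 : γ = (rf P i).1 (i : ι)
      · subst h2
        rw [if_neg fun h => h.2 hx', if_neg fun h => h.2 hx']
      · have h3 := isPos_rf_iff b i γ h1 h2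
        simp only [h3]

/-- the relation for all vectors -/
theorem Lop_rf (i : b.support) (a : b.support → ℚ) (z : VV P) :
    Lop b a (lm (rf P i) z) = lm (rf P i) (Lop b (sw b i a) z) + a i • z := by
  induction z using induction_bas with
  | h0 => simp
  | hadd y z hy hz => simp only [map_add, smul_add, hy, hz]; abel
  | hb x c =>
    simp only [map_smul, lm_bas, Lop_bas, lb_rf, smul_add]
    rw [smul_comm]

/-- MO2a. `λ · 1 = 0`. -/
theorem lb_one (a : b.support → ℚ) : lb b a (1 : WG P) = 0 := by
  classical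
  unfold lb
  refine Finset.sum_eq_zero fun β _ => ?_
  rw [if_neg]
  rintro ⟨h1, h2⟩
  exact h2 (by simpa using h1)

/-- MO2b. linearity in `λ` -/
theorem Lop_add (a c : b.support → ℚ) : Lop b (a + c) = Lop b a + Lop b c := by
  classical
  refine ext_bas _ _ fun x => ?_
  rw [LinearMap.add_apply, Lop_bas, Lop_bas, Lop_bas]
  unfold lb
  rw [← Finset.sum_add_distrib]
  refine Finset.sum_congr rfl fun β _ => ?_
  split_ifs with h
  · rw [← add_smul]
    congr 1
    simp only [ev, Pi.add_apply, add_mul, Finset.sum_add_distrib]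
  · rw [add_zero]

/-- MO2c. linearity in `λ` -/
theorem Lop_smul (r : ℚ) (a : b.support → ℚ) : Lop b (r • a) = r • Lop b a := by
  classical
  refine ext_bas _ _ fun x => ?_
  rw [LinearMap.smul_apply, Lop_bas, Lop_bas]
  unfold lb
  rw [Finset.smul_sum]
  refine Finset.sum_congr rfl fun β _ => ?_
  split_ifs with h
  · rw [smul_smul]
    congr 1
    simp only [ev, Pi.smul_apply, smul_eq_mul, mul_assoc, ← Finset.mul_sum]
  · rw [smul_zero]

private theorem MO3_sw (i : b.support) (a : b.support → ℚ) (z : VV P) :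
    Lop b (sw b i a) z = Lop b a z - a i • Lop b (rc b i) z := by
  have h : sw b i a = a + (-(a i)) • rc b i := by
    funext k
    simp only [sw, rc, Pi.add_apply, Pi.smul_apply, smul_eq_mul]
    ring
  rw [h, Lop_add, Lop_smul, LinearMap.add_apply, LinearMap.smul_apply, neg_smul, sub_eq_add_neg]

/-- MO3. The operators commute.
Proof: by `induction_left` show `[λ, μ] x = 0` on `bas x` for all `λ, μ`.  `x = 1`: `lb_one`.
By `Lop_rf` twice (and linearity, `sw i a = a - a i • rc i`),
`[λ, μ] s z = s [s λ, s μ] z + a i • (s μ - μ) z + c i • (λ - s λ) z`, and the last two terms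
cancel: `s μ - μ = - c i • α_i`, `λ - s λ = a i • α_i`. -/
theorem Lop_comm (a c : b.support → ℚ) (z : VV P) :
    Lop b a (Lop b c z) = Lop b c (Lop b a z) := by
  have key : ∀ (x : WG P) (a c : b.support → ℚ),
      Lop b a (Lop b c (bas x)) = Lop b c (Lop b a (bas x)) := by
    intro x
    induction x using induction_left (b := b) with
    | h1 =>
      intro a c
      rw [Lop_bas, Lop_bas, lb_one, lb_one, map_zero, map_zero]
    | hs k x ih =>
      intro a c
      rw [← lm_bas, Lop_rf, Lop_rf, map_add, map_add, map_smul, map_smul, Lop_rf, Lop_rf,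
        ih (sw b k a) (sw b k c), MO3_sw b k c (bas x), MO3_sw b k a (bas x), smul_sub, smul_sub,
        smul_smul, smul_smul, mul_comm (c k) (a k)]
      abel
  induction z using induction_bas with
  | h0 => simp
  | hadd y z hy hz => simp only [map_add, hy, hz]
  | hb x r => simp only [map_smul, key x a c]

/-- the operator of the fundamental weight `ω_j` -/
noncomputable def Xop (j : b.support) : Module.End ℚ (VV P) :=
  open Classical in Lop b (Pi.single j 1)

theorem range_comm : ∀ x ∈ Set.range (Xop b), ∀ y ∈ Set.range (Xop b), x * y = y * x := by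
  rintro _ ⟨i, rfl⟩ _ ⟨j, rfl⟩
  exact LinearMap.ext fun z => Lop_comm b _ _ z

/-- The action of polynomials on `V`. -/
noncomputable def act : Pol b →ₐ[ℚ] Module.End ℚ (VV P) :=
  letI := Algebra.adjoinCommRingOfComm ℚ (range_comm b)
  (Algebra.adjoin ℚ (Set.range (Xop b))).val.comp
    (aeval fun i => (⟨Xop b i, Algebra.subset_adjoin ⟨i, rfl⟩⟩ :
      Algebra.adjoin ℚ (Set.range (Xop b))))

theorem act_X (i : b.support) : act b (X i) = Xop b i := by
  simp [act]

theorem act_mul_apply (F G : Pol b) (z : VV P) : act b (F * G) z = act b F (act b G z) := by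
  rw [map_mul]
  rfl

theorem act_C_apply (a : ℚ) (z : VV P) : act b (C a) z = a • z := by
  have : (C a : Pol b) = a • 1 := by simp [MvPolynomial.smul_eq_C_mul]
  rw [this, map_smul, map_one]
  rfl

/-- MO4. `lin a` acts as the operator `λ`. (`lin`, `act_X`, `act_C_apply`, MO2b, MO2c;
`a = Σ_j a j • Pi.single j 1`.) -/
theorem act_lin (a : b.support → ℚ) : act b (lin b a) = Lop b a := by
  classical
  let L : (b.support → ℚ) →ₗ[ℚ] Module.End ℚ (VV P) :=
    { toFun := Lop b
      map_add' := Lop_add b
      map_smul' := Lop_smul b }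
  have h1 : Lop b a = ∑ j, a j • Xop b j := by
    have h := LinearMap.pi_apply_eq_sum_univ L a
    have h2 : ∀ j : b.support, (fun k => if j = k then (1 : ℚ) else 0) = Pi.single j 1 := by
      intro j
      funext k
      rw [Pi.single_apply]
      simp only [eq_comm]
    simp only [h2] at h
    refine h.trans (Finset.sum_congr rfl fun j _ => ?_)
    have h3 : L (Pi.single j 1) = Xop b j := by
      show Lop b (Pi.single j 1) = Xop b j
      unfold Xop
      congr!
    rw [h3]
  rw [h1, lin, map_sum]
  refine Finset.sum_congr rfl fun j _ => ?_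
  refine LinearMap.ext fun z => ?_
  rw [act_mul_apply, act_C_apply, act_X, LinearMap.smul_apply]

private theorem lin_sub_lin_sw (i : b.support) (a : b.support → ℚ) :
    lin b a - lin b (sw b i a) = C (a i) * rt b i := by
  unfold lin sw rt lin rc
  rw [← Finset.sum_sub_distrib, Finset.mul_sum]
  refine Finset.sum_congr rfl fun j _ => ?_
  rw [C_sub, C_mul]
  ring

private theorem sact_lin_aux (i : b.support) (a : b.support → ℚ) :
    sact b i (lin b a) = lin b a - C (a i) * rt b i := by
  classical
  have h1 : sact b i (lin b a) = ∑ j, (C (a j) * X j - if j = i then C (a i) * rt b i else 0) := by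
    rw [lin, map_sum]
    refine Finset.sum_congr rfl fun j _ => ?_
    rw [map_mul]
    have h2 : sact b i (C (a j)) = C (a j) := (sact b i).commutes (a j)
    have h3 : sact b i (X j) = if j = i then X j - rt b i else X j := by
      simp [sact]
    rw [h2, h3]
    by_cases hj : j = i
    · subst hj
      rw [if_pos rfl, if_pos rfl, mul_sub]
    · rw [if_neg hj, if_neg hj, sub_zero]
  rw [h1, Finset.sum_sub_distrib, Finset.sum_ite_eq' Finset.univ i, if_pos (Finset.mem_univ i)]
  rfl

private theorem sw_sw_aux (i : b.support) (a : b.support → ℚ) : sw b i (sw b i a) = a := by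
  funext k
  unfold sw
  rw [P.pairing_same]
  ring

private theorem X_eq_lin_aux (j : b.support) [DecidableEq b.support] :
    (X j : Pol b) = lin b (Pi.single j 1) := by
  unfold lin
  rw [Finset.sum_eq_single j]
  · rw [Pi.single_eq_same, C_1, one_mul]
  · intro k _ hk
    rw [Pi.single_eq_of_ne hk, C_0, zero_mul]
  · intro h
    exact absurd (Finset.mem_univ j) h

/-- MO5a. `s_i` on linear polynomials. -/
theorem sact_lin (i : b.support) (a : b.support → ℚ) : sact b i (lin b a) = lin b (sw b i a) := by
  rw [sact_lin_aux, ← lin_sub_lin_sw]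
  ring

/-- MO5b. `s_i² = 1` on polynomials. (On `X j`: MO5a for the coordinates of `X j`,
`pairing_same`.) -/
theorem sact_sact (i : b.support) (F : Pol b) : sact b i (sact b i F) = F := by
  classical
  have h : (sact b i).comp (sact b i) = AlgHom.id ℚ (Pol b) := by
    refine MvPolynomial.algHom_ext fun j => ?_
    rw [AlgHom.comp_apply, X_eq_lin_aux b j, sact_lin, sact_lin, sw_sw_aux]
    rfl
  exact DFunLike.congr_fun h F

/-- MO5c. `∂_i λ = ⟨λ, α_i^∨⟩`. (`dd1_unique`, MO5a.) -/
theorem dd1_lin (i : b.support) (a : b.support → ℚ) : dd1 b i (lin b a) = C (a i) := by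
  refine dd1_unique i _ _ ?_
  rw [sact_lin, lin_sub_lin_sw, mul_comm]

theorem dd1_C (i : b.support) (a : ℚ) : dd1 b i (C a) = 0 :=
  dd1_unique i _ _ (by simp)

theorem dd1_zero (i : b.support) : dd1 b i 0 = 0 := dd1_unique i _ _ (by simp)

theorem dd1_neg (i : b.support) (f : Pol b) : dd1 b i (-f) = -dd1 b i f := by
  apply dd1_unique
  rw [mul_neg, dd1_spec, map_neg]
  ring

theorem dd1_sub (i : b.support) (f g : Pol b) : dd1 b i (f - g) = dd1 b i f - dd1 b i g := by
  rw [sub_eq_add_neg, dd1_add, dd1_neg, sub_eq_add_neg]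

/-- an `s_i`-invariant polynomial is killed by `∂_i` -/
theorem dd1_eq_zero_of_inv (i : b.support) (f : Pol b) (h : sact b i f = f) : dd1 b i f = 0 :=
  dd1_unique i _ _ (by simp [h])

/-- `∂_i(f g) = f ∂_i g` if `s_i f = f` -/
theorem dd1_mul_of_inv (i : b.support) (f g : Pol b) (h : sact b i f = f) :
    dd1 b i (f * g) = f * dd1 b i g := by
  rw [dd1_mul, dd1_eq_zero_of_inv b i f h, h]
  ring

theorem dd1_C_mul (i : b.support) (a : ℚ) (g : Pol b) : dd1 b i (C a * g) = C a * dd1 b i g :=
  dd1_mul_of_inv b i _ _ (by simp)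

theorem dd_zero (l : List b.support) : dd b l 0 = 0 := by
  induction l with
  | nil => rfl
  | cons k l ih => simp only [dd, dd1_zero, ih]

theorem dd_add (l : List b.support) (f g : Pol b) : dd b l (f + g) = dd b l f + dd b l g := by
  induction l generalizing f g with
  | nil => rfl
  | cons k l ih => simp only [dd, dd1_add, ih]

theorem dd_neg (l : List b.support) (f : Pol b) : dd b l (-f) = -dd b l f := by
  induction l generalizing f with
  | nil => rfl
  | cons k l ih => simp only [dd, dd1_neg, ih]

theorem dd_sub (l : List b.support) (f g : Pol b) : dd b l (f - g) = dd b l f - dd b l g := by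
  rw [sub_eq_add_neg, dd_add, dd_neg, sub_eq_add_neg]

theorem dd_C_mul (l : List b.support) (a : ℚ) (g : Pol b) :
    dd b l (C a * g) = C a * dd b l g := by
  induction l generalizing g with
  | nil => rfl
  | cons k l ih => simp only [dd, dd1_C_mul, ih]

/-- MO6. `F · (s_i z) = s_i (s_i(F) · z) + ∂_i(F) · z`.
Proof: `MvPolynomial.induction_on F` (for all `z`): constants; sums; `F * X j`: write
`X j = lin (Pi.single j 1)`, use `act_mul_apply`, `Lop_rf`, the hypothesis for both vectors,
`dd1_mul`, `dd1_lin`, `sact_lin`. -/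
theorem act_rf (F : Pol b) (i : b.support) (z : VV P) :
    act b F (lm (rf P i) z) = lm (rf P i) (act b (sact b i F) z) + act b (dd1 b i F) z := by
  classical
  induction F using MvPolynomial.induction_on generalizing z with
  | C a =>
    have h1 : sact b i (C a) = C a := (sact b i).commutes a
    rw [h1, dd1_C, map_zero, act_C_apply, act_C_apply, map_smul, LinearMap.zero_apply, add_zero]
  | add p q hp hq =>
    rw [map_add, LinearMap.add_apply, hp, hq, map_add, dd1_add, map_add, map_add,
      LinearMap.add_apply, LinearMap.add_apply, map_add]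
    abel
  | mul_X p j hp =>
    have hX : (X j : Pol b) = lin b (Pi.single j 1) := by
      unfold lin
      rw [Finset.sum_eq_single j]
      · rw [Pi.single_eq_same, C_1, one_mul]
      · intro k _ hk
        rw [Pi.single_eq_of_ne hk, C_0, zero_mul]
      · intro h
        exact absurd (Finset.mem_univ j) h
    have h1 : act b (p * X j) (lm (rf P i) z) =
        act b p (lm (rf P i) (Lop b (sw b i (Pi.single j 1)) z)) +
          (Pi.single j 1 : b.support → ℚ) i • act b p z := by
      rw [act_mul_apply, hX, act_lin, Lop_rf, map_add, map_smul]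
    have h2 : act b (sact b i (p * X j)) z =
        act b (sact b i p) (Lop b (sw b i (Pi.single j 1)) z) := by
      rw [map_mul, act_mul_apply, hX, sact_lin, act_lin]
    have h3 : dd1 b i (p * X j) = C ((Pi.single j 1 : b.support → ℚ) i) * p +
        dd1 b i p * lin b (sw b i (Pi.single j 1)) := by
      rw [mul_comm p, dd1_mul, hX, dd1_lin, sact_lin]
      ring
    rw [h1, h2, h3, hp, map_add (act b), LinearMap.add_apply, act_mul_apply, act_C_apply,
      act_mul_apply, act_lin]
    abel

theorem act_one' (F : Pol b) :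
    act b F (bas (1 : WG P)) = constantCoeff F • bas (1 : WG P) := by
  induction F using MvPolynomial.induction_on with
  | C a => rw [act_C_apply, constantCoeff_C]
  | add p q hp hq => rw [map_add, LinearMap.add_apply, hp, hq, map_add, add_smul]
  | mul_X p j hp =>
    rw [act_mul_apply, act_X, Xop, Lop_bas, lb_one, map_zero, map_mul, constantCoeff_X, mul_zero,
      zero_smul]

end H28T
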