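import Pool.Agent.Helper28.CS3.Cone

/-!
# Degrees, divided differences as coefficients, Schubert polynomials (pieces RE)
-/

namespace H28T

open MvPolynomial Equiv

set_option linter.unusedSectionVars false

variable {ι M N : Type*} [Fintype ι] [AddCommGroup M] [Module ℚ M]
  [AddCommGroup N] [Module ℚ N] {P : RootPairing ι ℚ M N}
variable (b : P.Base) [P.IsRootSystem] [P.IsCrystallographic] [P.IsReduced]

theorem lin_homog (a : b.support → ℚ) : (lin b a).IsHomogeneous 1 := by
  refine IsHomogeneous.sum _ _ _ fun j _ => ?_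
  simpa using (isHomogeneous_C _ (a j)).mul (isHomogeneous_X ℚ j)

/-- RE1a. `s_i` preserves degrees. (`IsHomogeneous.aeval` or `IsHomogeneous.eval₂`-type lemma, or
on monomials; the images of the variables are linear forms.) -/
theorem sact_homog (i : b.support) (F : Pol b) (d : ℕ) (hF : F.IsHomogeneous d) :
    (sact b i F).IsHomogeneous d := by
  classical
  have h := hF.aeval (fun j => if j = i then X j - rt b i else (X j : Pol b)) (n := 1)
    (fun j => by
      by_cases hj : j = i
      · simp only [hj, if_true]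
        exact (isHomogeneous_X ℚ i).sub (lin_homog b (rc b i))
      · simp only [hj, if_false]
        exact isHomogeneous_X ℚ j)
  rw [one_mul] at h
  convert h using 1
  simp only [sact]

/-- RE1b. `∂_i` lowers the degree by one.
Proof: by linearity for monomials: `MvPolynomial.induction_on_monomial`-type induction with
`dd1_mul` (`∂_i (F * X j) = ∂_i F * X j + s_i F * ∂_i (X j)`, `∂_i (X j)` a constant by `dd1_lin`);
or compare homogeneous components in `rt * dd1 = F - sact F`.
(`MvPolynomial.IsHomogeneous` is the statement for `d + 1`; for degree `0` see `dd1_C`.) -/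
theorem dd1_homog (i : b.support) (F : Pol b) (d : ℕ) (hF : F.IsHomogeneous (d + 1)) :
    (dd1 b i F).IsHomogeneous d := by
  classical
  have hX : ∀ n : b.support, (dd1 b i (X n)).IsHomogeneous 0 := fun n => by
    by_cases hn : n = i
    · have h1 : dd1 b i (X n) = C 1 := dd1_unique i _ _ (by simp [sact, hn])
      rw [h1]
      exact isHomogeneous_C _ _
    · have h1 : dd1 b i (X n) = 0 := dd1_unique i _ _ (by simp [sact, hn])
      rw [h1]
      exact isHomogeneous_zero _ _ _
  have hmon : ∀ (s : b.support →₀ ℕ) (c : ℚ), ∃ e, (monomial s c : Pol b).IsHomogeneous e ∧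
      (∀ d, e = d + 1 → (dd1 b i (monomial s c)).IsHomogeneous d) ∧
      (e = 0 → dd1 b i (monomial s c) = 0) := by
    intro s c
    refine induction_on_monomial
      (motive := fun p : Pol b => ∃ e, p.IsHomogeneous e ∧
        (∀ d, e = d + 1 → (dd1 b i p).IsHomogeneous d) ∧ (e = 0 → dd1 b i p = 0)) ?_ ?_ s c
    · intro a
      exact ⟨0, isHomogeneous_C _ _, fun d h => absurd h (by omega), fun _ => dd1_C b i a⟩
    · rintro p n ⟨e, h1, h2, h3⟩
      refine ⟨e + 1, h1.mul (isHomogeneous_X ℚ n), fun d h => ?_, fun h => absurd h (by omega)⟩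
      obtain rfl : e = d := by omega
      rw [dd1_mul]
      have h4 : (sact b i p * dd1 b i (X n)).IsHomogeneous e := by
        simpa using (sact_homog b i p e h1).mul (hX n)
      refine IsHomogeneous.add ?_ h4
      cases e with
      | zero =>
        rw [h3 rfl, zero_mul]
        exact isHomogeneous_zero _ _ _
      | succ e => exact (h2 e rfl).mul (isHomogeneous_X ℚ n)
  have hsum : dd1 b i F = ∑ s ∈ F.support, dd1 b i (monomial s (coeff s F)) := by
    have hD : ∀ (T : Finset (b.support →₀ ℕ)) (f : (b.support →₀ ℕ) → Pol b),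
        dd1 b i (∑ s ∈ T, f s) = ∑ s ∈ T, dd1 b i (f s) := by
      intro T f
      induction T using Finset.induction_on with
      | empty => simpa using dd1_zero b i
      | insert a T ha ih => rw [Finset.sum_insert ha, dd1_add, ih, Finset.sum_insert ha]
    rw [← hD, ← F.as_sum]
  rw [hsum]
  refine IsHomogeneous.sum _ _ _ fun s hs => ?_
  have hc : coeff s F ≠ 0 := mem_support_iff.mp hs
  obtain ⟨e, h1, h2, -⟩ := hmon s (coeff s F)
  have hm : (monomial s (coeff s F) : Pol b).IsHomogeneous (d + 1) := by
    intro s' hs'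
    rw [coeff_monomial] at hs'
    split_ifs at hs' with h3
    · rw [← h3]
      exact hF hc
    · exact absurd rfl hs'
  exact h2 d (h1.inj_right hm (by rwa [Ne, monomial_eq_zero]))

/-- RE2a. `λ` lowers the length of `x⁻¹`. (`lb`; for `y = rf β * x`, `y⁻¹ = x⁻¹ * rf β`,
`inv_mul_rf_lt`.) -/
theorem lb_degree (a : b.support → ℚ) (x y : WG P) (h : lb b a x y ≠ 0) :
    inv b y⁻¹ < inv b x⁻¹ := by
  classical
  unfold lb at h
  rw [Finsupp.finsetSum_apply] at h
  obtain ⟨β, -, hβ⟩ := Finset.exists_ne_zero_of_sum_ne_zero h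
  split_ifs at hβ with h1
  · have hy : rf P β * x = y := by
      by_contra hne
      exact hβ (by simp [bas, hne])
    rw [← hy, mul_inv_rev, rf_inv]
    exact inv_mul_rf_lt b x⁻¹ β h1.1 h1.2
  · exact absurd rfl hβ

private theorem RE2_Xop (i : b.support) (z : VV P) (N k : ℕ)
    (hz : ∀ y, z y ≠ 0 → inv b y⁻¹ + k ≤ N) (y : WG P) (h : Xop b i z y ≠ 0) :
    inv b y⁻¹ + (k + 1) ≤ N := by
  classical
  have e : Xop b i z = z.sum fun x a => a • lb b (Pi.single i 1) x := by
    unfold Xop Lop
    rw [Finsupp.linearCombination_apply]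
  rw [e, Finsupp.sum, Finsupp.finsetSum_apply] at h
  obtain ⟨x, hx, hne⟩ := Finset.exists_ne_zero_of_sum_ne_zero h
  rw [Finsupp.smul_apply] at hne
  have h1 := lb_degree b _ x y (right_ne_zero_of_smul hne)
  have h2 := hz x (Finsupp.mem_support_iff.mp hx)
  omega

private theorem RE2_mono (s : b.support →₀ ℕ) (a : ℚ) : ∀ (z : VV P) (N k : ℕ),
    (∀ y, z y ≠ 0 → inv b y⁻¹ + k ≤ N) → ∀ y, act b (monomial s a) z y ≠ 0 →
      inv b y⁻¹ + k + (monomial s a : Pol b).totalDegree ≤ N := by
  refine induction_on_monomial (motive := fun p : Pol b => ∀ (z : VV P) (N k : ℕ),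
    (∀ y, z y ≠ 0 → inv b y⁻¹ + k ≤ N) → ∀ y, act b p z y ≠ 0 →
      inv b y⁻¹ + k + p.totalDegree ≤ N) ?_ ?_ s a
  · intro a z N k hz y h
    rw [act_C_apply, Finsupp.smul_apply] at h
    rw [totalDegree_C, add_zero]
    exact hz y (right_ne_zero_of_smul h)
  · intro p n ih z N k hz y h
    rw [act_mul_apply, act_X] at h
    have hp : p ≠ 0 := by
      rintro rfl
      simp at h
    rw [totalDegree_mul_of_isDomain hp (X_ne_zero n), totalDegree_X]
    have h1 := ih (Xop b n z) N (k + 1) (fun y' hy' => RE2_Xop b n z N k hz y' hy') y h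
    omega

/-- RE2b. A homogeneous polynomial of degree `d` lowers the length of `x⁻¹` by at least `d`.
Proof: for monomials, by induction on the number of factors (`induction_on_monomial`), from RE2a;
then `F.as_sum`. -/
theorem act_degree (F : Pol b) (d : ℕ) (hF : F.IsHomogeneous d) (x y : WG P)
    (h : act b F (bas x) y ≠ 0) : inv b y⁻¹ + d ≤ inv b x⁻¹ := by
  classical
  rw [F.as_sum, map_sum, LinearMap.sum_apply, Finsupp.finsetSum_apply] at h
  obtain ⟨s, hs, hne⟩ := Finset.exists_ne_zero_of_sum_ne_zero h
  have hc : coeff s F ≠ 0 := mem_support_iff.mp hs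
  have h1 := RE2_mono b s (coeff s F) (bas x) (inv b x⁻¹) 0 (fun y' hy' => by
    have : x = y' := by
      by_contra hxy
      exact hy' (by simp [bas, hxy])
    rw [this, add_zero]) y hne
  have h2 : (monomial s (coeff s F) : Pol b).IsHomogeneous d := by
    intro s' hs'
    rw [coeff_monomial] at hs'
    split_ifs at hs' with h3
    · rw [← h3]
      exact hF hc
    · exact absurd rfl hs'
  rw [h2.totalDegree (by rwa [Ne, monomial_eq_zero])] at h1
  omega

/-- RE3. If `F` is homogeneous of degree `length l`, then the constant term of `∂_l F` is the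
coefficient of `1` in `F · (wp l)⁻¹`.
Proof: induction on `l` (generalizing `F`).  `l = []`: `F` is a constant.
`l = k :: l'`, `x = (wp l')⁻¹`, `(wp l)⁻¹ = s_k x`: by `act_rf` the coefficient of `1` in
`F · (s_k x)` is the coefficient of `s_k` in `(s_k F) · x` plus the coefficient of `1` in
`(∂_k F) · x`; the first is `0` by `act_degree` since `inv x⁻¹ = inv (wp l') ≤ length l'`. -/
theorem constantCoeff_dd (l : List b.support) (F : Pol b) (hF : F.IsHomogeneous l.length) :
    constantCoeff (dd b l F) = act b F (bas (wp b l)⁻¹) 1 := by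
  induction l generalizing F with
  | nil =>
    have h0 : F = C (coeff 0 F) :=
      totalDegree_eq_zero_iff_eq_C.mp (Nat.le_zero.mp hF.totalDegree_le)
    simp only [dd, wp]
    rw [h0, act_C_apply]
    simp [bas]
  | cons k l ih =>
    have hF1 : (dd1 b k F).IsHomogeneous l.length := dd1_homog b k F l.length hF
    have e1 : (wp b (k :: l))⁻¹ = rf P k * (wp b l)⁻¹ := by
      simp only [wp, mul_inv_rev, rf_inv]
    have hF2 : (sact b k F).IsHomogeneous (l.length + 1) := sact_homog b k F (l.length + 1) hF
    have e2 : act b (sact b k F) (bas (wp b l)⁻¹) (rf P k) = 0 := by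
      by_contra hne
      have h1 := act_degree b _ _ hF2 _ _ hne
      rw [inv_inv] at h1
      have h2 := inv_wp_le b l
      omega
    rw [e1, ← lm_bas, act_rf, Finsupp.add_apply, lm_apply, rf_inv, mul_one, e2, zero_add]
    exact ih _ hF1

/-- RE4a. For a homogeneous polynomial of degree `d`, `∂_l F` has no constant term unless
`length l = d` -/
theorem constantCoeff_dd_of_ne (l : List b.support) (F : Pol b) (d : ℕ) (hF : F.IsHomogeneous d)
    (h : l.length ≠ d) : constantCoeff (dd b l F) = 0 := by
  induction l generalizing F d with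
  | nil =>
    have h1 : ¬ (coeff 0 F ≠ 0) := fun hne => by
      have h2 := hF hne
      simp at h2
      exact h (by simpa using h2)
    simpa [dd, constantCoeff_eq] using h1
  | cons k l ih =>
    cases d with
    | zero =>
      have h0 : F = C (coeff 0 F) :=
        totalDegree_eq_zero_iff_eq_C.mp (Nat.le_zero.mp hF.totalDegree_le)
      simp only [dd]
      rw [h0, dd1_C, dd_zero, map_zero]
    | succ d =>
      simp only [dd]
      exact ih _ d (dd1_homog b k F d hF) (by simpa using h)

/-- RE4b. Only the homogeneous component of degree `length l` matters.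
(`F` is the sum of its homogeneous components, `dd_add`, RE4a.) -/
theorem constantCoeff_dd_comp (l : List b.support) (F : Pol b) :
    constantCoeff (dd b l F) = constantCoeff (dd b l (homogeneousComponent l.length F)) := by
  have hadd : ∀ f g : Pol b, constantCoeff (dd b l (f + g)) =
      constantCoeff (dd b l f) + constantCoeff (dd b l g) := fun f g => by
    rw [dd_add, map_add]
  have hzero : constantCoeff (dd b l (0 : Pol b)) = 0 := by rw [dd_zero, map_zero]
  let φ : Pol b →+ ℚ :=
    { toFun := fun f => constantCoeff (dd b l f)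
      map_zero' := hzero
      map_add' := hadd }
  have hφ : ∀ f, φ f = constantCoeff (dd b l f) := fun _ => rfl
  have hne : ∀ i, i ≠ l.length → φ (homogeneousComponent i F) = 0 := fun i hi => by
    rw [hφ]
    exact constantCoeff_dd_of_ne b l _ i (homogeneousComponent_isHomogeneous i F) (Ne.symm hi)
  rw [← hφ, ← hφ]
  conv_lhs => rw [← sum_homogeneousComponent F]
  rw [map_sum]
  by_cases hl : l.length ∈ Finset.range (F.totalDegree + 1)
  · exact Finset.sum_eq_single_of_mem _ hl fun i _ hi => hne i hi
  · rw [Finset.sum_eq_zero fun i hi => hne i fun h => hl (h ▸ hi)]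
    have h2 : F.totalDegree < l.length := by
      simpa [Finset.mem_range, Nat.lt_succ_iff] using hl
    rw [homogeneousComponent_eq_zero _ _ h2, map_zero]

private theorem re5_lin (l : List b.support) (F : Pol b) (h : ∀ l, constantCoeff (dd b l F) = 0)
    (a : b.support → ℚ) : constantCoeff (dd b l (lin b a * F)) = 0 := by
  induction l generalizing F a with
  | nil =>
    have h0 : constantCoeff F = 0 := h []
    simp only [dd]
    rw [map_mul, h0, mul_zero]
  | cons k l ih =>
    simp only [dd]
    rw [dd1_mul, dd1_lin, sact_lin, dd_add, map_add, dd_C_mul, map_mul, h l, mul_zero, zero_add]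
    exact ih (dd1 b k F) (fun l' => h (k :: l')) (sw b k a)

private theorem re5_sact (F : Pol b) (h : ∀ l, constantCoeff (dd b l F) = 0) (k : b.support)
    (l : List b.support) : constantCoeff (dd b l (sact b k F)) = 0 := by
  have h1 : sact b k F = F - rt b k * dd1 b k F := by
    rw [dd1_spec]
    ring
  rw [h1, dd_sub, map_sub, h l, rt, re5_lin b l _ (fun l' => h (k :: l')), sub_zero]

/-- RE5. If the constant terms of all `∂_l F` vanish, then `F` acts as zero.
Proof: call such `F` null.  (i) `∂_k F` is null.  (ii) `λ F` is null for linear `λ = lin a`: show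
`ε(∂_l (λ F)) = 0` for all null `F` and all `a` by induction on `l`, using `dd1_mul`, `dd1_lin`,
`sact_lin`, `dd_add`, `dd_C_mul`.  (iii) `s_k F = F - α_k ∂_k F` is null (`dd1_spec`).  Then
`F · x = 0` for all null `F` by `induction_left` on `x`: `act_one'` and `act_rf`. -/
theorem act_eq_zero_of_null (F : Pol b) (h : ∀ l, constantCoeff (dd b l F) = 0) (z : VV P) :
    act b F z = 0 := by
  have key : ∀ x : WG P, ∀ F : Pol b, (∀ l, constantCoeff (dd b l F) = 0) →
      act b F (bas x) = 0 := by
    intro x
    refine induction_left (b := b) (fun x => ∀ F : Pol b,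
      (∀ l, constantCoeff (dd b l F) = 0) → act b F (bas x) = 0) ?_ ?_ x
    · intro F hF
      have h2 : constantCoeff F = 0 := hF []
      rw [act_one', h2, zero_smul]
    · intro k y ih F hF
      rw [← lm_bas, act_rf, ih _ (re5_sact b F hF k), ih _ (fun l => hF (k :: l)), map_zero,
        add_zero]
  induction z using induction_bas with
  | h0 => exact map_zero _
  | hadd y z hy hz => rw [map_add, hy, hz, add_zero]
  | hb x a => rw [map_smul, key x F h, smul_zero]

private theorem RE6_Lop_lower (a : b.support → ℚ) (u : VV P) (y : WG P)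
    (h : (Lop b a u) y ≠ 0) : ∃ x : WG P, u x ≠ 0 ∧ inv b y⁻¹ < inv b x⁻¹ := by
  classical
  have h1 : (Lop b a u) y = ∑ x ∈ u.support, u x * (lb b a x) y := by
    unfold Lop
    rw [Finsupp.linearCombination_apply, Finsupp.sum, Finsupp.finsetSum_apply]
    rfl
  rw [h1] at h
  obtain ⟨x, hx, hxy⟩ := Finset.exists_ne_zero_of_sum_ne_zero h
  refine ⟨x, left_ne_zero_of_mul hxy, lb_degree b a x y (right_ne_zero_of_mul hxy)⟩

private theorem RE6_eq_zero_of_Lop_Lop (a : b.support → ℚ) (u : VV P)
    (h : Lop b a (Lop b a u) = u) : u = 0 := by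
  classical
  by_contra hu
  have hne : u.support.Nonempty := Finsupp.support_nonempty_iff.mpr hu
  obtain ⟨y, hy, hmax⟩ := u.support.exists_max_image (fun x : WG P => inv b x⁻¹) hne
  have hy0 : (Lop b a (Lop b a u)) y ≠ 0 := by
    rw [h]
    exact Finsupp.mem_support_iff.mp hy
  obtain ⟨x, hx, hxy⟩ := RE6_Lop_lower b a _ y hy0
  obtain ⟨x', hx', hxx'⟩ := RE6_Lop_lower b a _ x hx
  have h3 := hmax x' (Finsupp.mem_support_iff.mpr hx')
  omega

private theorem RE6_sw_rc (k : b.support) : sw b k (rc b k) = (-1 : ℚ) • rc b k := by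
  funext j
  simp only [sw, rc, Pi.smul_apply, smul_eq_mul, P.pairing_same]
  ring

/-- RE6a. If `F` acts as zero so does `∂_k F`.
Proof: put `u = (∂_k F) · z`, `s = s_k`.  By `act_rf` and `F · _ = 0`, `s (s_k(F) · z) + u = 0`,
and `s_k(F) = F - α_k ∂_k F` (`dd1_spec`) acts on `z` as `- α_k · u`, so `u = s (α_k · u)`, i.e.
`s u = α_k · u`.  By `Lop_rf` (with `sw k (rc k) = - rc k`, `rc k k = 2`),
`α_k · (α_k · u) = α_k · (s u) = - s (α_k · u) + 2 u = u`.  Since `α_k` strictly lowers the
length (RE2a), it is nilpotent, so `u = 0`: if `u ≠ 0` take `y` in the support of `u` with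
`inv y⁻¹` maximal; `y` is in the support of `α_k · (α_k · u)`, so `inv y⁻¹` is less than some
`inv y'⁻¹` with `y'` in the support of `u`. -/
theorem act_dd1_eq_zero (F : Pol b) (k : b.support) (h : ∀ z, act b F z = 0) (z : VV P) :
    act b (dd1 b k F) z = 0 := by
  apply RE6_eq_zero_of_Lop_Lop b (rc b k)
  have h1 := act_rf b F k z
  have h2 : sact b k F = F - rt b k * dd1 b k F := by rw [dd1_spec]; ring
  have h3 : act b (sact b k F) z = - Lop b (rc b k) (act b (dd1 b k F) z) := by
    rw [h2, map_sub, LinearMap.sub_apply, h z, act_mul_apply, rt, act_lin, zero_sub]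
  rw [h, h3, map_neg] at h1
  -- `u = s (α_k · u)`
  have h4 : lm (rf P k) (Lop b (rc b k) (act b (dd1 b k F) z)) = act b (dd1 b k F) z := by
    have h5 := (neg_add_eq_zero.mp h1.symm)
    exact h5
  -- `s u = α_k · u`
  have h6 : lm (rf P k) (act b (dd1 b k F) z) = Lop b (rc b k) (act b (dd1 b k F) z) := by
    have h7 := congrArg (lm (rf P k)) h4
    rw [lm_lm, rf_mul_self, lm_one] at h7
    exact h7.symm
  have h8 := Lop_rf b k (rc b k) (act b (dd1 b k F) z)
  rw [h6, RE6_sw_rc, Lop_smul, LinearMap.smul_apply, map_smul, h4] at h8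
  rw [h8]
  have h9 : rc b k k = 2 := P.pairing_same _
  rw [h9, ← add_smul]
  norm_num

/-- RE6b. If `F` acts as zero then the constant terms of all `∂_l F` vanish. (RE6a, `act_one'`.) -/
theorem null_of_act_eq_zero (F : Pol b) (h : ∀ z, act b F z = 0) (l : List b.support) :
    constantCoeff (dd b l F) = 0 := by
  induction l generalizing F with
  | nil =>
    have h1 := act_one' b F
    rw [h] at h1
    have h2 := DFunLike.congr_fun h1 (1 : WG P)
    simp only [bas, Finsupp.coe_zero, Pi.zero_apply, Finsupp.smul_apply, Finsupp.single_eq_same,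
      smul_eq_mul, mul_one] at h2
    exact h2.symm
  | cons k l ih => exact ih (dd1 b k F) (act_dd1_eq_zero b F k h)

/-- RE7. Two polynomials representing the same Schubert class act in the same way. -/
theorem act_eq_of_isSchub (v : WG P) (F G : Pol b) (hF : IsSchub b v F) (hG : IsSchub b v G)
    (z : VV P) : act b F z = act b G z := by
  have h := act_eq_zero_of_null b (F - G) (fun l => by
    rw [dd_sub, map_sub, hF l, hG l, sub_self]) z
  rw [map_sub, LinearMap.sub_apply] at h
  exact sub_eq_zero.mp h

/-- RE8. **Criterion.**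
Proof: `inv (wp l₀) = length l₀`: `≤` is `inv_wp_le`; by RE3 the coefficient of `1` in
`F · (wp l₀)⁻¹` is `1 ≠ 0`, so `≥` by `act_degree`.  Let `l` be a word.  If
`length l ≠ length l₀` both sides are `0` (RE4a).  If `length l = length l₀` and `wp l ≠ wp l₀`
both sides are `0` by `h`.  If `wp l = wp l₀` then by RE3 twice
`ε(∂_l F) = ε(∂_{l₀} F) = 1`. -/
theorem isSchub_of_word (l₀ : List b.support) (F : Pol b) (hF : F.IsHomogeneous l₀.length)
    (h₀ : constantCoeff (dd b l₀ F) = 1)
    (h : ∀ l : List b.support, l.length = l₀.length → wp b l ≠ wp b l₀ →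
      constantCoeff (dd b l F) = 0) : IsSchub b (wp b l₀) F := by
  have e0 := constantCoeff_dd b l₀ F hF
  rw [h₀] at e0
  have hinv : inv b (wp b l₀) = l₀.length := by
    refine le_antisymm (inv_wp_le b l₀) ?_
    have h1 := act_degree b F l₀.length hF (wp b l₀)⁻¹ 1 (by rw [← e0]; exact one_ne_zero)
    rw [inv_inv] at h1
    exact (Nat.le_add_left _ _).trans h1
  intro l
  by_cases hlen : l.length = l₀.length
  · by_cases hv : wp b l = wp b l₀
    · rw [if_pos ⟨hv, hlen.trans hinv.symm⟩,
        constantCoeff_dd b l F (by rw [hlen]; exact hF), hv, ← e0]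
    · rw [if_neg (fun h' => hv h'.1), h l hlen hv]
  · rw [if_neg (fun h' => hlen (h'.2.trans hinv)), constantCoeff_dd_of_ne b l F l₀.length hF hlen]

/-- RE9. The homogeneous part of a polynomial representing `[Y(v)]` represents it too. -/
theorem isSchub_comp (v : WG P) (F : Pol b) (hF : IsSchub b v F) :
    IsSchub b v (homogeneousComponent (inv b v) F) := by
  intro l
  by_cases hlen : l.length = inv b v
  · have h1 := constantCoeff_dd_comp b l F
    rw [hlen] at h1
    rw [← h1]
    exact hF l
  · rw [if_neg (fun h' => hlen h'.2),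
      constantCoeff_dd_of_ne b l _ (inv b v) (homogeneousComponent_isHomogeneous _ _) hlen]

/-- RE10. A polynomial representing the class of a point acts by `w₀⁻¹ ↦ 1`, `x ↦ 0` otherwise.
Proof: by RE9, RE7 we may assume `F` homogeneous of degree `N = inv w₀`.  If
`(F · x) y ≠ 0` then `inv y⁻¹ + N ≤ inv x⁻¹ ≤ N` (`inv x⁻¹ ≤ N` since `N` is the number of
positive roots), so `x⁻¹` is longest (`isLong_of_le`), `x⁻¹ = w₀` and `y = 1`
(`eq_one_of_inv_eq_zero`).  The coefficient is `ε(∂_l F) = 1` by RE3, `l` a reduced word of `w₀`. -/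
theorem act_of_isLong (w₀ : WG P) (hw : IsLong b w₀) (F : Pol b) (hF : IsSchub b w₀ F)
    (x : WG P) [Decidable (x = w₀⁻¹)] : act b F (bas x) = if x = w₀⁻¹ then bas 1 else 0 := by
  classical
  obtain ⟨l, hl, hlen⟩ := exists_word b w₀
  have hF' : IsSchub b w₀ (homogeneousComponent (inv b w₀) F) := isSchub_comp b w₀ F hF
  have hom : (homogeneousComponent (inv b w₀) F).IsHomogeneous (inv b w₀) :=
    homogeneousComponent_isHomogeneous _ _
  rw [act_eq_of_isSchub b w₀ F _ hF hF' (bas x)]
  have h1 : ∀ y, act b (homogeneousComponent (inv b w₀) F) (bas x) y ≠ 0 →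
      x = w₀⁻¹ ∧ y = 1 := by
    intro y hy
    have h := act_degree b _ _ hom x y hy
    have h2 : IsLong b x⁻¹ := isLong_of_le b x⁻¹ w₀ hw (by omega)
    have h3 : x⁻¹ = w₀ := isLong_unique b _ _ h2 hw
    refine ⟨by rw [← h3, inv_inv], ?_⟩
    rw [h3] at h
    have h4 : y⁻¹ = 1 := eq_one_of_inv_eq_zero b _ (by omega)
    exact inv_eq_one.1 h4
  have h2 : act b (homogeneousComponent (inv b w₀) F) (bas w₀⁻¹) 1 = 1 := by
    have h3 := constantCoeff_dd b l (homogeneousComponent (inv b w₀) F) (by rw [hlen]; exact hom)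
    rw [hl] at h3
    rw [← h3, hF' l, if_pos ⟨hl, hlen⟩]
  by_cases hx : x = w₀⁻¹
  · rw [if_pos hx]
    subst hx
    ext y
    by_cases hy : y = 1
    · subst hy
      rw [h2]
      simp [bas]
    · have h5 : act b (homogeneousComponent (inv b w₀) F) (bas w₀⁻¹) y = 0 := by
        by_contra hne
        exact hy (h1 y hne).2
      rw [h5]
      exact (Finsupp.single_eq_of_ne hy).symm
  · rw [if_neg hx]
    ext y
    by_contra hne
    exact hx (h1 y (by simpa using hne)).1

private theorem re11_wp_append (l l' : List b.support) :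
    wp b (l ++ l') = wp b l' * wp b l := by
  induction l with
  | nil => simp [wp]
  | cons k l ih => simp only [List.cons_append, wp, ih, mul_assoc]

private theorem re11_dd_append (l l' : List b.support) (F : Pol b) :
    dd b (l ++ l') F = dd b l' (dd b l F) := by
  induction l generalizing F with
  | nil => rfl
  | cons k l ih => simp only [List.cons_append, dd, ih]

private theorem re11_dd_homog (l : List b.support) (F : Pol b) (d : ℕ)
    (hF : F.IsHomogeneous (l.length + d)) : (dd b l F).IsHomogeneous d := by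
  induction l generalizing F with
  | nil => simpa [dd] using hF
  | cons k l ih =>
    simp only [dd]
    refine ih _ (dd1_homog b k F _ ?_)
    have h : (k :: l).length + d = l.length + d + 1 := by
      rw [List.length_cons]
      omega
    rwa [h] at hF

/-- RE11. For `z ≠ 0` some polynomial `G` has `G · z = c • 1` with `c ≠ 0`, provided `F`
represents the class of a point.
Proof: choose `x` in the support of `z` with `inv x⁻¹` maximal and put `v = x⁻¹`,
`u = v⁻¹ * w₀`, so `inv u + inv v = inv w₀` (`inv_mul_isLong`); let `l` be a reduced word of `u`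
and `G = ∂_l F'` with `F'` the homogeneous component of `F` of degree `inv w₀` (RE9);
`G` is homogeneous of degree `inv v` (RE1b).  Let `y` be in the support of `z`.  `G · y` is
supported on elements `y'` with `inv y'⁻¹ + inv v ≤ inv y⁻¹ ≤ inv v` (`act_degree`), so it is a
multiple of `bas 1`, and it is `0` if `inv y⁻¹ < inv v`.  If `inv y⁻¹ = inv v` and `l'` is a
reduced word of `y⁻¹`, the coefficient of `bas 1` is `ε(∂_{l'} G) = ε(∂_{l ++ l'} F')` (RE3), and
`wp (l ++ l') = wp l' * wp l = y⁻¹ * u`, so it is `1` if `y⁻¹ * u = w₀`, i.e. `y = x`, and `0`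
otherwise.  Hence `G · z = z x • bas 1`. -/
theorem exists_act_eq (w₀ : WG P) (hw : IsLong b w₀) (F : Pol b) (hF : IsSchub b w₀ F)
    (z : VV P) (hz : z ≠ 0) : ∃ G : Pol b, ∃ c : ℚ, c ≠ 0 ∧ act b G z = c • bas 1 := by
  classical
  have hne : z.support.Nonempty := Finsupp.support_nonempty_iff.mpr hz
  obtain ⟨x, hx, hmax⟩ := z.support.exists_max_image (fun x : WG P => inv b x⁻¹) hne
  have hF' : IsSchub b w₀ (homogeneousComponent (inv b w₀) F) := isSchub_comp b w₀ F hF
  have hom : (homogeneousComponent (inv b w₀) F).IsHomogeneous (inv b w₀) :=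
    homogeneousComponent_isHomogeneous _ _
  generalize homogeneousComponent (inv b w₀) F = F' at hF' hom
  have hlen := inv_mul_isLong b x⁻¹ w₀ hw
  rw [inv_inv] at hlen
  obtain ⟨l, hl, hll⟩ := exists_word b (x * w₀)
  have homG : (dd b l F').IsHomogeneous (inv b x⁻¹) :=
    re11_dd_homog b l F' _ (by rw [hll, hlen]; exact hom)
  have key : ∀ y : WG P, inv b y⁻¹ ≤ inv b x⁻¹ →
      act b (dd b l F') (bas y) = (if y = x then (1 : ℚ) else 0) • bas 1 := by
    intro y hy
    have h1 : ∀ y', act b (dd b l F') (bas y) y' ≠ 0 → y' = 1 ∧ inv b y⁻¹ = inv b x⁻¹ := by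
      intro y' hy'
      have h2 := act_degree b _ _ homG y y' hy'
      have h3 : inv b y'⁻¹ = 0 := by omega
      exact ⟨inv_eq_one.1 (eq_one_of_inv_eq_zero b _ h3), by omega⟩
    have h6 : act b (dd b l F') (bas y) 1 = if y = x then (1 : ℚ) else 0 := by
      by_cases hyx : inv b y⁻¹ = inv b x⁻¹
      · obtain ⟨l', hl', hll'⟩ := exists_word b y⁻¹
        have h4 := constantCoeff_dd b l' (dd b l F') (by rw [hll', hyx]; exact homG)
        rw [hl', inv_inv] at h4
        rw [← h4, ← re11_dd_append, hF' (l ++ l')]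
        have h5 : (wp b (l ++ l') = w₀ ∧ (l ++ l').length = inv b w₀) ↔ y = x := by
          rw [re11_wp_append, hl, hl', List.length_append, hll, hll', hyx, hlen]
          constructor
          · rintro ⟨h, -⟩
            rw [← mul_assoc] at h
            exact inv_mul_eq_one.1 (mul_eq_right.1 h)
          · rintro rfl
            exact ⟨by rw [← mul_assoc, inv_mul_cancel, one_mul], rfl⟩
        exact if_congr h5 rfl rfl
      · have h7 : y ≠ x := fun h => hyx (by rw [h])
        rw [if_neg h7]
        by_contra hne'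
        exact hyx (h1 1 hne').2
    ext y'
    by_cases hy1 : y' = 1
    · subst hy1
      have h9 : (bas 1 : VV P) 1 = 1 := Finsupp.single_eq_same
      rw [h6, Finsupp.smul_apply, h9, smul_eq_mul, mul_one]
    · have h8 : act b (dd b l F') (bas y) y' = 0 := by
        by_contra hne'
        exact hy1 (h1 y' hne').1
      have h9 : (bas 1 : VV P) y' = 0 := Finsupp.single_eq_of_ne hy1
      rw [h8, Finsupp.smul_apply, h9, smul_zero]
  refine ⟨dd b l F', z x, Finsupp.mem_support_iff.mp hx, ?_⟩
  have hz' : z = ∑ y ∈ z.support, z y • bas y := vec_eq_sum z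
  have h10 : act b (dd b l F') z = ∑ y ∈ z.support, z y • act b (dd b l F') (bas y) := by
    conv_lhs => rw [hz']
    rw [map_sum]
    exact Finset.sum_congr rfl fun y _ => map_smul _ _ _
  rw [h10, Finset.sum_eq_single_of_mem x hx fun y hy hyx => by
    rw [key y (hmax y hy), if_neg hyx, zero_smul, smul_zero], key x le_rfl, if_pos rfl, one_smul]

end H28T
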