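import Pool.Agent.Helper28.CS3.Defs

/-!
# Root systems: positivity, words, lengths, coordinates (pieces RT)
-/

namespace H28T

open MvPolynomial Equiv

set_option linter.unusedSectionVars false

variable {ι M N : Type*} [Fintype ι] [AddCommGroup M] [Module ℚ M]
  [AddCommGroup N] [Module ℚ N] {P : RootPairing ι ℚ M N}

/-- RT1. **Linear lifts.** Every element of the Weyl group acts linearly on roots and coroots.
Proof: `Subgroup.closure_induction` on `x.2`.  Generators: `P.reflection β`, `P.coreflection β`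
(`root_reflectionPerm`, `coroot_reflectionPerm`; for the pairing use `P.reflection_apply`,
`P.coreflection_apply`, `root_coroot_two`).  `1`: identities; products: compositions;
inverses: inverses (`root (x⁻¹ j) = g⁻¹ (root j)` since `root j = root (x (x⁻¹ j))`). -/
theorem exists_lift (x : WG P) : ∃ (g : M ≃ₗ[ℚ] M) (g' : N ≃ₗ[ℚ] N),
    (∀ j, P.root (x.1 j) = g (P.root j)) ∧ (∀ j, P.coroot (x.1 j) = g' (P.coroot j)) ∧
      ∀ m n, P.toLinearMap (g m) (g' n) = P.toLinearMap m n := by
  obtain ⟨y, hy⟩ := x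
  refine Subgroup.closure_induction (k := Set.range P.reflectionPerm)
    (p := fun (y : Perm ι) _ => ∃ (g : M ≃ₗ[ℚ] M) (g' : N ≃ₗ[ℚ] N),
      (∀ j, P.root (y j) = g (P.root j)) ∧ (∀ j, P.coroot (y j) = g' (P.coroot j)) ∧
        ∀ m n, P.toLinearMap (g m) (g' n) = P.toLinearMap m n) ?_ ?_ ?_ ?_ hy
  · rintro _ ⟨β, rfl⟩
    refine ⟨P.reflection β, P.coreflection β, fun j => P.root_reflectionPerm β j,
      fun j => P.coroot_reflectionPerm β j, fun m n => ?_⟩
    rw [P.reflection_apply, P.coreflection_apply]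
    have h2 := P.root_coroot_two β
    simp only [map_sub, map_smul, LinearMap.sub_apply, LinearMap.smul_apply, smul_eq_mul]
    simp only [RootPairing.root', RootPairing.coroot',
      LinearMap.flip_apply] at h2 ⊢
    rw [h2]
    ring
  · exact ⟨LinearEquiv.refl ℚ M, LinearEquiv.refl ℚ N, fun _ => rfl, fun _ => rfl, fun _ _ => rfl⟩
  · rintro y z - - ⟨g, g', h1, h2, h3⟩ ⟨k, k', h4, h5, h6⟩
    refine ⟨k.trans g, k'.trans g', fun j => ?_, fun j => ?_, fun m n => ?_⟩
    · rw [Perm.mul_apply, h1, h4]
      rfl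
    · rw [Perm.mul_apply, h2, h5]
      rfl
    · rw [LinearEquiv.trans_apply, LinearEquiv.trans_apply, h3, h6]
  · rintro y - ⟨g, g', h1, h2, h3⟩
    refine ⟨g.symm, g'.symm, fun j => ?_, fun j => ?_, fun m n => ?_⟩
    · rw [LinearEquiv.eq_symm_apply, ← h1]
      exact congrArg P.root (y.apply_symm_apply j)
    · rw [LinearEquiv.eq_symm_apply, ← h2]
      exact congrArg P.coroot (y.apply_symm_apply j)
    · rw [← h3, LinearEquiv.apply_symm_apply, LinearEquiv.apply_symm_apply]

/-- RT2. The Weyl group preserves the pairings. (From `exists_lift`.) -/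
theorem pairing_act (x : WG P) (i j : ι) : P.pairing (x.1 i) (x.1 j) = P.pairing i j := by
  obtain ⟨g, g', h1, h2, h3⟩ := exists_lift x
  rw [← P.root_coroot_eq_pairing, ← P.root_coroot_eq_pairing, h1, h2, h3]

/-- RT3. Conjugates of reflections.  Proof: `Subtype.ext`, `Equiv.ext` at `x.1 j`; both sides have
the same root: `P.root (s_{xβ} (x j)) = root (x j) - pairing (x j) (x β) • root (x β)` and
`P.root (x (s_β j)) = g (root j - pairing j β • root β)` (`exists_lift`, `pairing_act`,
`P.reflection_apply_root`); `P.root` is injective. -/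
theorem rf_act (x : WG P) (β : ι) : rf P (x.1 β) = x * rf P β * x⁻¹ := by
  have h1 : rf P (x.1 β) * x = x * rf P β := by
    apply Subtype.ext
    apply Equiv.ext
    intro j
    apply P.root.injective
    obtain ⟨g, g', hg, -, -⟩ := exists_lift x
    have h2 : P.root (((rf P (x.1 β) * x : WG P) : Perm ι) j) =
        P.root (x.1 j) - P.pairing (x.1 j) (x.1 β) • P.root (x.1 β) := by
      show P.root (P.reflectionPerm (x.1 β) (x.1 j)) = _
      rw [P.root_reflectionPerm, P.reflection_apply_root]
    have h3 : P.root (((x * rf P β : WG P) : Perm ι) j) =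
        P.root (x.1 j) - P.pairing j β • P.root (x.1 β) := by
      show P.root (x.1 (P.reflectionPerm β j)) = _
      rw [hg, P.root_reflectionPerm, P.reflection_apply_root, map_sub, map_smul, hg, hg]
    rw [h2, h3, pairing_act]
  rw [← h1, mul_inv_cancel_right]

theorem rf_apply (β γ : ι) : (rf P β).1 γ = P.reflectionPerm β γ := rfl

theorem rf_mul_self (β : ι) : rf P β * rf P β = 1 :=
  Subtype.ext (Equiv.ext fun j => by simp [rf])

theorem rf_inv (β : ι) : (rf P β)⁻¹ = rf P β := inv_eq_of_mul_eq_one_right (rf_mul_self β)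

theorem rf_rf (β γ : ι) : (rf P β).1 ((rf P β).1 γ) = γ := by simp [rf]

variable (b : P.Base) [P.IsRootSystem] [P.IsCrystallographic] [P.IsReduced]

/-- RT4. Every reflection lies in the subgroup generated by the simple reflections.
Proof: `b.induction_reflect β` (`h₀`: the reflection in `reflectionPerm i i` is the same by
`rf_act`; `h₂`: `rf_act`). -/
theorem rf_mem_closure (β : ι) :
    rf P β ∈ Subgroup.closure (Set.range fun i : b.support => rf P (i : ι)) := by
  refine b.induction_reflect β
    (p := fun β => rf P β ∈ Subgroup.closure (Set.range fun i : b.support => rf P (i : ι)))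
    (fun i hi => ?_) (fun i hi => ?_) (fun i j hi hj => ?_)
  · have h : rf P (P.reflectionPerm i i) = rf P i := by
      have h1 := rf_act (rf P i) i
      rw [rf_mul_self, one_mul, rf_inv] at h1
      exact h1
    rw [h]
    exact hi
  · exact Subgroup.subset_closure ⟨⟨i, hi⟩, rfl⟩
  · have hj' : rf P j ∈ Subgroup.closure (Set.range fun i : b.support => rf P (i : ι)) :=
      Subgroup.subset_closure ⟨⟨j, hj⟩, rfl⟩
    have h : rf P (P.reflectionPerm j i) = rf P j * rf P i * (rf P j)⁻¹ := rf_act (rf P j) i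
    rw [h]
    exact mul_mem (mul_mem hj' hi) (inv_mem hj')

private theorem rt4_mem_closure (x : WG P) :
    x ∈ Subgroup.closure (Set.range fun i : b.support => rf P (i : ι)) := by
  obtain ⟨y, hy⟩ := x
  refine Subgroup.closure_induction (k := Set.range P.reflectionPerm)
    (p := fun y hy => (⟨y, hy⟩ : WG P) ∈
      Subgroup.closure (Set.range fun i : b.support => rf P (i : ι))) ?_ ?_ ?_ ?_ hy
  · rintro _ ⟨β, rfl⟩
    exact rf_mem_closure b β
  · exact one_mem _
  · intro y z hy hz h1 h2
    exact mul_mem h1 h2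
  · intro y hy h1
    exact inv_mem h1

/-- RT5. Every element is a product of simple reflections.
Proof: the map `x ↦ x.1` and `Subgroup.closure_induction` on `x.2` show `x ∈ closure` of the
simple reflections (RT4); then `Subgroup.closure_induction` for the property `∃ l, wp b l = x`
(products: `wp (l' ++ l) = wp l * wp l'`-type formula, prove it first; inverses: reverse the list,
or use that the property for products with generators on the right suffices,
`Subgroup.closure_induction_right`). -/
theorem exists_word0 (x : WG P) : ∃ l, wp b l = x := by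
  refine Subgroup.closure_induction_right (p := fun x _ => ∃ l, wp b l = x) ?_ ?_ ?_
    (rt4_mem_closure b x)
  · exact ⟨[], rfl⟩
  · rintro x _ _ ⟨k, rfl⟩ ⟨l, rfl⟩
    exact ⟨k :: l, rfl⟩
  · rintro x _ _ ⟨k, rfl⟩ ⟨l, rfl⟩
    exact ⟨k :: l, by rw [rf_inv]; rfl⟩

/-- induction on left multiplication by simple reflections -/
theorem induction_left (p : WG P → Prop) (h1 : p 1)
    (hs : ∀ (k : b.support) (x : WG P), p x → p (rf P k * x)) (x : WG P) : p x := by
  obtain ⟨l, hl⟩ := exists_word0 b x⁻¹
  have key : ∀ l : List b.support, p (wp b l)⁻¹ := by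
    intro l
    induction l with
    | nil => simpa [wp] using h1
    | cons k l ih =>
      have : (wp b (k :: l))⁻¹ = rf P k * (wp b l)⁻¹ := by simp [wp, rf_inv]
      rw [this]
      exact hs k _ ih
  have := key l
  rwa [hl, inv_inv] at this

/-! ### positivity -/

/-- RT6a. `β` is negative iff `s_β β = -β` is positive. (`Base.IsPos.neg_iff_not`.) -/
theorem isPos_rf_self (β : ι) : b.IsPos ((rf P β).1 β) ↔ ¬ b.IsPos β :=
  RootPairing.Base.IsPos.neg_iff_not b β

theorem isPos_simple (i : b.support) : b.IsPos (i : ι) := b.isPos_of_mem_support i.2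

/-- RT6b. `s_i` permutes the positive roots `β ≠ α_i`. (`Base.IsPos.reflectionPerm`.) -/
theorem isPos_rf (i : b.support) (β : ι) (hβ : b.IsPos β) (h : β ≠ i) :
    b.IsPos ((rf P i).1 β) :=
  hβ.reflectionPerm i.2 h

/-- RT6c. For `β ≠ α_i, -α_i`, `β` is positive iff `s_i β` is.
(From RT6b for `β` and, with `rf_rf`, for `s_i β`.) -/
theorem isPos_rf_iff (i : b.support) (β : ι) (h : β ≠ i) (h' : β ≠ (rf P i).1 i) :
    b.IsPos ((rf P i).1 β) ↔ b.IsPos β := by
  constructor
  · intro h1
    have h2 : (rf P (i : ι)).1 β ≠ i := by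
      intro h3
      apply h'
      have h4 := congrArg (rf P (i : ι)).1 h3
      rwa [rf_rf] at h4
    have h5 := isPos_rf b i _ h1 h2
    rwa [rf_rf] at h5
  · intro h1
    exact isPos_rf b i β h1 h

/-- RT6d. The only positive root made negative by `s_i` is `α_i`. -/
theorem eq_of_isPos_of_not (i : b.support) (β : ι) (hβ : b.IsPos β)
    (h : ¬ b.IsPos ((rf P i).1 β)) : β = i := by
  by_contra h1
  exact h (isPos_rf b i β hβ h1)

/-- the reflection in `-β` is the reflection in `β` -/
theorem rf_neg (β : ι) : rf P ((rf P β).1 β) = rf P β := by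
  rw [rf_act, rf_mul_self, one_mul, rf_inv]

/-- RT6e. `w (-β)` is positive iff `w β` is not, where `-β = s_β β`.
Proof: `w (s_β β) = s_{wβ} (w β)` by `rf_act`, then RT6a. -/
theorem isPos_act_neg (w : WG P) (β : ι) :
    b.IsPos (w.1 ((rf P β).1 β)) ↔ ¬ b.IsPos (w.1 β) := by
  have h1 : rf P (w.1 β) * w = w * rf P β := by
    rw [rf_act, inv_mul_cancel_right]
  have h2 : w.1 ((rf P β).1 β) = (rf P (w.1 β)).1 (w.1 β) := by
    have h3 := congrArg (fun x : WG P => x.1 β) h1
    exact h3.symm
  rw [h2]
  exact isPos_rf_self b (w.1 β)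

/-! ### lengths -/

/-- RT7a. -/
theorem inv_one : inv b (1 : WG P) = 0 := by
  classical
  unfold inv
  rw [Finset.card_eq_zero, Finset.filter_eq_empty_iff]
  intro β _ h
  exact h.2 h.1

/-- RT7b. If `w α_i < 0` then `w s_i` is shorter by one.
Proof: `β ↦ s_i β` is a bijection from the inversions `≠ α_i` of `w` to the inversions of `w s_i`
(`isPos_rf`, `eq_of_isPos_of_not`; `α_i` is an inversion of `w` and not of `w s_i` by
`isPos_act_neg`).  `Finset.card_bij'` and `Finset.card_erase_add_one`. -/
theorem inv_mul_rf_of_neg (w : WG P) (i : b.support) (h : ¬ b.IsPos (w.1 i)) :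
    inv b (w * rf P i) + 1 = inv b w := by
  classical
  have hi : (i : ι) ∈ Finset.univ.filter fun β : ι => b.IsPos β ∧ ¬ b.IsPos (w.1 β) :=
    Finset.mem_filter.2 ⟨Finset.mem_univ _, isPos_simple b i, h⟩
  have hn : ∀ γ : ι, b.IsPos γ → ¬ b.IsPos (w.1 ((rf P i).1 γ)) → γ ≠ i := by
    rintro γ - h2 rfl
    exact h2 ((isPos_act_neg b w i).2 h)
  have key : (Finset.univ.filter fun β : ι => b.IsPos β ∧
      ¬ b.IsPos ((w * rf P i).1 β)).card =
      ((Finset.univ.filter fun β : ι => b.IsPos β ∧ ¬ b.IsPos (w.1 β)).erase (i : ι)).card := by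
    refine Finset.card_bij' (fun β _ => (rf P i).1 β) (fun β _ => (rf P i).1 β) ?_ ?_ ?_ ?_
    · intro γ hγ
      obtain ⟨-, h1, h2⟩ := Finset.mem_filter.1 hγ
      have h3 : ¬ b.IsPos (w.1 ((rf P i).1 γ)) := h2
      have h4 := hn γ h1 h3
      refine Finset.mem_erase.2 ⟨fun h5 => ?_, Finset.mem_filter.2 ⟨Finset.mem_univ _,
        isPos_rf b i γ h1 h4, h3⟩⟩
      have h6 : γ = (rf P i).1 i := by
        have h7 := congrArg (rf P i).1 h5
        rwa [rf_rf] at h7
      rw [h6] at h1
      exact (isPos_rf_self b (i : ι)).1 h1 (isPos_simple b i)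
    · intro β hβ
      obtain ⟨h0, h1⟩ := Finset.mem_erase.1 hβ
      obtain ⟨-, h1, h2⟩ := Finset.mem_filter.1 h1
      refine Finset.mem_filter.2 ⟨Finset.mem_univ _, isPos_rf b i β h1 h0, ?_⟩
      show ¬ b.IsPos (w.1 ((rf P i).1 ((rf P i).1 β)))
      rwa [rf_rf]
    · intro γ _
      exact rf_rf _ _
    · intro β _
      exact rf_rf _ _
  unfold inv
  rw [key]
  exact Finset.card_erase_add_one hi

/-- RT7c. If `w α_i > 0` then `w s_i` is longer by one. (RT7b for `w s_i`, `isPos_act_neg`.) -/
theorem inv_mul_rf_of_pos (w : WG P) (i : b.support) (h : b.IsPos (w.1 i)) :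
    inv b (w * rf P i) = inv b w + 1 := by
  have h1 : ¬ b.IsPos ((w * rf P i).1 i) := by
    show ¬ b.IsPos (w.1 ((rf P i).1 i))
    rw [isPos_act_neg b w i, not_not]
    exact h
  have h2 := inv_mul_rf_of_neg b (w * rf P i) i h1
  rw [mul_assoc, rf_mul_self, mul_one] at h2
  exact h2.symm

/-- RT8. `inv (wp l) ≤ length l`.  Induction on `l` with RT7b, RT7c. -/
theorem inv_wp_le (l : List b.support) : inv b (wp b l) ≤ l.length := by
  induction l with
  | nil =>
    rw [List.length_nil]
    exact le_of_eq (inv_one b)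
  | cons k l ih =>
    rw [List.length_cons]
    change inv b (wp b l * rf P k) ≤ l.length + 1
    by_cases h : b.IsPos ((wp b l).1 k)
    · rw [inv_mul_rf_of_pos b _ k h]
      omega
    · have h1 := inv_mul_rf_of_neg b _ k h
      omega

/-- RT9. **Exchange.**  Proof: induction on `l`, generalizing `β`.  `l = []` is impossible.
`l = k :: l'`, `wp l = wp l' * s_k`: if `s_k β` is not positive then `β = α_k`
(`eq_of_isPos_of_not`) and `l'` works (`rf_mul_self`).  Otherwise the induction hypothesis for
`s_k β` gives `l''` with `wp l'' = wp l' * rf (s_k β)`, and `k :: l''` works since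
`rf (s_k β) = s_k * rf β * s_k` (`rf_act`, `rf_inv`). -/
theorem exchange (l : List b.support) (β : ι) (hβ : b.IsPos β)
    (h : ¬ b.IsPos ((wp b l).1 β)) :
    ∃ l', l'.length + 1 = l.length ∧ wp b l' = wp b l * rf P β := by
  induction l generalizing β with
  | nil => exact absurd hβ h
  | cons k l ih =>
    have h0 : wp b (k :: l) = wp b l * rf P (k : ι) := rfl
    by_cases h1 : b.IsPos ((rf P (k : ι)).1 β)
    · rw [h0] at h
      obtain ⟨l'', h2, h3⟩ := ih ((rf P (k : ι)).1 β) h1 h
      refine ⟨k :: l'', ?_, ?_⟩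
      · rw [List.length_cons, List.length_cons, h2]
      · have h4 : wp b (k :: l'') = wp b l'' * rf P (k : ι) := rfl
        rw [h4, h3, h0, rf_act, rf_inv, mul_assoc, mul_assoc, mul_assoc, mul_assoc, rf_mul_self,
          mul_one]
    · have h2 := eq_of_isPos_of_not b k β hβ h1
      refine ⟨l, rfl, ?_⟩
      rw [h0, h2, mul_assoc, rf_mul_self, mul_one]

/-- RT10. **Reduced words.**  Proof: let `l` be a word of `w` of minimal length (`exists_word0`,
`Nat.find` or `WellFounded.min`); show by induction on the length: if `l` is a shortest word of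
`w` then `l.length = inv w`.  `l = []`: `inv_one`.  `l = k :: l'`: `l'` is a shortest word of
`w s_k`, so `l'.length = inv (w s_k)`; `(w s_k) α_k` is positive, for otherwise `exchange` for
`l'`, `β = α_k` gives a word of `w` shorter than `l`; so `inv w = inv (w s_k) + 1` by RT7c for
`w s_k`. -/
theorem exists_word (w : WG P) : ∃ l, wp b l = w ∧ l.length = inv b w := by
  classical
  have key : ∀ (n : ℕ) (w : WG P) (l : List b.support), wp b l = w → l.length = n →
      (∀ l', wp b l' = w → l.length ≤ l'.length) → l.length = inv b w := by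
    intro n
    induction n with
    | zero =>
      intro w l hl hn _
      have h0 : l = [] := List.length_eq_zero_iff.1 hn
      subst h0
      rw [← hl]
      exact (inv_one b).symm
    | succ n ih =>
      intro w l hl hn hmin
      cases l with
      | nil => simp at hn
      | cons k l =>
        have hn' : l.length = n := by simpa using hn
        have hw : wp b l = w * rf P k := by
          rw [← hl]
          simp only [wp]
          rw [mul_assoc, rf_mul_self, mul_one]
        have hmin' : ∀ l', wp b l' = w * rf P k → l.length ≤ l'.length := by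
          intro l' hl'
          have := hmin (k :: l') (by
            simp only [wp]
            rw [hl', mul_assoc, rf_mul_self, mul_one])
          simpa using this
        have h1 := ih (w * rf P k) l hw hn' hmin'
        have hpos : b.IsPos ((w * rf P k).1 k) := by
          by_contra hneg
          obtain ⟨l', h2, h3⟩ := exchange b l k (isPos_simple b k) (by rw [hw]; exact hneg)
          have h5 := hmin l' (by rw [h3, hw, mul_assoc, rf_mul_self, mul_one])
          rw [List.length_cons] at h5
          omega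
        have h4 := inv_mul_rf_of_pos b (w * rf P k) k hpos
        rw [mul_assoc, rf_mul_self, mul_one] at h4
        rw [h4, ← h1, List.length_cons]
  have hex : ∃ n, ∃ l, wp b l = w ∧ l.length = n := by
    obtain ⟨l, hl⟩ := exists_word0 b w
    exact ⟨_, l, hl, rfl⟩
  obtain ⟨l, hl, hn⟩ := Nat.find_spec hex
  refine ⟨l, hl, key _ w l hl rfl fun l' hl' => ?_⟩
  rw [hn]
  exact Nat.find_min' hex ⟨l', hl', rfl⟩

/-- RT11a. Only the identity has length 0. (RT10.) -/
theorem eq_one_of_inv_eq_zero (w : WG P) (h : inv b w = 0) : w = 1 := by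
  obtain ⟨l, hl, hn⟩ := exists_word b w
  rw [h] at hn
  have h0 : l = [] := List.length_eq_zero_iff.1 hn
  subst h0
  exact hl.symm

/-- RT11b. A reflection in an inversion shortens. (RT10, RT9, RT8.) -/
theorem inv_mul_rf_lt (w : WG P) (β : ι) (hβ : b.IsPos β) (h : ¬ b.IsPos (w.1 β)) :
    inv b (w * rf P β) < inv b w := by
  obtain ⟨l, hl, hn⟩ := exists_word b w
  obtain ⟨l', h1, h2⟩ := exchange b l β hβ (by rw [hl]; exact h)
  have h3 := inv_wp_le b l'
  rw [h2, hl] at h3
  omega

/-- RT12a. The longest element is unique.  Proof: `w' (−β) ` is positive for positive `β`, so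
`w'⁻¹` makes every negative root positive: if `γ` is not positive and `w'⁻¹ γ` is not positive,
then `-(w'⁻¹ γ)` is positive and `w' (-(w'⁻¹ γ)) = -γ` is positive (`isPos_act_neg`,
`isPos_rf_self`), against `IsLong`.  Similarly `w'⁻¹` makes all positive roots negative.  Hence
`w'⁻¹ * w` makes positive roots positive, `inv (w'⁻¹ * w) = 0`, RT11a. -/
theorem isLong_unique (w w' : WG P) (h : IsLong b w) (h' : IsLong b w') : w = w' := by
  classical
  have key : ∀ γ : ι, ¬ b.IsPos γ → b.IsPos ((w'⁻¹).1 γ) := by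
    intro γ hγ
    by_contra hδ
    have h1 : b.IsPos ((rf P ((w'⁻¹).1 γ)).1 ((w'⁻¹).1 γ)) :=
      (isPos_rf_self b ((w'⁻¹).1 γ)).2 hδ
    have h3 : w'.1 ((w'⁻¹).1 γ) = γ := by
      change w'.1 (w'.1⁻¹ γ) = γ
      simp
    refine h' _ h1 ((isPos_act_neg b w' ((w'⁻¹).1 γ)).2 ?_)
    rw [h3]
    exact hγ
  have h0 : inv b (w'⁻¹ * w) = 0 := by
    unfold inv
    rw [Finset.card_eq_zero, Finset.filter_eq_empty_iff]
    rintro β - ⟨hβ, hn⟩
    exact hn (key _ (h β hβ))
  have h1 := eq_one_of_inv_eq_zero b _ h0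
  exact (inv_mul_eq_one.1 h1).symm

/-- RT12b. An element `w` with `inv w ≥ inv w'` for a longest `w'` is longest.
(`inv w'` is the number of positive roots, `Finset.filter_card_eq`-type argument.) -/
theorem isLong_of_le (w w' : WG P) (h' : IsLong b w') (h : inv b w' ≤ inv b w) :
    IsLong b w := by
  classical
  intro β hβ
  have h1 : (Finset.univ.filter fun β : ι => b.IsPos β ∧ ¬ b.IsPos (w'.1 β)) =
      Finset.univ.filter fun β : ι => b.IsPos β := by
    refine Finset.filter_congr fun γ _ => ⟨fun hγ => hγ.1, fun hγ => ⟨hγ, h' γ hγ⟩⟩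
  have h2 : (Finset.univ.filter fun β : ι => b.IsPos β ∧ ¬ b.IsPos (w.1 β)) ⊆
      Finset.univ.filter fun β : ι => b.IsPos β := by
    intro γ hγ
    rw [Finset.mem_filter] at hγ ⊢
    exact ⟨hγ.1, hγ.2.1⟩
  have h3 : (Finset.univ.filter fun β : ι => b.IsPos β).card ≤
      (Finset.univ.filter fun β : ι => b.IsPos β ∧ ¬ b.IsPos (w.1 β)).card := by
    unfold inv at h
    rw [← h1]
    convert h using 2
  have h4 := Finset.eq_of_subset_of_card_le h2 h3
  have h5 : β ∈ (Finset.univ.filter fun β : ι => b.IsPos β ∧ ¬ b.IsPos (w.1 β)) := by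
    rw [h4, Finset.mem_filter]
    exact ⟨Finset.mem_univ _, hβ⟩
  exact (Finset.mem_filter.1 h5).2.2

private theorem RT12_ng_ng (β : ι) :
    (rf P ((rf P β).1 β)).1 ((rf P β).1 β) = β := by
  rw [rf_neg, rf_rf]

private theorem RT12_act_ng (w : WG P) (β : ι) :
    w.1 ((rf P β).1 β) = (rf P (w.1 β)).1 (w.1 β) := by
  rw [rf_act]
  simp

/-- RT12d. `inv w⁻¹ = inv w`.  Proof: `β ↦ -(w β) = s_{wβ} (w β)` is a bijection from the
inversions of `w` to those of `w⁻¹` (`isPos_rf_self`, `isPos_act_neg`); or: reverse a reduced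
word (`exists_word`, `inv_wp_le`; `(wp l)⁻¹ = wp l.reverse`) to get `inv w⁻¹ ≤ inv w`. -/
theorem inv_inv_eq (w : WG P) : inv b w⁻¹ = inv b w := by
  classical
  have key : ∀ (u : WG P) (β : ι), b.IsPos β ∧ ¬ b.IsPos (u.1 β) →
      b.IsPos ((rf P (u.1 β)).1 (u.1 β)) ∧
        ¬ b.IsPos (u⁻¹.1 ((rf P (u.1 β)).1 (u.1 β))) := by
    rintro u β ⟨h1, h2⟩
    refine ⟨(isPos_rf_self b _).2 h2, fun h3 => ?_⟩
    rw [isPos_act_neg] at h3
    apply h3
    have h4 : u⁻¹.1 (u.1 β) = β := by simp
    rwa [h4]
  have hinv : ∀ (u : WG P) (β : ι),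
      (rf P (u⁻¹.1 ((rf P (u.1 β)).1 (u.1 β)))).1 (u⁻¹.1 ((rf P (u.1 β)).1 (u.1 β))) = β := by
    intro u β
    have h4 : u⁻¹.1 (u.1 β) = β := by simp
    rw [RT12_act_ng u⁻¹ (u.1 β), h4, RT12_ng_ng]
  unfold inv
  refine Finset.card_nbij' (fun β => (rf P (w⁻¹.1 β)).1 (w⁻¹.1 β))
    (fun β => (rf P (w.1 β)).1 (w.1 β)) ?_ ?_ ?_ ?_
  · intro β hβ
    simp only [Finset.coe_filter, Finset.mem_univ, true_and, Set.mem_ofPred_eq] at hβ ⊢
    have h := key w⁻¹ β hβ
    rwa [inv_inv] at h
  · intro β hβ
    simp only [Finset.coe_filter, Finset.mem_univ, true_and, Set.mem_ofPred_eq] at hβ ⊢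
    exact key w β hβ
  · intro β _
    have h := hinv w⁻¹ β
    rw [inv_inv] at h
    exact h
  · intro β _
    exact hinv w β

/-- RT12e. `inv (v⁻¹ w₀) + inv v = inv w₀`.  Proof: `inv w₀` is the number of positive roots.
The map `β ↦ γ = -(w₀ β) = s_{w₀β} (w₀ β)` is a bijection of the positive roots
(`isPos_rf_self`; injective), and `v⁻¹ w₀ β = -(v⁻¹ γ)`, so `β` is an inversion of `v⁻¹ w₀` iff
`γ` is not an inversion of `v⁻¹` (`isPos_act_neg`).  So `inv (v⁻¹ w₀) + inv v⁻¹` is the number of
positive roots; RT12d. -/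
theorem inv_mul_isLong (v w₀ : WG P) (h : IsLong b w₀) :
    inv b (v⁻¹ * w₀) + inv b v = inv b w₀ := by
  classical
  have h0 : inv b w₀ = (Finset.univ.filter fun β : ι => b.IsPos β).card := by
    unfold inv
    congr 1
    ext β
    simp only [Finset.mem_filter, Finset.mem_univ, true_and]
    exact ⟨fun h1 => h1.1, fun h1 => ⟨h1, h β h1⟩⟩
  have h1 : inv b (v⁻¹ * w₀) =
      (Finset.univ.filter fun β : ι => b.IsPos β ∧ b.IsPos (v⁻¹.1 β)).card := by
    unfold inv
    refine Finset.card_nbij' (fun β => (rf P (w₀.1 β)).1 (w₀.1 β))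
      (fun γ => w₀⁻¹.1 ((rf P γ).1 γ)) ?_ ?_ ?_ ?_
    · intro β hβ
      simp only [Finset.coe_filter, Finset.mem_univ, true_and, Set.mem_ofPred_eq] at hβ ⊢
      refine ⟨(isPos_rf_self b _).2 (h β hβ.1), ?_⟩
      rw [isPos_act_neg]
      exact hβ.2
    · intro γ hγ
      simp only [Finset.coe_filter, Finset.mem_univ, true_and, Set.mem_ofPred_eq] at hγ ⊢
      have h4 : w₀.1 (w₀⁻¹.1 ((rf P γ).1 γ)) = (rf P γ).1 γ := by simp
      refine ⟨?_, ?_⟩
      · by_contra h5
        rw [isPos_act_neg, not_not] at h5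
        have h6 := h _ h5
        have h7 : w₀.1 (w₀⁻¹.1 γ) = γ := by simp
        rw [h7] at h6
        exact h6 hγ.1
      · have h8 : (v⁻¹ * w₀).1 (w₀⁻¹.1 ((rf P γ).1 γ)) =
            v⁻¹.1 (w₀.1 (w₀⁻¹.1 ((rf P γ).1 γ))) := rfl
        rw [h8, h4, isPos_act_neg, not_not]
        exact hγ.2
    · intro β _
      simp only [RT12_ng_ng]
      simp
    · intro γ _
      have h4 : w₀.1 (w₀⁻¹.1 ((rf P γ).1 γ)) = (rf P γ).1 γ := by simp
      simp only [h4, RT12_ng_ng]
  have h2 : inv b v = (Finset.univ.filter fun β : ι => b.IsPos β ∧ ¬ b.IsPos (v⁻¹.1 β)).card := by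
    rw [← inv_inv_eq b v]
    rfl
  rw [h0, h1, h2, ← Finset.filter_filter, ← Finset.filter_filter]
  exact Finset.card_filter_add_card_filter_not _

/-! ### coordinates -/

/-- The coordinates of the coroot `β^∨` with respect to the simple coroots, i.e. the values of the
fundamental weights on it. -/
noncomputable def cf (β : ι) (j : b.support) : ℚ := b.toCoweightBasis.repr (P.coroot β) j

/-- The coordinates of the root `β` with respect to the simple roots. -/
noncomputable def rcf (β : ι) (j : b.support) : ℚ := b.toWeightBasis.repr (P.root β) j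

/-- The value `⟨λ, β^∨⟩` of the weight with coordinates `a`. -/
noncomputable def ev (a : b.support → ℚ) (β : ι) : ℚ := ∑ j, a j * cf b β j

/-- The reflected weight `s_i λ`. -/
noncomputable def sw (i : b.support) (a : b.support → ℚ) : b.support → ℚ :=
  fun k => a k - a i * P.pairing i k

theorem cf_simple (i j : b.support) [Decidable (j = i)] :
    cf b (i : ι) j = if j = i then 1 else 0 := by
  classical
  simp [cf, Finsupp.single_apply, eq_comm]

theorem coroot_eq_sum (β : ι) : P.coroot β = ∑ j, cf b β j • P.coroot (j : ι) := by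
  have := (b.toCoweightBasis.sum_repr (P.coroot β)).symm
  simpa [cf] using this

theorem root_eq_sum (β : ι) : P.root β = ∑ j, rcf b β j • P.root (j : ι) := by
  have := (b.toWeightBasis.sum_repr (P.root β)).symm
  simpa [rcf] using this

/-- RT13a. (`coroot_eq_sum` and linearity of the pairing.) -/
theorem sum_cf_pairing (k β : ι) : ∑ j, cf b β j * P.pairing k (j : ι) = P.pairing k β := by
  rw [← P.root_coroot_eq_pairing k β, coroot_eq_sum b β, map_sum]
  refine Finset.sum_congr rfl fun j _ => ?_
  rw [map_smul, P.root_coroot_eq_pairing, smul_eq_mul]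

/-- RT13b. `s_i` changes only the `i`-th coordinate of a coroot. (`P.coroot_reflectionPerm`,
`P.coreflection_apply_coroot`.) -/
theorem cf_rf (i : b.support) (β : ι) (j : b.support) [Decidable (j = i)] :
    cf b ((rf P i).1 β) j = cf b β j - if j = i then P.pairing i β else 0 := by
  have h1 : P.coroot ((rf P (i : ι)).1 β) = P.coroot β - P.pairing i β • P.coroot i := by
    rw [rf_apply, P.coroot_reflectionPerm, P.coreflection_apply_coroot]
  have h2 : cf b ((rf P (i : ι)).1 β) j = cf b β j - P.pairing i β * cf b (i : ι) j := by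
    unfold cf
    rw [h1, map_sub, map_smul]
    rfl
  rw [h2, cf_simple]
  split_ifs <;> simp

/-- RT13c. `s_k` changes only the `k`-th coordinate of a root. -/
theorem rcf_rf_of_ne (k : b.support) (β : ι) (j : b.support) (h : j ≠ k) :
    rcf b ((rf P k).1 β) j = rcf b β j := by
  classical
  have h1 : P.root ((rf P (k : ι)).1 β) = P.root β - P.pairing β k • P.root k := by
    rw [rf_apply, P.root_reflectionPerm, P.reflection_apply_root]
  have h2 : rcf b ((rf P (k : ι)).1 β) j = rcf b β j - P.pairing β k * rcf b (k : ι) j := by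
    unfold rcf
    rw [h1, map_sub, map_smul]
    rfl
  have h3 : rcf b (k : ι) j = 0 := by
    simp [rcf, Ne.symm h]
  rw [h2, h3, mul_zero, sub_zero]

/-- RT13d. `⟨s_i λ, β^∨⟩ = ⟨λ, (s_i β)^∨⟩`. (RT13a, RT13b.) -/
theorem ev_sw (i : b.support) (a : b.support → ℚ) (β : ι) :
    ev b (sw b i a) β = ev b a ((rf P i).1 β) := by
  classical
  unfold ev sw
  have h1 : ∑ j, (a j - a i * P.pairing i j) * cf b β j =
      ∑ j, a j * cf b β j - a i * ∑ j, cf b β j * P.pairing i (j : ι) := by
    rw [Finset.mul_sum, ← Finset.sum_sub_distrib]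
    exact Finset.sum_congr rfl fun j _ => by ring
  rw [h1, sum_cf_pairing]
  simp_rw [cf_rf, mul_sub, Finset.sum_sub_distrib]
  simp

/-- RT13e. `⟨λ, α_i^∨⟩ = a_i`. -/
theorem ev_simple (a : b.support → ℚ) (i : b.support) : ev b a (i : ι) = a i := by
  classical
  unfold ev
  simp_rw [cf_simple]
  simp

/-- RT13f. The Weyl group acts linearly on coroots, in coordinates.
(`exists_lift` for `x`, `coroot_eq_sum`.) -/
theorem cf_act (x : WG P) (β : ι) (j : b.support) :
    cf b (x.1 β) j = ∑ k, cf b β k * cf b (x.1 (k : ι)) j := by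
  obtain ⟨g, g', -, hg', -⟩ := exists_lift x
  have h : P.coroot (x.1 β) = ∑ k, cf b β k • P.coroot (x.1 (k : ι)) := by
    rw [hg' β]
    conv_lhs => rw [coroot_eq_sum b β]
    rw [map_sum]
    exact Finset.sum_congr rfl fun k _ => by rw [map_smul, ← hg' (k : ι)]
  have h2 := congrArg (fun v => b.toCoweightBasis.repr v j) h
  simp only [map_smul, map_sum, Finsupp.smul_apply, Finsupp.coe_finsetSum, Finset.sum_apply,
    smul_eq_mul] at h2
  exact h2

/-- RT13g. The same for roots. -/
theorem rcf_act (x : WG P) (β : ι) (j : b.support) :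
    rcf b (x.1 β) j = ∑ k, rcf b β k * rcf b (x.1 (k : ι)) j := by
  obtain ⟨g, g', hg, -, -⟩ := exists_lift x
  have h : P.root (x.1 β) = ∑ k, rcf b β k • P.root (x.1 (k : ι)) := by
    rw [hg β]
    conv_lhs => rw [root_eq_sum b β]
    rw [map_sum]
    exact Finset.sum_congr rfl fun k _ => by rw [map_smul, ← hg (k : ι)]
  have h2 := congrArg (fun v => b.toWeightBasis.repr v j) h
  simp only [map_smul, map_sum, Finsupp.smul_apply, Finsupp.coe_finsetSum, Finset.sum_apply,
    smul_eq_mul] at h2
  exact h2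

/-- RT13h. The value on `-β` is the opposite. -/
theorem ev_rf_self (a : b.support → ℚ) (β : ι) : ev b a ((rf P β).1 β) = - ev b a β := by
  have h : ∀ j, cf b ((rf P β).1 β) j = - cf b β j := by
    intro j
    unfold cf
    rw [rf_apply, P.coroot_reflectionPerm, P.coreflection_apply_self, map_neg, Finsupp.neg_apply]
  unfold ev
  rw [← Finset.sum_neg_distrib]
  exact Finset.sum_congr rfl fun j _ => by rw [h j, mul_neg]

/-- RT14a. The coordinates of a positive root are nonnegative.  Proof:
`b.exists_root_eq_sum_int β` gives integers `f`, all `≥ 0` or all `≤ 0`, with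
`root β = Σ f_j root j`; these are the coordinates; `height` is their sum (`height_eq_sum`), so in
the second case `β` is not positive. -/
theorem rcf_nonneg (β : ι) (hβ : b.IsPos β) (j : b.support) : 0 ≤ rcf b β j := by
  classical
  obtain ⟨f, hf₀, hf₁, hf₂⟩ := b.exists_root_eq_sum_int β
  have h1 : P.root β = ∑ k : b.support, (f (k : ι) : ℚ) • P.root (k : ι) := by
    rw [hf₂, ← Finset.sum_coe_sort b.support (fun k => f k • P.root k)]
    exact Finset.sum_congr rfl fun k _ => (Int.cast_smul_eq_zsmul ℚ _ _).symm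
  have hco : rcf b β j = (f (j : ι) : ℚ) := by
    rw [rcf, h1, map_sum, Finsupp.coe_finsetSum, Finset.sum_apply]
    simp only [map_smul, RootPairing.Base.toWeightBasis_repr_root, Finsupp.smul_apply,
      Finsupp.single_apply, smul_eq_mul, mul_ite, mul_one, mul_zero]
    rw [Finset.sum_ite_eq' Finset.univ j]
    simp
  rw [hco]
  rcases hf₁ with h | h
  · exact_mod_cast h.le j
  · exfalso
    have h2 : b.height β ≤ 0 := by
      rw [RootPairing.Base.height_eq_sum hf₂]
      exact Finset.sum_nonpos fun k _ => h.le k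
    exact absurd hβ (not_lt.mpr h2)

/-- RT14b. A root with a positive coordinate is positive. (RT14a for `-β = s_β β`:
otherwise `-β` is positive, so `rcf (-β) j = - rcf β j ≥ 0`.) -/
theorem isPos_of_rcf_pos (β : ι) (j : b.support) (h : 0 < rcf b β j) : b.IsPos β := by
  by_contra hn
  have h1 : b.IsPos ((rf P β).1 β) := (isPos_rf_self b β).mpr hn
  have h2 := rcf_nonneg b _ h1 j
  have h3 : rcf b ((rf P β).1 β) j = - rcf b β j := by
    unfold rcf
    rw [rf_apply, P.root_reflectionPerm, P.reflection_apply_self, map_neg, Finsupp.neg_apply]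
  rw [h3] at h2
  linarith

/-- RT14c. If `β` is positive and `x α_j` is positive for all simple roots `α_j` occurring in `β`,
then `x β` is positive.  Proof: by `rcf_act` all coordinates of `x β` are nonnegative
(`rcf_nonneg`); one of them is nonzero, as `root (x β) ≠ 0`; RT14b. -/
theorem isPos_of_supp (x : WG P) (β : ι) (hβ : b.IsPos β)
    (h : ∀ j : b.support, rcf b β j ≠ 0 → b.IsPos (x.1 j)) : b.IsPos (x.1 β) := by
  have h0 : ∀ j, 0 ≤ rcf b (x.1 β) j := by
    intro j
    rw [rcf_act]
    refine Finset.sum_nonneg fun k _ => ?_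
    by_cases hk : rcf b β k = 0
    · rw [hk, zero_mul]
    · exact mul_nonneg (rcf_nonneg b β hβ k) (rcf_nonneg b _ (h k hk) j)
  by_contra hn
  have h1 : ∀ j, rcf b (x.1 β) j = 0 := by
    intro j
    by_contra h2
    exact hn (isPos_of_rcf_pos b _ j (lt_of_le_of_ne (h0 j) (Ne.symm h2)))
  apply P.ne_zero (x.1 β)
  rw [root_eq_sum b (x.1 β)]
  exact Finset.sum_eq_zero fun j _ => by rw [h1 j, zero_smul]

/-- RT14d. **A longest element exists.**  Proof: take `w` with `inv w` maximal
(`Finite.exists_max`; `WG P` is finite).  Then no `w α_i` is positive (`inv_mul_rf_of_pos`).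
If `β` is positive, all coordinates of `w β` are `≤ 0` (`rcf_act`, `rcf_nonneg` for `β`, and
`rcf (w α_k) j ≤ 0` by RT14b); if `w β` were positive they would all be `0` by `rcf_nonneg`,
but `root (w β) ≠ 0` (`P.ne_zero`, `root_eq_sum`). -/
theorem exists_isLong : ∃ w : WG P, IsLong b w := by
  classical
  have : Finite (WG P) := inferInstance
  have : Nonempty (WG P) := ⟨1⟩
  obtain ⟨w, hw⟩ := Finite.exists_max fun w : WG P => inv b w
  have h1 : ∀ i : b.support, ¬ b.IsPos (w.1 i) := by
    intro i hi
    have h2 := inv_mul_rf_of_pos b w i hi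
    have h3 := hw (w * rf P i)
    omega
  refine ⟨w, fun β hβ hwβ => ?_⟩
  have h2 : ∀ j, rcf b (w.1 β) j = 0 := by
    intro j
    refine le_antisymm ?_ (rcf_nonneg b _ hwβ j)
    rw [rcf_act]
    refine Finset.sum_nonpos fun k _ => ?_
    refine mul_nonpos_of_nonneg_of_nonpos (rcf_nonneg b β hβ k) ?_
    by_contra h
    exact h1 k (isPos_of_rcf_pos b _ j (not_le.mp h))
  have h3 : P.root (w.1 β) = 0 := by
    rw [root_eq_sum b]
    exact Finset.sum_eq_zero fun j _ => by rw [h2 j, zero_smul]
  exact P.ne_zero _ h3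

/-- RT15. **Coroots of positive roots are positive.**
Proof: show for all `β` that either `b.IsPos β` and all `cf b β j ≥ 0`, or `¬ b.IsPos β` and all
`cf b β j ≤ 0`, by `b.induction_reflect β` (the three steps: `β ↦ s_β β = -β`: both signs change,
`isPos_rf_self`, `ev_rf_self`-like formula; simple `β`: `cf_simple`; `β ↦ s_j β`, `j` simple: if
`β = α_j` or `β = -α_j` it is clear; otherwise positivity of `β` is unchanged
(`isPos_rf_iff`), and some coordinate `cf β k ≠ 0` with `k ≠ j`, which is unchanged (`cf_rf`), so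
the common sign of the coordinates of the coroot (all `≥ 0` or all `≤ 0` by
`b.coroot_mem_or_neg_mem`, or `b.flip.exists_root_eq_sum_int`) is unchanged.  If there is no such
`k` then `coroot β = c • coroot j`, so `β = ± α_j` as the root system is reduced
(`b.flip.eq_one_or_neg_one_of_mem_support_of_smul_mem`, `P.coroot` injective)). -/
theorem cf_nonneg (β : ι) (hβ : b.IsPos β) (j : b.support) : 0 ≤ cf b β j := by
  classical
  have hpos : ∀ i : ι, 0 < P.RootForm (P.root i) (P.root i) := by
    intro i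
    rw [P.rootForm_apply_apply]
    refine Finset.sum_pos' (fun k _ => mul_self_nonneg _) ⟨i, Finset.mem_univ _, ?_⟩
    simp
  have h1 : (P.RootForm (P.root β) (P.root β)) • P.coroot β =
      ∑ k : b.support, (rcf b β k * P.RootForm (P.root (k : ι)) (P.root (k : ι))) •
        P.coroot (k : ι) := by
    have h3 : P.Polarization (P.root β) =
        ∑ k : b.support, rcf b β k • P.Polarization (P.root (k : ι)) := by
      conv_lhs => rw [root_eq_sum b β]
      rw [map_sum]
      exact Finset.sum_congr rfl fun k _ => by rw [map_smul]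
    rw [P.rootForm_self_smul_coroot, h3, Finset.smul_sum]
    refine Finset.sum_congr rfl fun k _ => ?_
    rw [mul_smul, P.rootForm_self_smul_coroot, smul_comm]
  have h2 := congrArg (fun v => b.toCoweightBasis.repr v j) h1
  simp only [map_smul, map_sum, Finsupp.smul_apply, Finsupp.coe_finset_sum, Finset.sum_apply,
    smul_eq_mul] at h2
  have h4 : ∑ k : b.support, rcf b β k * P.RootForm (P.root (k : ι)) (P.root (k : ι)) *
      (b.toCoweightBasis.repr (P.coroot (k : ι))) j =
      rcf b β j * P.RootForm (P.root (j : ι)) (P.root (j : ι)) := by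
    rw [Finset.sum_eq_single j]
    · have := cf_simple b j j
      rw [if_pos rfl] at this
      rw [show (b.toCoweightBasis.repr (P.coroot (j : ι))) j = 1 from this, mul_one]
    · intro k _ hk
      have := cf_simple b k j
      rw [if_neg (Ne.symm hk)] at this
      rw [show (b.toCoweightBasis.repr (P.coroot (k : ι))) j = 0 from this, mul_zero]
    · intro h
      exact absurd (Finset.mem_univ _) h
  rw [h4] at h2
  have h5 : 0 ≤ P.RootForm (P.root β) (P.root β) * cf b β j := by
    have h6 : P.RootForm (P.root β) (P.root β) * cf b β j =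
        rcf b β j * P.RootForm (P.root (j : ι)) (P.root (j : ι)) := h2
    rw [h6]
    exact mul_nonneg (rcf_nonneg b β hβ j) (hpos _).le
  exact nonneg_of_mul_nonneg_right h5 (hpos β)

/-! ### weights of walks -/

theorem wt_succ (f : ℕ → b.support) (t : ℕ) : wt b f (t + 1) = sw b (f t) (wt b f t) := rfl

/-- RT16a. `⟨μ_t, β^∨⟩ ≥ 0` if `β` is positive and contains a simple root `α_j` with
`j ≠ f s` for all `s < t`.
Proof: induction on `t`, generalizing `β`.  `t = 0`: `ev (wt f 0) β = cf β (f 0) ≥ 0`.  `t + 1`: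
by `ev_sw` it is `ev (wt f t) (s_{f t} β)`, and `s_{f t} β` has the same `j`-th coordinate
(`rcf_rf_of_ne`), which is positive, so it is positive (`isPos_of_rcf_pos`). -/
theorem ev_wt_nonneg (f : ℕ → b.support) (t : ℕ) (β : ι) (hβ : b.IsPos β) (j : b.support)
    (hj : rcf b β j ≠ 0) (h : ∀ s < t, j ≠ f s) : 0 ≤ ev b (wt b f t) β := by
  classical
  induction t generalizing β with
  | zero =>
    have h1 : ev b (wt b f 0) β = cf b β (f 0) := by
      simp [ev, wt]
    rw [h1]
    exact cf_nonneg b β hβ _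
  | succ t ih =>
    rw [wt_succ, ev_sw]
    have h1 : rcf b ((rf P (f t : ι)).1 β) j = rcf b β j :=
      rcf_rf_of_ne b (f t) β j (h t (Nat.lt_succ_self t))
    have h2 : 0 < rcf b β j := lt_of_le_of_ne (rcf_nonneg b β hβ j) (Ne.symm hj)
    have h3 : b.IsPos ((rf P (f t : ι)).1 β) := isPos_of_rcf_pos b _ j (by rw [h1]; exact h2)
    exact ih _ h3 (by rw [h1]; exact hj) fun s hs => h s (Nat.lt_succ_of_lt hs)

/-- RT16b. If `x⁻¹ α_{f s}` is positive for all `s < t` then `⟨μ_t, β^∨⟩ ≥ 0` for all inversions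
`β` of `x⁻¹`.  (By `isPos_of_supp` for `x⁻¹` some simple root `α_j` in `β` has `x⁻¹ α_j` not
positive, so `j ≠ f s` for all `s < t`; RT16a.) -/
theorem ev_wt_nonneg_of_min (f : ℕ → b.support) (t : ℕ) (x : WG P)
    (hx : ∀ s < t, b.IsPos ((x⁻¹).1 (f s))) (β : ι) (hβ : b.IsPos β)
    (h : ¬ b.IsPos ((x⁻¹).1 β)) : 0 ≤ ev b (wt b f t) β := by
  have h1 : ∃ j : b.support, rcf b β j ≠ 0 ∧ ¬ b.IsPos ((x⁻¹).1 j) := by
    by_contra hn
    push Not at hn
    exact h (isPos_of_supp b x⁻¹ β hβ hn)
  obtain ⟨j, hj, hxj⟩ := h1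
  refine ev_wt_nonneg b f t β hβ j hj fun s hs hjs => hxj ?_
  rw [hjs]
  exact hx s hs

end H28T
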