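import Mathlib

/-!
# Complete, elementary and hook symmetric functions of a list (pieces SY)
-/

namespace H28T

open MvPolynomial

variable {R : Type*} [CommRing R]

/-- auxiliary recursion for `hl` -/
def hstep (h : List R → R) : List R → R
  | [] => 0
  | x :: l => hstep h l + x * h (x :: l)

/-- The complete symmetric function `h_k` of the entries of a list. -/
def hl : ℕ → List R → R
  | 0 => fun _ => 1
  | k + 1 => hstep (hl k)

/-- The elementary symmetric function `e_k` of the entries of a list. -/
def el : ℕ → List R → R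
  | 0, _ => 1
  | _ + 1, [] => 0
  | k + 1, x :: l => el (k + 1) l + x * el k l

/-- The Schur function of the hook `(a + 1, 1^r)` of the entries of a list. -/
def hk (a r : ℕ) : List R → R
  | [] => 0
  | x :: l => hk a r l + x * (el r l * hl a (x :: l))

theorem hl_zero (l : List R) : hl 0 l = 1 := rfl
theorem hl_succ_nil (k : ℕ) : hl (k + 1) ([] : List R) = 0 := rfl
theorem hl_succ_cons (k : ℕ) (x : R) (l : List R) :
    hl (k + 1) (x :: l) = hl (k + 1) l + x * hl k (x :: l) := rfl
theorem el_zero (l : List R) : el 0 l = 1 := by cases l <;> rfl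
theorem el_succ_nil (k : ℕ) : el (k + 1) ([] : List R) = 0 := rfl
theorem el_succ_cons (k : ℕ) (x : R) (l : List R) :
    el (k + 1) (x :: l) = el (k + 1) l + x * el k l := rfl
theorem hk_nil (a r : ℕ) : hk a r ([] : List R) = 0 := rfl
theorem hk_cons (a r : ℕ) (x : R) (l : List R) :
    hk a r (x :: l) = hk a r l + x * (el r l * hl a (x :: l)) := rfl

/-- SY1. swapping the first two entries.  Induction on `k`: with `H_k = h_k(x :: y :: l)`, equal
to `h_k(y :: x :: l)` by induction,
`h_{k+1}(x :: y :: l) = h_{k+1}(l) + y h_k(y :: l) + x H_k` and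
`h_{k+1}(y :: x :: l) = h_{k+1}(l) + x h_k(x :: l) + y H_k`; they are equal because for `k ≥ 1`
`H_k - h_k(y :: l) = x H_{k-1}` and `H_k - h_k(x :: l) = y H_{k-1}`. -/
theorem hl_swap (k : ℕ) (x y : R) (l : List R) : hl k (x :: y :: l) = hl k (y :: x :: l) := by
  induction k using Nat.strong_induction_on with
  | _ k ih =>
    match k, ih with
    | 0, _ => rfl
    | 1, _ =>
      simp only [hl_succ_cons, hl_zero]
      ring
    | k + 2, ih =>
      have h1 := ih (k + 1) (by omega)
      have h2 := ih k (by omega)
      rw [hl_succ_cons (k + 1) x (y :: l), hl_succ_cons (k + 1) y l,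
        hl_succ_cons (k + 1) y (x :: l), hl_succ_cons (k + 1) x l, ← h1]
      have h3 : hl (k + 1) (x :: y :: l) = hl (k + 1) (y :: l) + x * hl k (x :: y :: l) :=
        hl_succ_cons k x (y :: l)
      have h4 : hl (k + 1) (x :: y :: l) = hl (k + 1) (x :: l) + y * hl k (x :: y :: l) := by
        rw [h1, hl_succ_cons k y (x :: l), ← h2]
      linear_combination (-y) * h3 + x * h4

/-- SY2. `h_k` only depends on the multiset of entries. (`List.Perm` induction; the `cons` case
by induction on `k`; the `swap` case is SY1.) -/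
theorem hl_perm (k : ℕ) {l l' : List R} (h : l.Perm l') : hl k l = hl k l' := by
  induction h generalizing k with
  | nil => rfl
  | cons x _ ih =>
    induction k with
    | zero => rfl
    | succ k ihk => rw [hl_succ_cons, hl_succ_cons, ih, ihk]
  | swap x y l => exact hl_swap k y x l
  | trans _ _ ih1 ih2 => exact (ih1 k).trans (ih2 k)

/-- SY3. the same for `e_k` -/
theorem el_perm (k : ℕ) {l l' : List R} (h : l.Perm l') : el k l = el k l' := by
  induction h generalizing k with
  | nil => rfl
  | cons x _ ih =>
    cases k with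
    | zero => rw [el_zero, el_zero]
    | succ k => rw [el_succ_cons, el_succ_cons, ih, ih]
  | swap x y l =>
    match k with
    | 0 => rw [el_zero, el_zero]
    | 1 =>
      simp only [el_succ_cons, el_zero]
      ring
    | k + 2 =>
      simp only [el_succ_cons]
      ring
  | trans _ _ ih1 ih2 => exact (ih1 k).trans (ih2 k)

/-- SY4. `h_{k+1}(x :: l) - h_{k+1}(y :: l) = (x - y) h_k(x :: y :: l)`.
(`h_{k+1}(x :: y :: l) = h_{k+1}(y :: l) + x h_k(x :: y :: l)` and, by SY1, also
`= h_{k+1}(x :: l) + y h_k(x :: y :: l)`.) -/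
theorem hl_exch (k : ℕ) (x y : R) (l : List R) :
    hl (k + 1) (x :: l) - hl (k + 1) (y :: l) = (x - y) * hl k (x :: y :: l) := by
  have h1 := hl_succ_cons k x (y :: l)
  have h2 := hl_succ_cons k y (x :: l)
  rw [hl_swap (k + 1) y x l, hl_swap k y x l] at h2
  linear_combination h1 - h2

/-- SY5. `hook(x :: l) - hook(y :: l) = (x - y) e_r(l) h_a(x :: y :: l)`.
(`x h_a(x :: l) = h_{a+1}(x :: l) - h_{a+1}(l)` and SY4.) -/
theorem hk_exch (a r : ℕ) (x y : R) (l : List R) :
    hk a r (x :: l) - hk a r (y :: l) = (x - y) * (el r l * hl a (x :: y :: l)) := by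
  rw [hk_cons, hk_cons]
  linear_combination el r l * hl_exch a x y l - el r l * hl_succ_cons a x l +
    el r l * hl_succ_cons a y l

/-- SY6. the hook function is symmetric.  `cons` case: SY2, SY3 and the induction hypothesis.
`swap` case: `hook(x :: y :: l) = hook(l) + y e_r(l) h_a(y :: l) + x e_r(y :: l) h_a(x :: y :: l)`;
for `r = 0` and `r + 1` separately, with `e_{r+1}(y :: l) = e_{r+1}(l) + y e_r(l)`, and
`y h_a(y :: l) + x h_a(x :: y :: l) = h_{a+1}(x :: y :: l) - h_{a+1}(l)`, which is symmetric. -/
theorem hk_perm (a r : ℕ) {l l' : List R} (h : l.Perm l') : hk a r l = hk a r l' := by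
  induction h with
  | nil => rfl
  | cons x h ih => rw [hk_cons, hk_cons, ih, el_perm r h, hl_perm a (h.cons x)]
  | swap x y l =>
    have h1 := hl_succ_cons a x l
    have h2 := hl_succ_cons a y l
    have h3 := hl_succ_cons a y (x :: l)
    have h4 := hl_succ_cons a x (y :: l)
    rw [hl_swap (a + 1) x y l, hl_swap a x y l] at h4
    rw [hk_cons, hk_cons, hk_cons, hk_cons, hl_swap a x y l]
    cases r with
    | zero =>
      rw [el_zero, el_zero, el_zero]
      linear_combination h4 - h3 + h2 - h1
    | succ r =>
      rw [el_succ_cons, el_succ_cons]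
      linear_combination el (r + 1) l * (h4 - h3 + h2 - h1)
  | trans _ _ ih1 ih2 => exact ih1.trans ih2

theorem map_hl {S : Type*} [CommRing S] (φ : R →+* S) (k : ℕ) (l : List R) :
    φ (hl k l) = hl k (l.map φ) := by
  induction k generalizing l with
  | zero => simp [hl_zero]
  | succ k ih =>
    induction l with
    | nil => simp [hl_succ_nil]
    | cons x l ih2 => simp only [List.map_cons, hl_succ_cons, map_add, map_mul, ih, ih2]

theorem map_el {S : Type*} [CommRing S] (φ : R →+* S) (k : ℕ) (l : List R) :
    φ (el k l) = el k (l.map φ) := by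
  induction l generalizing k with
  | nil => cases k <;> simp [el_zero, el_succ_nil]
  | cons x l ih =>
    cases k with
    | zero => simp [el_zero]
    | succ k => simp only [List.map_cons, el_succ_cons, map_add, map_mul, ih]

theorem map_hk {S : Type*} [CommRing S] (φ : R →+* S) (a r : ℕ) (l : List R) :
    φ (hk a r l) = hk a r (l.map φ) := by
  induction l with
  | nil => simp [hk_nil]
  | cons x l ih =>
    simp only [List.map_cons, hk_cons, map_add, map_mul, ih, map_hl, map_el]

/-- SY7. degrees -/
theorem hl_homog {σ : Type*} (k : ℕ) (l : List (MvPolynomial σ ℚ))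
    (h : ∀ x ∈ l, x.IsHomogeneous 1) : (hl k l).IsHomogeneous k := by
  induction k generalizing l with
  | zero => rw [hl_zero]; exact isHomogeneous_one σ ℚ
  | succ k ih =>
    induction l with
    | nil => rw [hl_succ_nil]; exact isHomogeneous_zero σ ℚ _
    | cons x l ih2 =>
      rw [hl_succ_cons]
      have h3 := (h x (by simp)).mul (ih (x :: l) h)
      rw [Nat.add_comm] at h3
      exact (ih2 fun y hy => h y (by simp [hy])).add h3

/-- SY8. degrees -/
theorem el_homog {σ : Type*} (k : ℕ) (l : List (MvPolynomial σ ℚ))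
    (h : ∀ x ∈ l, x.IsHomogeneous 1) : (el k l).IsHomogeneous k := by
  induction l generalizing k with
  | nil =>
    cases k with
    | zero => rw [el_zero]; exact isHomogeneous_one σ ℚ
    | succ k => rw [el_succ_nil]; exact isHomogeneous_zero σ ℚ _
  | cons x l ih =>
    cases k with
    | zero => rw [el_zero]; exact isHomogeneous_one σ ℚ
    | succ k =>
      have hl' : ∀ y ∈ l, y.IsHomogeneous 1 := fun y hy => h y (by simp [hy])
      have h3 := (h x (by simp)).mul (ih k hl')
      rw [Nat.add_comm] at h3
      rw [el_succ_cons]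
      exact (ih (k + 1) hl').add h3

/-- SY9. degrees -/
theorem hk_homog {σ : Type*} (a r : ℕ) (l : List (MvPolynomial σ ℚ))
    (h : ∀ x ∈ l, x.IsHomogeneous 1) : (hk a r l).IsHomogeneous (a + r + 1) := by
  induction l with
  | nil => rw [hk_nil]; exact isHomogeneous_zero σ ℚ _
  | cons x l ih =>
    have hl' : ∀ y ∈ l, y.IsHomogeneous 1 := fun y hy => h y (by simp [hy])
    have h3 := (h x (by simp)).mul ((el_homog r l hl').mul (hl_homog a (x :: l) h))
    rw [show 1 + (r + a) = a + r + 1 by omega] at h3
    rw [hk_cons]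
    exact (ih hl').add h3

end H28T
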