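import Pool.Agent.Helper28.CS3.Walk
import Pool.Agent.Helper28.CS3.Defs2

/-!
# Straight walks: leaf chains, types B and C (pieces TY)
-/

namespace H28T

open MvPolynomial Equiv

set_option linter.unusedSectionVars false

variable {ι M N : Type*} [Fintype ι] [AddCommGroup M] [Module ℚ M]
  [AddCommGroup N] [Module ℚ N] {P : RootPairing ι ℚ M N}
variable (b : P.Base) [P.IsRootSystem] [P.IsCrystallographic] [P.IsReduced]

/-- TY1. **Leaf chains are straight.**
Proof: by induction on `t < K`: `wt t j = 0` for `j ≠ f t` and `j ≠ f (t-1)`,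
`wt t (f t) = c_t > 0`, `wt t (f (t-1)) = - c_{t-1}` if `t ≥ 1`; and `c_t = 1` if `t + 1 < K`.
Step from `t` to `t + 1 < K`: `wt (t+1) j = wt t j - c_t * pairing (f t) j`:
`j = f (t+1)`: `wt t (f (t+1)) = 0` (it is neither `f t` nor `f (t-1)`, `inj`), so
`c_{t+1} = - c_t * pairing (f t) (f (t+1)) > 0` (`bond`; `= 1` if `t + 2 < K`, `simple`);
`j = f (t-1)`, `t ≥ 1`: `- c_{t-1} - c_t * pairing (f t) (f (t-1)) = -1 + 1 = 0` (`simple (t-1)`,
`c_{t-1} = c_t = 1`); other `j ≠ f t`: `0 - c_t * 0` (`far`). -/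
theorem straight_of_leafChain (f : ℕ → b.support) (K : ℕ) (h : LeafChain b f K) :
    Straight b f K := by
  have key : ∀ t, t < K → 0 < wt b f t (f t) ∧ (t + 1 < K → wt b f t (f t) = 1) ∧
      (∀ j, j ≠ f t → (∀ s, s + 1 = t → j ≠ f s) → wt b f t j = 0) ∧
      (∀ s, s + 1 = t → wt b f t (f s) = -1) := by
    intro t
    induction t with
    | zero =>
      intro _
      refine ⟨by simp [wt], fun _ => by simp [wt], fun j hj _ => by simp [wt, hj], fun s hs => ?_⟩
      omega
    | succ t ih =>
      intro ht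
      obtain ⟨h1, h2, h3, h4⟩ := ih (by omega)
      have h2' := h2 ht
      have hne : f (t + 1) ≠ f t := fun he => by
        have := h.inj _ ht _ (by omega) he
        omega
      have hz : wt b f t (f (t + 1)) = 0 := by
        refine h3 _ hne fun s hs he => ?_
        have := h.inj _ ht _ (by omega) he
        omega
      have hv : wt b f (t + 1) (f (t + 1)) = - P.pairing (f t) (f (t + 1)) := by
        simp only [wt, hz, h2']
        ring
      refine ⟨?_, ?_, ?_, ?_⟩
      · rw [hv]
        have := h.bond t ht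
        linarith
      · intro ht2
        rw [hv, (h.simple t ht2).1]
        norm_num
      · intro j hj hj2
        have hj3 : j ≠ f t := hj2 t rfl
        by_cases hs : ∃ s, s + 1 = t ∧ j = f s
        · obtain ⟨s, hs, rfl⟩ := hs
          simp only [wt, h2', h4 s hs]
          subst hs
          rw [(h.simple s ht).2]
          norm_num
        · have hs' : ∀ s, s + 1 = t → j ≠ f s := fun s hs1 he => hs ⟨s, hs1, he⟩
          simp only [wt, h2', h3 j hj3 hs', h.far t ht j hj3 hj hs']
          norm_num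
      · intro s hs
        have hs' : s = t := by omega
        subst hs'
        simp only [wt, h2', P.pairing_same]
        norm_num
  intro t ht
  obtain ⟨h1, _, h3, _⟩ := key t ht
  exact ⟨h1, h3⟩

/-- TY2. In a leaf chain of length `m + a + 1` the nodes `f p`, `m < p ≤ m + a`, are orthogonal
to the nodes `f q`, `q < m`. (`far` for `t = q`: `f p ≠ f q, f (q+1), f (q-1)` by `inj`; this
gives `pairing (f q) (f p) = 0`, and `pairing_eq_zero_iff` for the reverse.) -/
theorem leafChain_orth (f : ℕ → b.support) (m a : ℕ) (h : LeafChain b f (m + a + 1)) (p : ℕ)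
    (hp : m < p) (hp' : p ≤ m + a) (q : ℕ) (hq : q < m) : P.pairing (f p) (f q) = 0 := by
  rw [P.pairing_eq_zero_iff]
  refine h.far q (by omega) (f p) ?_ ?_ ?_
  · intro e
    have := h.inj p (by omega) q (by omega) e
    omega
  · intro e
    have := h.inj p (by omega) (q + 1) (by omega) e
    omega
  · intro s hs e
    have := h.inj p (by omega) s (by omega) e
    omega

private theorem bcNode_lt (n : ℕ) (hn : 0 < n) (t : ℕ) (h : t < n) : bcNode n hn t = ⟨t, h⟩ :=
  Fin.ext (if_pos h)

private theorem bcNode_ge (n : ℕ) (hn : 0 < n) (t : ℕ) (h : n ≤ t) :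
    bcNode n hn t = ⟨2 * n - 2 - t, by omega⟩ :=
  Fin.ext (if_neg (by omega))

/-- The weights of the walk, for a matrix whose rows satisfy `hrow`. -/
private theorem wt_bc (n : ℕ) (hn : 0 < n) (e : Fin n ≃ b.support) (c : ℕ → ℚ) (hc0 : c 0 = 1)
    (hrow : ∀ t, t + 1 < 2 * n - 1 → ∀ k : Fin n,
      c (bcNode n hn t) * P.pairing (e (bcNode n hn t)) (e k) =
        (if k = bcNode n hn t then 2 * c (bcNode n hn t) else 0)
        - (if k = bcNode n hn (t + 1) then c (bcNode n hn (t + 1)) else 0)
        - (if 1 ≤ t ∧ k = bcNode n hn (t - 1) then c (bcNode n hn (t - 1)) else 0)) (t : ℕ) :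
    t < 2 * n - 1 → ∀ k : Fin n, wt b (fun t => e (bcNode n hn t)) t (e k) =
      (if k = bcNode n hn t then c (bcNode n hn t) else 0)
      - (if 1 ≤ t ∧ k = bcNode n hn (t - 1) then c (bcNode n hn (t - 1)) else 0) := by
  induction t with
  | zero =>
    intro _ k
    have h0 : ((bcNode n hn 0 : Fin n) : ℕ) = 0 := by simp [bcNode, hn]
    simp [wt, h0, hc0]
  | succ t ih =>
    intro ht k
    have ih' := ih (by omega)
    have hne : ¬ (1 ≤ t ∧ bcNode n hn t = bcNode n hn (t - 1)) := by
      rintro ⟨h1, h2⟩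
      have h3 := congrArg Fin.val h2
      simp only [bcNode] at h3
      split_ifs at h3 <;> omega
    have hc : wt b (fun t => e (bcNode n hn t)) t (e (bcNode n hn t)) = c (bcNode n hn t) := by
      rw [ih', if_pos rfl, if_neg hne, sub_zero]
    have hstep : wt b (fun t => e (bcNode n hn t)) (t + 1) (e k) =
        wt b (fun t => e (bcNode n hn t)) t (e k)
        - wt b (fun t => e (bcNode n hn t)) t (e (bcNode n hn t))
          * P.pairing (e (bcNode n hn t)) (e k) := rfl
    rw [hstep, hc, hrow t ht k, ih' k]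
    have e1 : t + 1 - 1 = t := rfl
    rw [e1]
    by_cases hk : k = bcNode n hn t
    · rw [if_pos hk, if_pos hk, if_pos (⟨by omega, hk⟩ : 1 ≤ t + 1 ∧ k = bcNode n hn t)]
      ring
    · rw [if_neg hk, if_neg hk, if_neg (fun h : 1 ≤ t + 1 ∧ k = bcNode n hn t => hk h.2)]
      ring

private theorem straight_bc (n : ℕ) (hn : 0 < n) (e : Fin n ≃ b.support) (c : ℕ → ℚ) (hc0 : c 0 = 1)
    (hc : ∀ i, 0 < c i)
    (hrow : ∀ t, t + 1 < 2 * n - 1 → ∀ k : Fin n,
      c (bcNode n hn t) * P.pairing (e (bcNode n hn t)) (e k) =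
        (if k = bcNode n hn t then 2 * c (bcNode n hn t) else 0)
        - (if k = bcNode n hn (t + 1) then c (bcNode n hn (t + 1)) else 0)
        - (if 1 ≤ t ∧ k = bcNode n hn (t - 1) then c (bcNode n hn (t - 1)) else 0)) :
    Straight b (fun t => e (bcNode n hn t)) (2 * n - 1) := by
  intro t ht
  have h := wt_bc b n hn e c hc0 hrow t ht
  have hne : ¬ (1 ≤ t ∧ bcNode n hn t = bcNode n hn (t - 1)) := by
    rintro ⟨h1, h2⟩
    have h3 := congrArg Fin.val h2
    simp only [bcNode] at h3
    split_ifs at h3 <;> omega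
  refine ⟨?_, ?_⟩
  · show 0 < wt b (fun t => e (bcNode n hn t)) t (e (bcNode n hn t))
    rw [h, if_pos rfl, if_neg hne, sub_zero]
    exact hc _
  · intro j hj hs
    obtain ⟨k, rfl⟩ := e.surjective j
    have hk : k ≠ bcNode n hn t := fun he => hj (by rw [he])
    have hk2 : ¬ (1 ≤ t ∧ k = bcNode n hn (t - 1)) := by
      rintro ⟨h1, h2⟩
      exact hs (t - 1) (by omega) (by rw [h2])
    rw [h, if_neg hk, if_neg hk2, sub_zero]

/-- TY3. The weights of the walk in type `C_n`: `wt t = ω_t - ω_{t-1}` for `t < n`,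
`wt (n + s) = ω_{n-2-s} - ω_{n-1-s}` for `s ≤ n - 2`, so the walk is straight.
(`CartanMatrix.C n i j`: `2` on the diagonal, `-1` for `|i - j| = 1` except
`C (n-1) (n-2) = -2`.)  Formulated without case distinction: for `t ≤ 2 n - 2`,
`wt t (e k) = 1` if `k` is the index of node `t`, `-1` if `t ≥ 1` and `k` is the index of node
`t - 1`, and `0` otherwise. Induction on `t` with `wt (t+1) j = wt t j - wt t (f t) * C (f t) j`. -/
theorem straight_C (n : ℕ) (hn : 0 < n) (e : Fin n ≃ b.support)
    (he : ∀ i j, P.pairing (e i) (e j) = (CartanMatrix.C n i j : ℚ)) :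
    Straight b (fun t => e (bcNode n hn t)) (2 * n - 1) := by
  refine straight_bc b n hn e (fun _ => 1) rfl (fun _ => one_pos) fun t ht k => ?_
  rw [he]
  obtain ⟨k, hk⟩ := k
  simp only [CartanMatrix.C, Matrix.of_apply, bcNode, Fin.mk.injEq]
  split_ifs <;> first | omega | norm_num

/-- TY4. The weights of the walk in type `B_n` (`n ≥ 2`; for `n = 1` it is the same as `C_1`):
`wt t = ω_t - ω_{t-1}` for `t < n - 1`, `wt (n-1) = 2 ω_{n-1} - ω_{n-2}`,
`wt n = ω_{n-2} - 2 ω_{n-1}`, `wt (n + s) = ω_{n-2-s} - ω_{n-1-s}` for `1 ≤ s ≤ n - 2`, so the walk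
is straight.
(`CartanMatrix.B n i j`: `2` on the diagonal, `-1` for `|i - j| = 1` except
`B (n-2) (n-1) = -2`.) -/
theorem straight_B (n : ℕ) (hn : 0 < n) (e : Fin n ≃ b.support)
    (he : ∀ i j, P.pairing (e i) (e j) = (CartanMatrix.B n i j : ℚ)) :
    Straight b (fun t => e (bcNode n hn t)) (2 * n - 1) := by
  rcases Nat.lt_or_ge 1 n with h1 | h1
  · refine straight_bc b n hn e (fun i => if i = n - 1 then 2 else 1) (if_neg (by omega))
      (fun i => by split_ifs <;> norm_num) fun t ht k => ?_
    rw [he]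
    obtain ⟨k, hk⟩ := k
    rcases Nat.lt_or_ge t n with h2 | h2
    · rw [bcNode_lt n hn t h2, bcNode_lt n hn (t - 1) (by omega)]
      rcases Nat.lt_or_ge (t + 1) n with h3 | h3
      · rw [bcNode_lt n hn (t + 1) h3]
        simp only [CartanMatrix.B, Matrix.of_apply, Fin.mk.injEq]
        rw [if_neg (show ¬ t = n - 1 by omega), if_neg (show ¬ t - 1 = n - 1 by omega)]
        split_ifs <;> first | omega | norm_num
      · rw [bcNode_ge n hn (t + 1) h3]
        simp only [CartanMatrix.B, Matrix.of_apply, Fin.mk.injEq]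
        rw [if_pos (show t = n - 1 by omega), if_neg (show ¬ 2 * n - 2 - (t + 1) = n - 1 by omega),
          if_neg (show ¬ t - 1 = n - 1 by omega)]
        split_ifs <;> first | omega | norm_num
    · rw [bcNode_ge n hn t h2, bcNode_ge n hn (t + 1) (by omega)]
      rcases Nat.lt_or_ge (t - 1) n with h3 | h3
      · rw [bcNode_lt n hn (t - 1) h3]
        simp only [CartanMatrix.B, Matrix.of_apply, Fin.mk.injEq]
        rw [if_neg (show ¬ 2 * n - 2 - t = n - 1 by omega),
          if_neg (show ¬ 2 * n - 2 - (t + 1) = n - 1 by omega),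
          if_pos (show t - 1 = n - 1 by omega)]
        split_ifs <;> first | omega | norm_num
      · rw [bcNode_ge n hn (t - 1) h3]
        simp only [CartanMatrix.B, Matrix.of_apply, Fin.mk.injEq]
        rw [if_neg (show ¬ 2 * n - 2 - t = n - 1 by omega),
          if_neg (show ¬ 2 * n - 2 - (t + 1) = n - 1 by omega),
          if_neg (show ¬ 2 * n - 2 - (t - 1) = n - 1 by omega)]
        split_ifs <;> first | omega | norm_num
  · refine straight_bc b n hn e (fun _ => 1) rfl (fun _ => one_pos) fun t ht k => ?_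
    omega

/-- TY5a. injectivity of the walk on `{0..m}`, `m < n` -/
theorem bc_inj (n : ℕ) (hn : 0 < n) (e : Fin n ≃ b.support) (m : ℕ) (hm : m < n) :
    ∀ s ≤ m, ∀ t ≤ m, e (bcNode n hn s) = e (bcNode n hn t) → s = t := by
  intro s hs t ht h
  have h1 := congrArg Fin.val (e.injective h)
  simp only [bcNode] at h1
  rw [if_pos (by omega), if_pos (by omega)] at h1
  exact h1

/-- TY5b. orthogonality in types `B`, `C` (any matrix vanishing for `|i - j| ≥ 2`) -/
theorem bc_orth (n : ℕ) (hn : 0 < n) (e : Fin n ≃ b.support)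
    (he : ∀ i j : Fin n, (i : ℕ) + 1 < j ∨ (j : ℕ) + 1 < i → P.pairing (e i) (e j) = 0)
    (m a r : ℕ) (hm : m < n) (h : r = 0 ∨ 2 * m + a + 3 ≤ 2 * n) :
    ∀ p, m < p → p ≤ m + a → ∀ q, q < m → m ≤ q + r →
      P.pairing (e (bcNode n hn p)) (e (bcNode n hn q)) = 0 := by
  intro p hp hp' q hq hr
  apply he
  right
  have h2 : 2 * m + a + 3 ≤ 2 * n := by
    rcases h with h | h
    · omega
    · exact h
  simp only [bcNode]
  rw [if_pos (show q < n by omega)]
  split_ifs <;> omega

end H28T
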