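import Pool.Agent.Helper28.CS3.Rep
import Pool.Agent.Helper28.CS3.Sym

/-!
# Straight walks: positivity and Schubert classes of the hook polynomials (pieces WK)
-/

namespace H28T

open MvPolynomial Equiv

set_option linter.unusedSectionVars false

variable {ι M N : Type*} [Fintype ι] [AddCommGroup M] [Module ℚ M]
  [AddCommGroup N] [Module ℚ N] {P : RootPairing ι ℚ M N}
variable (b : P.Base) [P.IsRootSystem] [P.IsCrystallographic] [P.IsReduced]

/-- the weight `μ_t` as a linear polynomial -/
noncomputable def mu (f : ℕ → b.support) (t : ℕ) : Pol b := lin b (wt b f t)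

/-- the list `[μ_{t-1}, ..., μ_0]` -/
noncomputable def LL (f : ℕ → b.support) : ℕ → List (Pol b)
  | 0 => []
  | t + 1 => mu b f t :: LL f t

theorem mu_homog (f : ℕ → b.support) (t : ℕ) : (mu b f t).IsHomogeneous 1 := lin_homog b _

theorem LL_homog (f : ℕ → b.support) (t : ℕ) : ∀ x ∈ LL b f t, x.IsHomogeneous 1 := by
  induction t with
  | zero => simp [LL]
  | succ t ih =>
    intro x hx
    rw [LL, List.mem_cons] at hx
    rcases hx with rfl | hx
    · exact mu_homog b f t
    · exact ih x hx

/-- WK1. -/
theorem sact_mu_self (f : ℕ → b.support) (t : ℕ) : sact b (f t) (mu b f t) = mu b f (t + 1) := by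
  rw [mu, sact_lin, ← wt_succ, mu]

/-- WK2. -/
theorem sact_mu_succ (f : ℕ → b.support) (t : ℕ) : sact b (f t) (mu b f (t + 1)) = mu b f t := by
  rw [← sact_mu_self, sact_sact]

/-- WK3. If `⟨μ_t, α_j^∨⟩ = 0` then `s_j` fixes `μ_t`. -/
theorem sact_mu_of_zero (f : ℕ → b.support) (t : ℕ) (j : b.support) (h : wt b f t j = 0) :
    sact b j (mu b f t) = mu b f t := by
  rw [mu, sact_lin]
  congr 1
  funext k
  simp [sw, h]

/-- WK4. `⟨μ_{t+1}, α_{f t}^∨⟩ = - ⟨μ_t, α_{f t}^∨⟩`; hence consecutive nodes of a straight walk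
are different. -/
theorem wt_succ_self (f : ℕ → b.support) (t : ℕ) : wt b f (t + 1) (f t) = - wt b f t (f t) := by
  simp only [wt, P.pairing_same]
  ring

theorem f_ne_succ (f : ℕ → b.support) (K t : ℕ) (hf : Straight b f K) (ht : t + 1 < K) :
    f t ≠ f (t + 1) := by
  intro h
  have h1 := (hf t (by omega)).1
  have h2 := (hf (t + 1) ht).1
  rw [← h, wt_succ_self] at h2
  linarith

/-- WK5. `s_j` permutes `μ_0, ..., μ_{n-1}`, `n ≤ K`, if `j ≠ f (n-1)`.
Proof: strong induction on `n`.  `n = 0`: nothing.  `n = 1`: `s_j μ_0 = μ_0` (`Straight`, WK3).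
`n + 2`, `j ≠ f (n+1)`: if `j = f n` then `s_j` exchanges `μ_{n+1}` and `μ_n` (WK1, WK2) and
`j ≠ f (n-1)` by `f_ne_succ`, so the induction hypothesis for `n` applies and
`List.Perm.swap`.  Otherwise `s_j μ_{n+1} = μ_{n+1}` (`Straight`, WK3) and the induction
hypothesis for `n + 1` applies. -/
theorem map_LL_perm (f : ℕ → b.support) (K n : ℕ) (hf : Straight b f K) (hn : n ≤ K)
    (j : b.support) (hj : ∀ s, s + 1 = n → j ≠ f s) :
    ((LL b f n).map (sact b j)).Perm (LL b f n) := by
  induction n using Nat.strong_induction_on generalizing j with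
  | _ n ih =>
    match n, ih, hn, hj with
    | 0, _, _, _ => simp [LL]
    | 1, _, hn, hj =>
      have h0 : sact b j (mu b f 0) = mu b f 0 :=
        sact_mu_of_zero b f 0 j ((hf 0 (by omega)).2 j (hj 0 rfl) fun s hs => by omega)
      simp only [LL, List.map_cons, List.map_nil, h0]
      exact List.Perm.refl _
    | n + 2, ih, hn, hj =>
      by_cases h1 : j = f n
      · subst h1
        have h2 := ih n (by omega) (by omega) (f n) fun s hs => by
          subst hs
          exact (f_ne_succ b f K s hf (by omega)).symm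
        simp only [LL, List.map_cons, sact_mu_self, sact_mu_succ]
        exact (List.Perm.swap _ _ _).trans ((h2.cons _).cons _)
      · have h0 : sact b j (mu b f (n + 1)) = mu b f (n + 1) :=
          sact_mu_of_zero b f (n + 1) j ((hf (n + 1) (by omega)).2 j (hj (n + 1) rfl) fun s hs => by
            obtain rfl : s = n := by omega
            exact h1)
        have h2 := ih (n + 1) (by omega) (by omega) j fun s hs => by
          obtain rfl : s = n := by omega
          exact h1
        rw [LL, List.map_cons, h0]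
        exact h2.cons _

/-- the hypothesis of WK5 for `j = f n` -/
theorem map_LL_perm_self (f : ℕ → b.support) (K n : ℕ) (hf : Straight b f K) (hn : n < K) :
    ((LL b f n).map (sact b (f n))).Perm (LL b f n) := by
  refine map_LL_perm b f K n hf hn.le _ fun s hs => ?_
  subst hs
  exact (f_ne_succ b f K s hf hn).symm

/-- WK6a. invariance -/
theorem sact_hl (f : ℕ → b.support) (K n k : ℕ) (hf : Straight b f K) (hn : n ≤ K)
    (j : b.support) (hj : ∀ s, s + 1 = n → j ≠ f s) :
    sact b j (hl k (LL b f n)) = hl k (LL b f n) := by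
  have h := map_hl (sact b j : Pol b →+* Pol b) k (LL b f n)
  exact h.trans (hl_perm k (map_LL_perm b f K n hf hn j hj))

/-- WK6b. invariance -/
theorem sact_el (f : ℕ → b.support) (K n k : ℕ) (hf : Straight b f K) (hn : n ≤ K)
    (j : b.support) (hj : ∀ s, s + 1 = n → j ≠ f s) :
    sact b j (el k (LL b f n)) = el k (LL b f n) := by
  have h := map_el (sact b j : Pol b →+* Pol b) k (LL b f n)
  exact h.trans (el_perm k (map_LL_perm b f K n hf hn j hj))

/-- WK6c. invariance -/
theorem sact_hk (f : ℕ → b.support) (K n a r : ℕ) (hf : Straight b f K) (hn : n ≤ K)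
    (j : b.support) (hj : ∀ s, s + 1 = n → j ≠ f s) :
    sact b j (hk a r (LL b f n)) = hk a r (LL b f n) := by
  have h := map_hk (sact b j : Pol b →+* Pol b) a r (LL b f n)
  exact h.trans (hk_perm a r (map_LL_perm b f K n hf hn j hj))

/-- WK7. `μ_n - μ_{n+1} = ⟨μ_n, α_{f n}^∨⟩ α_{f n}`. -/
theorem mu_sub_mu (f : ℕ → b.support) (n : ℕ) :
    mu b f n - mu b f (n + 1) = C (wt b f n (f n)) * rt b (f n) := by
  simp only [mu, rt, lin, rc, wt]
  rw [← Finset.sum_sub_distrib, Finset.mul_sum]
  refine Finset.sum_congr rfl fun j _ => ?_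
  rw [C_sub, C_mul]
  ring

/-- WK8a. `∂_{f n} h_{k+1}(μ_0..μ_n) = c_n h_k(μ_0..μ_{n+1})`.
(`dd1_unique`; `sact (hl (k+1) (μ_n :: L)) = hl (k+1) (μ_{n+1} :: L)` by `map_hl`, WK1,
`map_LL_perm_self`, `hl_perm`; `hl_exch`, `hl_swap`, WK7.) -/
theorem dd1_hl (f : ℕ → b.support) (K n k : ℕ) (hf : Straight b f K) (hn : n < K) :
    dd1 b (f n) (hl (k + 1) (LL b f (n + 1))) =
      C (wt b f n (f n)) * hl k (LL b f (n + 2)) := by
  apply dd1_unique
  have h1 : sact b (f n) (hl (k + 1) (LL b f (n + 1))) =
      hl (k + 1) (mu b f (n + 1) :: LL b f n) := by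
    have h := map_hl (sact b (f n) : Pol b →+* Pol b) (k + 1) (LL b f (n + 1))
    refine h.trans (hl_perm (k + 1) ?_)
    show (sact b (f n) (mu b f n) :: (LL b f n).map (sact b (f n))).Perm _
    rw [sact_mu_self]
    exact (map_LL_perm_self b f K n hf hn).cons _
  have h2 := hl_exch k (mu b f n) (mu b f (n + 1)) (LL b f n)
  rw [mu_sub_mu, hl_swap] at h2
  have e1 : LL b f (n + 1) = mu b f n :: LL b f n := rfl
  have e2 : LL b f (n + 2) = mu b f (n + 1) :: mu b f n :: LL b f n := rfl
  rw [h1, e1, e2, h2]
  ring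

/-- WK8b. `∂_{f n} e_{k+1}(μ_0..μ_n) = c_n e_k(μ_0..μ_{n-1})`. -/
theorem dd1_el (f : ℕ → b.support) (K n k : ℕ) (hf : Straight b f K) (hn : n < K) :
    dd1 b (f n) (el (k + 1) (LL b f (n + 1))) = C (wt b f n (f n)) * el k (LL b f n) := by
  apply dd1_unique
  have h1 : sact b (f n) (el (k + 1) (LL b f (n + 1))) =
      el (k + 1) (mu b f (n + 1) :: LL b f n) := by
    have h := map_el (sact b (f n) : Pol b →+* Pol b) (k + 1) (LL b f (n + 1))
    refine h.trans (el_perm (k + 1) ?_)
    show (sact b (f n) (mu b f n) :: (LL b f n).map (sact b (f n))).Perm _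
    rw [sact_mu_self]
    exact (map_LL_perm_self b f K n hf hn).cons _
  have e1 : LL b f (n + 1) = mu b f n :: LL b f n := rfl
  rw [h1, e1, el_succ_cons, el_succ_cons]
  linear_combination (- el k (LL b f n)) * mu_sub_mu b f n

/-- WK8c. the same for the hook function (`hk_exch`) -/
theorem dd1_hk (f : ℕ → b.support) (K n a r : ℕ) (hf : Straight b f K) (hn : n < K) :
    dd1 b (f n) (hk a r (LL b f (n + 1))) =
      C (wt b f n (f n)) * (el r (LL b f n) * hl a (LL b f (n + 2))) := by
  apply dd1_unique
  have h1 : sact b (f n) (hk a r (LL b f (n + 1))) =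
      hk a r (mu b f (n + 1) :: LL b f n) := by
    have h := map_hk (sact b (f n) : Pol b →+* Pol b) a r (LL b f (n + 1))
    refine h.trans (hk_perm a r ?_)
    show (sact b (f n) (mu b f n) :: (LL b f n).map (sact b (f n))).Perm _
    rw [sact_mu_self]
    exact (map_LL_perm_self b f K n hf hn).cons _
  have h2 := hk_exch a r (mu b f n) (mu b f (n + 1)) (LL b f n)
  rw [mu_sub_mu, hl_swap] at h2
  have e1 : LL b f (n + 1) = mu b f n :: LL b f n := rfl
  have e2 : LL b f (n + 2) = mu b f (n + 1) :: mu b f n :: LL b f n := rfl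
  rw [h1, e1, e2, h2]
  ring

/-! ### positivity -/

/-- WK9. **Positivity of triangular sums.** If `F = Σ_{t < n} μ_t G_t` with `G_t ∈ PP` and `F` is
invariant under `s_{f s}` for `s + 1 < n` then `F ∈ PP`.
Proof: `PP_of_min` with `J j := ∃ s, s + 1 < n ∧ j = f s`; for such `x`,
`(μ_t G_t) · x = G_t · (μ_t · x)` and `μ_t · x ≥ 0` by `NN_Lop`, `ev_wt_nonneg_of_min`
(`s < t < n` gives `s + 1 < n`); `act_lin`, `Lop_bas`, `PP.act`. -/
theorem PP_triangular (f : ℕ → b.support) (n : ℕ) (F : Pol b) (G : ℕ → Pol b)
    (hF : F = ∑ t ∈ Finset.range n, mu b f t * G t) (hG : ∀ t < n, PP b (G t))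
    (hinv : ∀ s, s + 1 < n → sact b (f s) F = F) : PP b F := by
  refine PP_of_min b (fun j => ∃ s, s + 1 < n ∧ j = f s) F ?_ ?_
  · rintro k ⟨s, hs, rfl⟩
    exact hinv s hs
  · intro x hx
    rw [hF, map_sum, LinearMap.sum_apply]
    refine NN.sum _ _ fun t ht => ?_
    have ht' := Finset.mem_range.mp ht
    rw [mul_comm, act_mul_apply]
    refine (hG t ht').act ?_
    rw [mu, act_lin]
    refine NN_Lop b _ x fun β hβ hβ' => ?_
    exact ev_wt_nonneg_of_min b f t x (fun s hs => hx (f s) ⟨s, by omega, rfl⟩) β hβ hβ'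

/-- WK10a. `h_k(μ_0..μ_{n-1}) ∈ PP` for `n ≤ m + 1 ≤ K` if `f` is injective on `{0..m}`.
Induction on `k`: `h_{k+1}(LL n) = Σ_{t<n} μ_t h_k(LL (t+1))` (induction on `n`), `sact_hl`
(`f s ≠ f (n-1)` for `s + 1 < n`), WK9. -/
theorem PP_hl (f : ℕ → b.support) (K m : ℕ) (hf : Straight b f K) (hm : m < K)
    (hinj : ∀ s ≤ m, ∀ t ≤ m, f s = f t → s = t) (k n : ℕ) (hn : n ≤ m + 1) :
    PP b (hl k (LL b f n)) := by
  induction k generalizing n with
  | zero =>
    rw [hl_zero]
    exact PP.one
  | succ k ih =>
    have hsum : ∀ j : ℕ, hl (k + 1) (LL b f j) =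
        ∑ t ∈ Finset.range j, mu b f t * hl k (LL b f (t + 1)) := by
      intro j
      induction j with
      | zero => simp [LL, hl_succ_nil]
      | succ j ihj =>
        rw [Finset.sum_range_succ, ← ihj]
        exact hl_succ_cons k (mu b f j) (LL b f j)
    refine PP_triangular b f n _ (fun t => hl k (LL b f (t + 1))) (hsum n)
      (fun t ht => ih (t + 1) (by omega)) fun s hs => ?_
    refine sact_hl b f K n (k + 1) hf (by omega) (f s) fun s' hs' h => ?_
    have := hinj s (by omega) s' (by omega) h
    omega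

/-- WK10b. `e_k(μ_0..μ_{n-1}) ∈ PP`: `e_{k+1}(LL n) = Σ_{t<n} μ_t e_k(LL t)`. -/
theorem PP_el (f : ℕ → b.support) (K m : ℕ) (hf : Straight b f K) (hm : m < K)
    (hinj : ∀ s ≤ m, ∀ t ≤ m, f s = f t → s = t) (k n : ℕ) (hn : n ≤ m + 1) :
    PP b (el k (LL b f n)) := by
  induction k generalizing n with
  | zero =>
    rw [el_zero]
    exact PP.one
  | succ k ih =>
    have hsum : ∀ j : ℕ, el (k + 1) (LL b f j) =
        ∑ t ∈ Finset.range j, mu b f t * el k (LL b f t) := by
      intro j
      induction j with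
      | zero => simp [LL, el_succ_nil]
      | succ j ihj =>
        rw [Finset.sum_range_succ, ← ihj]
        exact el_succ_cons k (mu b f j) (LL b f j)
    refine PP_triangular b f n _ (fun t => el k (LL b f t)) (hsum n)
      (fun t ht => ih t (by omega)) fun s hs => ?_
    refine sact_el b f K n (k + 1) hf (by omega) (f s) fun s' hs' h => ?_
    have := hinj s (by omega) s' (by omega) h
    omega

/-- WK10c. hook polynomials: `hk a r (LL n) = Σ_{t<n} μ_t e_r(LL t) h_a(LL (t+1))`. -/
theorem PP_hk (f : ℕ → b.support) (K m : ℕ) (hf : Straight b f K) (hm : m < K)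
    (hinj : ∀ s ≤ m, ∀ t ≤ m, f s = f t → s = t) (a r n : ℕ) (hn : n ≤ m + 1) :
    PP b (hk a r (LL b f n)) := by
  have hsum : ∀ j : ℕ, hk a r (LL b f j) =
      ∑ t ∈ Finset.range j, mu b f t * (el r (LL b f t) * hl a (LL b f (t + 1))) := by
    intro j
    induction j with
    | zero => simp [LL, hk_nil]
    | succ j ihj =>
      rw [Finset.sum_range_succ, ← ihj]
      exact hk_cons a r (mu b f j) (LL b f j)
  refine PP_triangular b f n _ (fun t => el r (LL b f t) * hl a (LL b f (t + 1))) (hsum n)
    (fun t ht => PP.mul (PP_el b f K m hf hm hinj r t (by omega))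
      (PP_hl b f K m hf hm hinj a (t + 1) (by omega))) fun s hs => ?_
  refine sact_hk b f K n a r hf (by omega) (f s) fun s' hs' h => ?_
  have := hinj s (by omega) s' (by omega) h
  omega

/-! ### words -/

/-- the word `f (n), ..., f (n + a - 1)` -/
def hL (f : ℕ → b.support) (n a : ℕ) : List b.support := (List.range a).map fun t => f (n + t)

/-- the word `f (s-1), ..., f (s-r)` -/
def eL (f : ℕ → b.support) (s r : ℕ) : List b.support := (List.range r).map fun t => f (s - 1 - t)

theorem hL_succ (f : ℕ → b.support) (n a : ℕ) : hL b f n (a + 1) = f n :: hL b f (n + 1) a := by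
  simp [hL, List.range_succ_eq_map, Function.comp_def, Nat.add_assoc, Nat.add_comm 1]

theorem eL_succ (f : ℕ → b.support) (s r : ℕ) :
    eL b f (s + 1) (r + 1) = f s :: eL b f s r := by
  simp [eL, List.range_succ_eq_map, Function.comp_def]
  intro a _
  congr 1
  omega

theorem hookL_eq (f : ℕ → b.support) (m a r : ℕ) :
    hookL b f m a r = f m :: (hL b f (m + 1) a ++ eL b f m r) := by
  simp [hookL, hL, eL, List.range_succ_eq_map, Function.comp_def, Nat.add_assoc, Nat.add_comm 1]

theorem wp_append (l l' : List b.support) : wp b (l ++ l') = wp b l' * wp b l := by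
  induction l with
  | nil => simp [wp]
  | cons k l ih => simp [wp, ih, mul_assoc]

/-- WK11. if `⟨α_j, α_k^∨⟩ = 0` then `s_j`, `s_k` commute.
(`rf_act`, and `P.reflectionPerm j k = k`-type lemma `reflectionPerm_eq_of_pairing_eq_zero'`,
`pairing_eq_zero_iff`.) -/
theorem rf_comm (j k : ι) (h : P.pairing j k = 0) : rf P j * rf P k = rf P k * rf P j := by
  have h1 : P.reflectionPerm j k = k := P.reflectionPerm_eq_of_pairing_eq_zero' h
  have h2 := rf_act (rf P j) k
  have h3 : (rf P j).1 k = k := h1
  rw [h3] at h2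
  calc rf P j * rf P k = (rf P j * rf P k * (rf P j)⁻¹) * rf P j := by group
    _ = rf P k * rf P j := by rw [← h2]

/-- WK12. **The words of `e_r h_a`.**  Let `Q = e_r(LL s) * h_a(LL (n+1))`, where the nodes
`f p`, `n ≤ p < n + a` are orthogonal to the nodes `f q`, `s - r ≤ q < s`.  Then
`ε(∂_l Q) ≠ 0` for `length l = a + r` only if `wp l = wp (hL n a ++ eL s r)`, and
`ε(∂_l Q) > 0` for `l = hL n a ++ eL s r`.
Proof: induction on `a + r`, generalizing `s, n, a, r, l`.  Let `l = j :: l'`.
If `a = a' + 1` and `j = f n`: `e_r(LL s)` is `s_j`-invariant (`sact_el`; if `r ≥ 1` then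
`f n ≠ f (s-1)` because they are orthogonal; if `r = 0` it is `1`), so
`∂_j Q = c_n e_r(LL s) h_{a'}(LL (n+2))` (`dd1_mul_of_inv`, `dd1_hl`), and the claim follows from
the induction hypothesis for `n + 1`, `a'` (`dd_C_mul`, `hL_succ`).
If `r = r' + 1` (so `s = s' + 1`) and `j = f s'`: similarly
`∂_j Q = c_{s'} e_{r'}(LL s') h_a(LL (n+1))`, and `wp l = wp l' * s_j` with
`wp l' = wp (hL n a ++ eL s' r') = wp (eL s' r') * wp (hL n a)`; `s_j` commutes with
`wp (hL n a)` (`rf_comm`), which gives `wp l = wp (eL s r) * wp (hL n a)`.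
Otherwise `Q` is `s_j`-invariant and `∂_j Q = 0` (`dd1_eq_zero_of_inv`).
For the second statement: if `a ≥ 1` the head of the word is `f n`, if `a = 0`, `r ≥ 1` it is
`f (s-1)`; if `a = r = 0` it is `ε(1) = 1`.
(`pairing j j = 2 ≠ 0` shows that orthogonal nodes are different.) -/
theorem words_el_hl (f : ℕ → b.support) (K : ℕ) (hf : Straight b f K) (s n a r : ℕ) (hs : s ≤ K)
    (hn : n + a ≤ K) (hr : r ≤ s)
    (hc : ∀ p, n ≤ p → p < n + a → ∀ q, q < s → s ≤ q + r → P.pairing (f p) (f q) = 0) :
    (∀ l : List b.support, l.length = a + r →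
      constantCoeff (dd b l (el r (LL b f s) * hl a (LL b f (n + 1)))) ≠ 0 →
        wp b l = wp b (hL b f n a ++ eL b f s r)) ∧
      0 < constantCoeff (dd b (hL b f n a ++ eL b f s r)
        (el r (LL b f s) * hl a (LL b f (n + 1)))) := by
  induction k : a + r using Nat.strong_induction_on generalizing s n a r with
  | _ k ih =>
    subst k
    -- orthogonal nodes are different
    have hne : ∀ p, n ≤ p → p < n + a → ∀ q, q < s → s ≤ q + r → f p ≠ f q := by
      intro p h1 h2 q h3 h4 h5
      have := hc p h1 h2 q h3 h4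
      rw [h5, P.pairing_same] at this
      norm_num at this
    -- invariance of the two factors
    have hE : ∀ j, (∀ r', r = r' + 1 → ∀ s', s' + 1 = s → j ≠ f s') →
        sact b j (el r (LL b f s)) = el r (LL b f s) := by
      intro j hj
      cases r with
      | zero => simp [el_zero]
      | succ r => exact sact_el b f K s (r + 1) hf hs j (hj r rfl)
    have hH : ∀ j, (∀ a', a = a' + 1 → j ≠ f n) →
        sact b j (hl a (LL b f (n + 1))) = hl a (LL b f (n + 1)) := by
      intro j hj
      cases a with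
      | zero => simp [hl_zero]
      | succ a =>
        refine sact_hl b f K (n + 1) (a + 1) hf (by omega) j fun s' hs' => ?_
        obtain rfl : s' = n := by omega
        exact hj a rfl
    -- the derivative in the direction `f n`
    have hA : ∀ a', a = a' + 1 → dd1 b (f n) (el r (LL b f s) * hl a (LL b f (n + 1))) =
        C (wt b f n (f n)) * (el r (LL b f s) * hl a' (LL b f (n + 1 + 1))) := by
      intro a' ha
      subst ha
      rw [dd1_mul_of_inv, dd1_hl b f K n a' hf (by omega)]
      · ring
      · refine hE _ fun r' hr' s' hs' => ?_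
        exact hne n le_rfl (by omega) s' (by omega) (by omega)
    -- the derivative in the direction `f (s - 1)`
    have hB : ∀ r', r = r' + 1 → ∀ s', s = s' + 1 →
        dd1 b (f s') (el r (LL b f s) * hl a (LL b f (n + 1))) =
        C (wt b f s' (f s')) * (el r' (LL b f s') * hl a (LL b f (n + 1))) := by
      intro r' hr' s' hs'
      subst hr' hs'
      rw [mul_comm, dd1_mul_of_inv, dd1_el b f K s' r' hf (by omega)]
      · ring
      · refine hH _ fun a' ha' => ?_
        exact (hne n le_rfl (by omega) s' (by omega) (by omega)).symm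
    constructor
    · intro l hl' hne0
      cases l with
      | nil =>
        have h0 : a = 0 ∧ r = 0 := by
          simp at hl'
          omega
        obtain ⟨rfl, rfl⟩ := h0
        rfl
      | cons j l' =>
        have hlen : l'.length + 1 = a + r := by simpa using hl'
        have hdd : dd b (j :: l') (el r (LL b f s) * hl a (LL b f (n + 1))) =
          dd b l' (dd1 b j (el r (LL b f s) * hl a (LL b f (n + 1)))) := rfl
        rw [hdd] at hne0
        have hwp : wp b (j :: l') = wp b l' * rf P j := rfl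
        by_cases hja : ∃ a', a = a' + 1 ∧ j = f n
        · obtain ⟨a', rfl, rfl⟩ := hja
          rw [hA a' rfl, dd_C_mul, map_mul] at hne0
          have h1 := (ih (a' + r) (by omega) s (n + 1) a' r hs (by omega) hr
            (fun p h1 h2 q h3 h4 => hc p (by omega) (by omega) q h3 h4) rfl).1 l' (by omega)
            (right_ne_zero_of_mul hne0)
          rw [hwp, h1, hL_succ]
          rfl
        · by_cases hjr : ∃ r', r = r' + 1 ∧ ∃ s', s = s' + 1 ∧ j = f s'
          · obtain ⟨r', rfl, s', rfl, rfl⟩ := hjr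
            rw [hB r' rfl s' rfl, dd_C_mul, map_mul] at hne0
            have h1 := (ih (a + r') (by omega) s' n a r' (by omega) hn (by omega)
              (fun p h1 h2 q h3 h4 => hc p h1 h2 q (by omega) (by omega)) rfl).1 l' (by omega)
              (right_ne_zero_of_mul hne0)
            have hcm : ∀ (c m : ℕ), n ≤ m → m + c ≤ n + a →
                wp b (hL b f m c) * rf P (f s') = rf P (f s') * wp b (hL b f m c) := by
              intro c
              induction c with
              | zero => intro m _ _; simp [hL, wp]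
              | succ c ihc =>
                intro m hm1 hm2
                have h2 := ihc (m + 1) (by omega) (by omega)
                have h3 : rf P (f m : ι) * rf P (f s') = rf P (f s') * rf P (f m) :=
                  rf_comm _ _ (hc m hm1 (by omega) s' (by omega) (by omega))
                rw [hL_succ]
                show wp b (hL b f (m + 1) c) * rf P (f m) * rf P (f s') =
                  rf P (f s') * (wp b (hL b f (m + 1) c) * rf P (f m))
                rw [mul_assoc, h3, ← mul_assoc, h2, mul_assoc]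
            rw [hwp, h1, wp_append, wp_append, mul_assoc, hcm a n le_rfl le_rfl, eL_succ,
              ← mul_assoc]
            rfl
          · exfalso
            apply hne0
            rw [dd1_eq_zero_of_inv, dd_zero, map_zero]
            rw [map_mul, hE j, hH j]
            · intro a' ha' hj
              exact hja ⟨a', ha', hj⟩
            · intro r' hr' s' hs' hj
              exact hjr ⟨r', hr', s', hs'.symm, hj⟩
    · cases a with
      | succ a =>
        have hdd : dd b (hL b f n (a + 1) ++ eL b f s r)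
            (el r (LL b f s) * hl (a + 1) (LL b f (n + 1))) =
          dd b (hL b f (n + 1) a ++ eL b f s r)
            (dd1 b (f n) (el r (LL b f s) * hl (a + 1) (LL b f (n + 1)))) := by
          rw [hL_succ]
          rfl
        rw [hdd, hA a rfl, dd_C_mul, map_mul, constantCoeff_C]
        refine mul_pos (hf n (by omega)).1 ?_
        exact (ih (a + r) (by omega) s (n + 1) a r hs (by omega) hr
            (fun p h1 h2 q h3 h4 => hc p (by omega) (by omega) q h3 h4) rfl).2
      | zero =>
        cases r with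
        | succ r =>
          obtain ⟨s', rfl⟩ : ∃ s', s = s' + 1 := ⟨s - 1, by omega⟩
          have hdd : dd b (hL b f n 0 ++ eL b f (s' + 1) (r + 1))
              (el (r + 1) (LL b f (s' + 1)) * hl 0 (LL b f (n + 1))) =
            dd b (hL b f n 0 ++ eL b f s' r)
              (dd1 b (f s') (el (r + 1) (LL b f (s' + 1)) * hl 0 (LL b f (n + 1)))) := by
            rw [eL_succ]
            rfl
          rw [hdd, hB r rfl s' rfl, dd_C_mul, map_mul, constantCoeff_C]
          refine mul_pos (hf s' (by omega)).1 ?_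
          exact (ih (0 + r) (by omega) s' n 0 r (by omega) hn (by omega)
              (fun p h1 h2 q h3 h4 => hc p h1 h2 q (by omega) (by omega)) rfl).2
        | zero =>
          simp [hL, eL, dd, el_zero, hl_zero]

/-- WK13. **The hook polynomial represents a multiple of the hook-shaped Schubert class.**
Proof: `isSchub_of_word` with `l₀ = hookL f m a r` (`hookL_eq`), `F = C c⁻¹ * hk a r (LL (m+1))`,
`c = ε(∂_{l₀} (hk ..)) > 0` (`dd1_hk`, `dd_C_mul`, WK12 with `s = m`, `n = m + 1`); for `l` of
the same length with `ε(∂_l ..) ≠ 0` the head is `f m` (`sact_hk`, `dd1_eq_zero_of_inv`,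
`dd_zero`), and WK12 gives `wp l = wp l₀`.  Degrees: `hk_homog`, `LL_homog`, `hookL` has length
`a + r + 1`. -/
theorem isSchub_hook (f : ℕ → b.support) (m a r : ℕ) (hf : Straight b f (m + a + 1)) (hr : r ≤ m)
    (hc : ∀ p, m < p → p ≤ m + a → ∀ q, q < m → m ≤ q + r → P.pairing (f p) (f q) = 0) :
    ∃ c : ℚ, 0 < c ∧ IsSchub b (wp b (hookL b f m a r)) (C c⁻¹ * hk a r (LL b f (m + 1))) := by
  obtain ⟨hw, hpos⟩ := words_el_hl b f (m + a + 1) hf m (m + 1) a r (by omega) (by omega) hr
    (fun p hp hp' q hq hq' => hc p (by omega) (by omega) q hq hq')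
  have hm : m < m + a + 1 := by omega
  have hcm := (hf m hm).1
  have hdd : ∀ l' : List b.support,
      constantCoeff (dd b (f m :: l') (hk a r (LL b f (m + 1)))) =
        wt b f m (f m) *
          constantCoeff (dd b l' (el r (LL b f m) * hl a (LL b f (m + 1 + 1)))) := by
    intro l'
    have h1 : dd b (f m :: l') (hk a r (LL b f (m + 1))) =
        dd b l' (dd1 b (f m) (hk a r (LL b f (m + 1)))) := rfl
    rw [h1, dd1_hk b f (m + a + 1) m a r hf hm, dd_C_mul, map_mul, constantCoeff_C]
  have hc0 : 0 < constantCoeff (dd b (hookL b f m a r) (hk a r (LL b f (m + 1)))) := by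
    rw [hookL_eq, hdd]
    exact mul_pos hcm hpos
  have hlen : (hookL b f m a r).length = a + r + 1 := by
    simp only [hookL, List.length_append, List.length_map, List.length_range]
    omega
  refine ⟨constantCoeff (dd b (hookL b f m a r) (hk a r (LL b f (m + 1)))), hc0, ?_⟩
  apply isSchub_of_word
  · rw [hlen]
    have h1 := hk_homog a r (LL b f (m + 1)) (LL_homog b f (m + 1))
    have h2 := (isHomogeneous_C b.support
      (constantCoeff (dd b (hookL b f m a r) (hk a r (LL b f (m + 1)))))⁻¹).mul h1
    rwa [zero_add] at h2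
  · rw [dd_C_mul, map_mul, constantCoeff_C]
    exact inv_mul_cancel₀ hc0.ne'
  · intro l hl hne
    rw [dd_C_mul, map_mul, constantCoeff_C]
    suffices h : constantCoeff (dd b l (hk a r (LL b f (m + 1)))) = 0 by rw [h, mul_zero]
    cases l with
    | nil =>
      rw [hlen] at hl
      simp at hl
    | cons j l' =>
      by_cases hj : j = f m
      · subst hj
        rw [hdd]
        by_contra hcon
        apply hne
        have h1 := hw l' (by
          rw [hlen, List.length_cons] at hl
          omega) (right_ne_zero_of_mul hcon)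
        rw [hookL_eq]
        simp only [wp]
        rw [h1]
      · have h1 : sact b j (hk a r (LL b f (m + 1))) = hk a r (LL b f (m + 1)) :=
          sact_hk b f (m + a + 1) (m + 1) a r hf (by omega) j (fun s hs => by
            have : s = m := by omega
            rw [this]
            exact hj)
        have h2 : dd b (j :: l') (hk a r (LL b f (m + 1))) =
            dd b l' (dd1 b j (hk a r (LL b f (m + 1)))) := rfl
        rw [h2, dd1_eq_zero_of_inv b j _ h1, dd_zero, map_zero]

/-- WK14. **Positivity for hook-shaped elements of straight walks.** (WK13, RE7, WK10c.) -/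
theorem PP_of_hook (f : ℕ → b.support) (m a r : ℕ) (hf : Straight b f (m + a + 1))
    (hinj : ∀ s ≤ m, ∀ t ≤ m, f s = f t → s = t) (hr : r ≤ m)
    (hc : ∀ p, m < p → p ≤ m + a → ∀ q, q < m → m ≤ q + r → P.pairing (f p) (f q) = 0)
    (F : Pol b) (hF : IsSchub b (wp b (hookL b f m a r)) F) : PP b F := by
  obtain ⟨c, hc0, hS⟩ := isSchub_hook b f m a r hf hr hc
  intro x
  rw [act_eq_of_isSchub b _ F _ hF hS, act_mul_apply, act_C_apply]
  exact NN.smul (inv_nonneg.mpr hc0.le)
    (PP_hk b f (m + a + 1) m hf (by omega) hinj a r (m + 1) le_rfl x)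

end H28T
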